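import Pool.Agent.Q122.FM.FIN
import Pool.Agent.Q275.FM.CONS

set_option autoImplicit false

/-! Project FM: corollaries. -/

namespace Pool.Agent.Q122.FM

open Finset Filter Topology MeasureTheory

noncomputable section

theorem P1_pos : 0 < P1 := by
  have h1 : Summable (fun p : Nat.Primes => -(1 / (((p : ℕ) : ℝ) * (((p : ℕ) : ℝ) + 1)))) := by
    apply Summable.neg
    apply Summable.of_norm_bounded Pool.Agent.Q275.FM.sum_sq
    intro p
    have hp := Pool.Agent.Q275.FM.two_le_p p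
    rw [Real.norm_eq_abs, abs_of_nonneg (by positivity)]
    apply one_div_le_one_div_of_le (by positivity)
    nlinarith
  have h2 : Summable (fun p : Nat.Primes =>
      Real.log (1 - 1 / (((p : ℕ) : ℝ) * (((p : ℕ) : ℝ) + 1)))) := by
    have := Real.summable_log_one_add_of_summable h1
    refine this.congr ?_
    intro p
    rw [← sub_eq_add_neg]
  have h3 : ∀ p : Nat.Primes, 0 < 1 - 1 / (((p : ℕ) : ℝ) * (((p : ℕ) : ℝ) + 1)) := by
    intro p
    have hp := Pool.Agent.Q275.FM.two_le_p p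
    rw [sub_pos, div_lt_one (by positivity)]
    nlinarith
  unfold P1
  rw [← Real.rexp_tsum_eq_tprod h3 h2]
  exact Real.exp_pos _

/-- Markov's inequality -/
theorem cor_markov (fin : S_FIN) : ∃ C : ℝ, 0 < C ∧ ∀ ε : ℤ, (ε = 1 ∨ ε = -1) →
    ∀ δ : ℝ, 0 < δ → ∀ X H : ℕ, 3 ≤ X → Real.log X ≤ H → H ≤ X →
    (((Icc 1 X).filter (fun x => δ * H * Real.log X < |W ε x H - MT ε x H|)).card : ℝ) ≤
      C / δ * X * (Real.log X ^ (1 / 6 : ℝ) * Real.log (Real.log X) /
        (min (H : ℝ) ((X : ℝ) ^ (1 / 4 : ℝ))) ^ (1 / 6 : ℝ)) := by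
  obtain ⟨_, C, hC, fin⟩ := fin
  refine ⟨C, hC, ?_⟩
  intro ε hε δ hδ X H hX hH hHX
  have h1 := fin ε hε X H hX hH hHX
  have hl1 := one_le_log hX
  have hH1 : 1 ≤ H := by
    have : (1 : ℝ) ≤ H := by linarith
    exact_mod_cast this
  have hH0 : (0 : ℝ) < H := by exact_mod_cast hH1
  set l := Real.log (X : ℝ) with hl
  have hl0 : 0 < l := by linarith
  set S := (Icc 1 X).filter (fun x => δ * H * l < |W ε x H - MT ε x H|) with hS
  have h2 : (S.card : ℝ) * (δ * H * l) ≤ ∑ x ∈ Icc 1 X, |W ε x H - MT ε x H| := by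
    calc (S.card : ℝ) * (δ * H * l) = ∑ x ∈ S, δ * H * l := by
          rw [sum_const, nsmul_eq_mul]
      _ ≤ ∑ x ∈ S, |W ε x H - MT ε x H| := by
          apply sum_le_sum
          intro x hx
          rw [hS, mem_filter] at hx
          exact hx.2.le
      _ ≤ ∑ x ∈ Icc 1 X, |W ε x H - MT ε x H| :=
          sum_le_sum_of_subset_of_nonneg (filter_subset _ _) fun x _ _ => abs_nonneg _
  have h3 : (S.card : ℝ) ≤ (∑ x ∈ Icc 1 X, |W ε x H - MT ε x H|) / (δ * H * l) := by
    rw [le_div_iff₀ (by positivity)]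
    exact h2
  refine h3.trans ?_
  have hm := min_pos' hX hH1
  set m := min (H : ℝ) ((X : ℝ) ^ (1 / 4 : ℝ)) with hmdef
  have e1 : l ^ (7 / 6 : ℝ) = l ^ (1 / 6 : ℝ) * l := by
    rw [show (7 / 6 : ℝ) = 1 / 6 + 1 by norm_num, Real.rpow_add hl0, Real.rpow_one]
  calc (∑ x ∈ Icc 1 X, |W ε x H - MT ε x H|) / (δ * H * l) ≤
        (C * X * H * (l ^ (7 / 6 : ℝ) * Real.log l / m ^ (1 / 6 : ℝ))) / (δ * H * l) :=
        div_le_div_of_nonneg_right h1 (by positivity)
    _ = _ := by
        rw [e1]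
        field_simp

/-- the main term is of order `H log X` -/
theorem MT_lower : ∃ c : ℝ, 0 < c ∧ ∃ X1 : ℕ, ∀ (ε : ℤ) (X x H : ℕ), X1 ≤ X → X ≤ x ^ 2 →
    c * H * Real.log X ≤ MT ε x H := by
  have hP := P1_pos
  set U0 : ℝ := 4 * (|lam 0 / 2 + 2 * Real.eulerMascheroniConstant + 2 * Lp| +
    |lam 1 / 2 + 2 * Real.eulerMascheroniConstant + 2 * Lp|) with hU0
  obtain ⟨X1, hX1⟩ : ∃ X1 : ℕ, ∀ X : ℕ, X1 ≤ X → 2 * U0 ≤ Real.log X := by
    have := (Real.tendsto_log_atTop.comp tendsto_natCast_atTop_atTop).eventually_ge_atTop (2 * U0)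
    rw [eventually_atTop] at this
    exact this
  refine ⟨3 / Real.pi ^ 2 * (P1 / 8), by positivity, max X1 1, ?_⟩
  intro ε X x H hX hXx
  have hXa : X1 ≤ X := (le_max_left _ _).trans hX
  have hXb : 1 ≤ X := (le_max_right _ _).trans hX
  have hU := hX1 X hXa
  set a : ℕ := if ε = 1 then 0 else 1 with ha
  have hx1 : 1 ≤ x := by
    rcases Nat.eq_zero_or_pos x with rfl | h
    · simp at hXx; omega
    · exact h
  have hx' : (1 : ℝ) ≤ x := by exact_mod_cast hx1
  have hX' : (1 : ℝ) ≤ X := by exact_mod_cast hXb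
  have hlx : Real.log X ≤ 2 * Real.log x := by
    have h1 : Real.log X ≤ Real.log ((x : ℝ) ^ 2) := by
      apply Real.log_le_log (by linarith)
      exact_mod_cast hXx
    rw [Real.log_pow] at h1
    exact_mod_cast h1
  have hlX0 : 0 ≤ Real.log X := Real.log_nonneg hX'
  have hH0 : (0 : ℝ) ≤ H := by positivity
  have hcont : ContinuousOn (fun t : ℝ => Q1 a (Real.log t)) (Set.uIcc (x : ℝ) (x + H)) := by
    unfold Q1
    have : ContinuousOn Real.log (Set.uIcc (x : ℝ) (x + H)) := by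
      apply Real.continuousOn_log.mono
      intro t ht
      rw [Set.uIcc_of_le (by linarith)] at ht
      simp only [Set.mem_compl_iff, Set.mem_singleton_iff]
      intro h
      rw [h] at ht
      linarith [ht.1]
    fun_prop
  have hint : IntervalIntegrable (fun t : ℝ => Q1 a (Real.log t)) volume (x : ℝ) (x + H) :=
    hcont.intervalIntegrable
  have hb : ∀ t ∈ Set.Icc (x : ℝ) (x + H), P1 / 8 * Real.log X ≤ Q1 a (Real.log t) := by
    intro t ht
    have hlt : Real.log x ≤ Real.log t := Real.log_le_log (by linarith) ht.1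
    have hV : -(U0 / 4) ≤ lam a / 2 + 2 * Real.eulerMascheroniConstant + 2 * Lp := by
      have n0 := abs_nonneg (lam 0 / 2 + 2 * Real.eulerMascheroniConstant + 2 * Lp)
      have n1 := abs_nonneg (lam 1 / 2 + 2 * Real.eulerMascheroniConstant + 2 * Lp)
      by_cases h : ε = 1
      · have : a = 0 := by rw [ha, if_pos h]
        rw [this]
        have := neg_abs_le (lam 0 / 2 + 2 * Real.eulerMascheroniConstant + 2 * Lp)
        rw [hU0]
        linarith
      · have : a = 1 := by rw [ha, if_neg h]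
        rw [this]
        have := neg_abs_le (lam 1 / 2 + 2 * Real.eulerMascheroniConstant + 2 * Lp)
        rw [hU0]
        linarith
    have e1 : P1 / 8 * Real.log X = P1 * (Real.log X / 8) := by ring
    unfold Q1
    rw [e1]
    apply mul_le_mul_of_nonneg_left _ hP.le
    linarith
  have h1 : ∫ t in (x : ℝ)..((x : ℝ) + H), P1 / 8 * Real.log X ≤
      ∫ t in (x : ℝ)..((x : ℝ) + H), Q1 a (Real.log t) :=
    intervalIntegral.integral_mono_on (by linarith) (by simp) hint hb
  rw [intervalIntegral.integral_const, smul_eq_mul, add_sub_cancel_left] at h1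
  unfold MT
  rw [← ha]
  calc 3 / Real.pi ^ 2 * (P1 / 8) * H * Real.log X =
        3 / Real.pi ^ 2 * (H * (P1 / 8 * Real.log X)) := by ring
    _ ≤ _ := mul_le_mul_of_nonneg_left h1 (by positivity)

theorem tend_min (h : ℕ → ℕ) (hh : Tendsto (fun X : ℕ => (h X : ℝ) /
      (Real.log X * Real.log (Real.log X) ^ 6)) atTop atTop) :
    Tendsto (fun X : ℕ => Real.log X ^ (1 / 6 : ℝ) * Real.log (Real.log X) /
        (min (h X : ℝ) ((X : ℝ) ^ (1 / 4 : ℝ))) ^ (1 / 6 : ℝ)) atTop (𝓝 0) := by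
  have hlog : Tendsto (fun X : ℕ => Real.log (X : ℝ)) atTop atTop :=
    Real.tendsto_log_atTop.comp tendsto_natCast_atTop_atTop
  have hll : Tendsto (fun X : ℕ => Real.log (Real.log (X : ℝ))) atTop atTop :=
    Real.tendsto_log_atTop.comp hlog
  -- the quarter power
  have h4 : Tendsto (fun X : ℕ => (X : ℝ) ^ (1 / 4 : ℝ) /
      (Real.log X * Real.log (Real.log X) ^ 6)) atTop atTop := by
    have a1 : Tendsto (fun x : ℝ => Real.log x ^ (7 : ℝ) / x ^ (1 / 4 : ℝ)) atTop (𝓝 0) :=
      (isLittleO_log_rpow_rpow_atTop 7 (by norm_num : (0 : ℝ) < 1 / 4)).tendsto_div_nhds_zero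
    have a2 : Tendsto (fun X : ℕ => Real.log (X : ℝ) ^ (7 : ℝ) / (X : ℝ) ^ (1 / 4 : ℝ)) atTop
        (𝓝 0) := a1.comp tendsto_natCast_atTop_atTop
    have a3 : Tendsto (fun X : ℕ => Real.log (X : ℝ) ^ (7 : ℝ) / (X : ℝ) ^ (1 / 4 : ℝ)) atTop
        (𝓝[>] 0) := by
      rw [tendsto_nhdsWithin_iff]
      refine ⟨a2, ?_⟩
      filter_upwards [hlog.eventually_ge_atTop 1, eventually_ge_atTop 1] with X hX hX1
      have : (0 : ℝ) < X := by exact_mod_cast hX1
      simp only [Set.mem_Ioi]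
      have : 0 < Real.log (X : ℝ) := by linarith
      positivity
    have a4 := a3.inv_tendsto_nhdsGT_zero
    refine tendsto_atTop_mono' atTop ?_ a4
    filter_upwards [hlog.eventually_ge_atTop 1, hll.eventually_ge_atTop 1,
      eventually_ge_atTop 1] with X hX hX2 hX1
    have hX0 : (0 : ℝ) < X := by exact_mod_cast hX1
    have hl0 : 0 < Real.log (X : ℝ) := by linarith
    have hll0 : 0 < Real.log (Real.log (X : ℝ)) := by linarith
    simp only [Pi.inv_apply, inv_div]
    apply div_le_div_of_nonneg_left (by positivity) (by positivity)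
    have b1 : Real.log (Real.log (X : ℝ)) ≤ Real.log (X : ℝ) := by
      have := Real.log_le_sub_one_of_pos hl0
      linarith
    calc Real.log (X : ℝ) * Real.log (Real.log (X : ℝ)) ^ 6 ≤
          Real.log (X : ℝ) * Real.log (X : ℝ) ^ 6 :=
          mul_le_mul_of_nonneg_left (pow_le_pow_left₀ hll0.le b1 6) hl0.le
      _ = Real.log (X : ℝ) ^ (7 : ℝ) := by
          rw [show (7 : ℝ) = ((7 : ℕ) : ℝ) by norm_num, Real.rpow_natCast]
          ring
  have h5 : Tendsto (fun X : ℕ => min (h X : ℝ) ((X : ℝ) ^ (1 / 4 : ℝ)) /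
      (Real.log X * Real.log (Real.log X) ^ 6)) atTop atTop := by
    have := tendsto_atTop.2 (fun b => by
      filter_upwards [hh.eventually_ge_atTop b, h4.eventually_ge_atTop b] with X h1 h2
      exact le_min h1 h2 : ∀ b : ℝ, ∀ᶠ X : ℕ in atTop, b ≤ min ((h X : ℝ) /
        (Real.log X * Real.log (Real.log X) ^ 6)) ((X : ℝ) ^ (1 / 4 : ℝ) /
        (Real.log X * Real.log (Real.log X) ^ 6)))
    refine tendsto_atTop_mono' atTop ?_ this
    filter_upwards [hlog.eventually_ge_atTop 1, hll.eventually_ge_atTop 1] with X hX hX2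
    have hl0 : 0 < Real.log (X : ℝ) := by linarith
    have hll0 : 0 < Real.log (Real.log (X : ℝ)) := by linarith
    have hden : 0 < Real.log (X : ℝ) * Real.log (Real.log (X : ℝ)) ^ 6 := by positivity
    rcases le_total (h X : ℝ) ((X : ℝ) ^ (1 / 4 : ℝ)) with h1 | h1
    · rw [min_eq_left h1]
      exact min_le_left _ _
    · rw [min_eq_right h1]
      exact min_le_right _ _
  have h6 := h5.inv_tendsto_atTop
  have h7 : Tendsto (fun X : ℕ => ((min (h X : ℝ) ((X : ℝ) ^ (1 / 4 : ℝ)) /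
      (Real.log X * Real.log (Real.log X) ^ 6))⁻¹) ^ (1 / 6 : ℝ)) atTop (𝓝 0) := by
    have := h6.rpow_const (p := 1 / 6) (Or.inr (by norm_num))
    rw [Real.zero_rpow (by norm_num)] at this
    exact this
  refine h7.congr' ?_
  filter_upwards [hlog.eventually_ge_atTop 1, hll.eventually_ge_atTop 1,
    h5.eventually_ge_atTop 1, eventually_ge_atTop 1] with X hX hX2 hX3 hX1
  have hX0 : (0 : ℝ) < X := by exact_mod_cast hX1
  have hl0 : 0 < Real.log (X : ℝ) := by linarith
  have hll0 : 0 < Real.log (Real.log (X : ℝ)) := by linarith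
  have hden : 0 < Real.log (X : ℝ) * Real.log (Real.log (X : ℝ)) ^ 6 := by positivity
  set m := min (h X : ℝ) ((X : ℝ) ^ (1 / 4 : ℝ)) with hm
  have hm0 : 0 < m := by
    by_contra hneg
    have : m / (Real.log (X : ℝ) * Real.log (Real.log (X : ℝ)) ^ 6) ≤ 0 :=
      div_nonpos_of_nonpos_of_nonneg (not_lt.1 hneg) hden.le
    linarith
  rw [inv_div, Real.div_rpow hden.le hm0.le, Real.mul_rpow hl0.le (by positivity)]
  have e1 : (Real.log (Real.log (X : ℝ)) ^ 6) ^ (1 / 6 : ℝ) = Real.log (Real.log (X : ℝ)) := by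
    rw [← Real.rpow_natCast, ← Real.rpow_mul hll0.le,
      show (((6 : ℕ) : ℝ) * (1 / 6)) = 1 by norm_num, Real.rpow_one]
  rw [e1]

/-- in almost all intervals -/
theorem cor_ratio (fin : S_FIN) : ∀ ε : ℤ, (ε = 1 ∨ ε = -1) → ∀ h : ℕ → ℕ,
    (∀ X, h X ≤ X) → Tendsto (fun X : ℕ => (h X : ℝ) /
      (Real.log X * Real.log (Real.log X) ^ 6)) atTop atTop → ∀ δ : ℝ, 0 < δ →
    Tendsto (fun X : ℕ => (((Icc 1 X).filter (fun x =>
      δ * |MT ε x (h X)| < |W ε x (h X) - MT ε x (h X)|)).card : ℝ) / X) atTop (𝓝 0) := by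
  intro ε hε h hhX hh δ hδ
  obtain ⟨C, hC, hmk⟩ := cor_markov fin
  obtain ⟨c, hc, X1, hlow⟩ := MT_lower
  have hlog : Tendsto (fun X : ℕ => Real.log (X : ℝ)) atTop atTop :=
    Real.tendsto_log_atTop.comp tendsto_natCast_atTop_atTop
  have hll : Tendsto (fun X : ℕ => Real.log (Real.log (X : ℝ))) atTop atTop :=
    Real.tendsto_log_atTop.comp hlog
  have t1 := (tend_min h hh).const_mul (C / (δ * c))
  have t2 : Tendsto (fun X : ℕ => (Real.sqrt (X : ℝ))⁻¹) atTop (𝓝 0) := by
    apply Filter.Tendsto.inv_tendsto_atTop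
    exact Real.tendsto_sqrt_atTop.comp tendsto_natCast_atTop_atTop
  have t3 := t2.add t1
  rw [mul_zero, add_zero] at t3
  refine squeeze_zero' ?_ ?_ t3
  · filter_upwards with X
    positivity
  · filter_upwards [eventually_ge_atTop 3, eventually_ge_atTop X1,
      hll.eventually_ge_atTop 1, hh.eventually_ge_atTop 1] with X hX3 hXX hX2 hX4
    have hX0 : (0 : ℝ) < X := by
      have : (3 : ℝ) ≤ X := by exact_mod_cast hX3
      linarith
    have hl1 := one_le_log hX3
    have hden : 0 < Real.log (X : ℝ) * Real.log (Real.log (X : ℝ)) ^ 6 := by positivity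
    have hlH : Real.log X ≤ h X := by
      rw [le_div_iff₀ hden, one_mul] at hX4
      refine le_trans ?_ hX4
      exact le_mul_of_one_le_right (by linarith) (one_le_pow₀ hX2)
    have hm := hmk ε hε (δ * c) (by positivity) X (h X) hX3 hlH (hhX X)
    set S := (Icc 1 X).filter (fun x =>
      δ * |MT ε x (h X)| < |W ε x (h X) - MT ε x (h X)|) with hS
    set T := (Icc 1 X).filter (fun x =>
      δ * c * (h X) * Real.log X < |W ε x (h X) - MT ε x (h X)|) with hT
    have hsub : S ⊆ Icc 1 (Nat.sqrt X) ∪ T := by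
      intro x hx
      rw [hS, mem_filter, mem_Icc] at hx
      rw [mem_union]
      by_cases hxs : x ≤ Nat.sqrt X
      · left
        rw [mem_Icc]
        exact ⟨hx.1.1, hxs⟩
      · right
        rw [hT, mem_filter, mem_Icc]
        refine ⟨hx.1, ?_⟩
        have hx2 : X ≤ x ^ 2 := by
          have : Nat.sqrt X < x := not_le.1 hxs
          rw [Nat.sqrt_lt'] at this
          exact this.le
        have h1 := hlow ε X x (h X) hXX hx2
        have h2 : c * (h X) * Real.log X ≤ |MT ε x (h X)| := h1.trans (le_abs_self _)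
        calc δ * c * (h X) * Real.log X = δ * (c * (h X) * Real.log X) := by ring
          _ ≤ δ * |MT ε x (h X)| := mul_le_mul_of_nonneg_left h2 hδ.le
          _ < _ := hx.2
    have hcard : (S.card : ℝ) ≤ Real.sqrt X + T.card := by
      have h1 : S.card ≤ (Icc 1 (Nat.sqrt X)).card + T.card :=
        (card_le_card hsub).trans (card_union_le _ _)
      rw [Nat.card_Icc, Nat.add_sub_cancel] at h1
      have h2 : ((Nat.sqrt X : ℕ) : ℝ) ≤ Real.sqrt X := Real.nat_sqrt_le_real_sqrt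
      have h3 : (S.card : ℝ) ≤ (Nat.sqrt X : ℕ) + T.card := by exact_mod_cast h1
      linarith
    rw [div_le_iff₀ hX0]
    have e1 : (Real.sqrt (X : ℝ))⁻¹ * X = Real.sqrt X := by
      have : Real.sqrt (X : ℝ) ≠ 0 := by positivity
      rw [inv_mul_eq_iff_eq_mul₀ this, Real.mul_self_sqrt hX0.le]
    rw [add_mul, e1]
    calc (S.card : ℝ) ≤ Real.sqrt X + T.card := hcard
      _ ≤ Real.sqrt X + C / (δ * c) * X * (Real.log X ^ (1 / 6 : ℝ) * Real.log (Real.log X) /
        (min (h X : ℝ) ((X : ℝ) ^ (1 / 4 : ℝ))) ^ (1 / 6 : ℝ)) := by linarith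
      _ = _ := by ring

end

end Pool.Agent.Q122.FM
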