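import Pool.Agent.Q122.FM.Stm

set_option autoImplicit false

/-! Project FM: decomposition `n = s u²`. -/

namespace Pool.Agent.Q122.FM

open Finset Filter Topology MeasureTheory Pool.Agent.H306R2.RZ Pool.Agent.H306R2.RG

noncomputable section

theorem sqf_unique {s1 s2 u1 u2 : ℕ} (h1 : Squarefree s1) (h2 : Squarefree s2) (hu1 : u1 ≠ 0)
    (hu2 : u2 ≠ 0) (h : s1 * u1 ^ 2 = s2 * u2 ^ 2) : s1 = s2 ∧ u1 = u2 := by
  have hs1 : s1 ≠ 0 := h1.ne_zero
  have hs2 : s2 ≠ 0 := h2.ne_zero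
  have hs : s1 = s2 := by
    apply Nat.eq_of_factorization_eq hs1 hs2
    intro p
    have e : (s1 * u1 ^ 2).factorization p = (s2 * u2 ^ 2).factorization p := by rw [h]
    rw [Nat.factorization_mul hs1 (pow_ne_zero 2 hu1), Nat.factorization_mul hs2 (pow_ne_zero 2 hu2),
      Nat.factorization_pow, Nat.factorization_pow] at e
    simp only [Finsupp.coe_add, Finsupp.coe_smul, Pi.add_apply, Pi.smul_apply, smul_eq_mul] at e
    have a1 := h1.natFactorization_le_one p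
    have a2 := h2.natFactorization_le_one p
    omega
  refine ⟨hs, ?_⟩
  subst hs
  have h3 : u1 ^ 2 = u2 ^ 2 := Nat.eq_of_mul_eq_mul_left (Nat.pos_of_ne_zero hs1) h
  exact Nat.pow_left_injective (n := 2) (by norm_num) h3

/-- odd squarefree numbers `3 ≤ s ≤ N` -/
def SS (N : ℕ) : Finset ℕ := (Icc 1 N).filter (fun s => Odd s ∧ Squarefree s ∧ 3 ≤ s)

theorem sum_decomp (N : ℕ) (f : ℕ → ℝ) :
    ∑ n ∈ (Icc 1 N).filter (fun n => Odd n ∧ ¬ IsSquare n), f n =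
      ∑ s ∈ SS N, ∑ u ∈ (Icc 1 N).filter (fun u => Odd u ∧ s * u ^ 2 ≤ N), f (s * u ^ 2) := by
  rw [Finset.sum_sigma']
  symm
  apply Finset.sum_nbij (fun x : (Σ _ : ℕ, ℕ) => x.1 * x.2 ^ 2)
  · rintro ⟨s, u⟩ hx
    simp only [SS, mem_sigma, mem_filter, mem_Icc] at hx ⊢
    obtain ⟨⟨⟨hs1, hsN⟩, hso, hss, hs3⟩, ⟨hu1, huN⟩, huo, hle⟩ := hx
    refine ⟨⟨Nat.mul_pos hs1 (pow_pos hu1 2), hle⟩, hso.mul (huo.pow), ?_⟩
    rintro ⟨t, ht⟩
    have ht0 : t ≠ 0 := by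
      rintro rfl
      have := Nat.mul_pos hs1 (pow_pos hu1 2)
      omega
    have := (sqf_unique hss squarefree_one (by omega) ht0 (by rw [ht]; ring) : s = 1 ∧ u = t)
    omega
  · rintro ⟨s, u⟩ hx ⟨s', u'⟩ hx' h
    simp only [SS, mem_coe, mem_sigma, mem_filter, mem_Icc] at hx hx' h
    obtain ⟨a, b⟩ := sqf_unique hx.1.2.2.1 hx'.1.2.2.1 (by omega) (by omega) h
    subst a; subst b; rfl
  · intro n hn
    simp only [mem_coe, mem_filter, mem_Icc] at hn
    obtain ⟨⟨hn1, hnN⟩, hno, hns⟩ := hn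
    obtain ⟨s, u, hus, hs⟩ := Nat.sq_mul_squarefree n
    have hus' : s * u ^ 2 = n := by rw [← hus]; ring
    have hu0 : u ≠ 0 := by
      rintro rfl
      simp at hus'; omega
    have hs0 : s ≠ 0 := hs.ne_zero
    have ho : Odd (s * u ^ 2) := hus' ▸ hno
    obtain ⟨hso, huo⟩ := Nat.odd_mul.1 ho
    have huo' : Odd u := by
      rw [Nat.odd_pow_iff (by norm_num)] at huo
      exact huo
    refine ⟨⟨s, u⟩, ?_, hus'⟩
    simp only [SS, coe_sigma, Set.mem_sigma_iff, mem_coe, mem_filter, mem_Icc]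
    have hsn : s ≤ n := by
      rw [← hus']
      exact Nat.le_mul_of_pos_right _ (pow_pos (Nat.pos_of_ne_zero hu0) 2)
    have hun : u ≤ n := by
      rw [← hus']
      calc u ≤ u ^ 2 := Nat.le_self_pow (by norm_num) u
        _ ≤ s * u ^ 2 := Nat.le_mul_of_pos_left _ (Nat.pos_of_ne_zero hs0)
    have hs3 : 3 ≤ s := by
      have : s ≠ 1 := by
        rintro rfl
        apply hns
        exact ⟨u, by rw [← hus']; ring⟩
      obtain ⟨k, hk⟩ := hso
      omega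
    exact ⟨⟨⟨by omega, by omega⟩, hso, hs, hs3⟩, ⟨by omega, by omega⟩, huo', by omega⟩
  · intro x _
    rfl

theorem js_sq {e : ℤ} (he : e = 1 ∨ e = -1 ∨ e = 2 ∨ e = -2) (d s u : ℕ) (hu : Odd u)
    (hs : s ≠ 0) :
    js (e * (d : ℤ)) (s * u ^ 2) = js (e * (d : ℤ)) s * (if u.Coprime d then 1 else 0) := by
  have hu0 : u ≠ 0 := by rintro rfl; simp at hu
  have : NeZero s := ⟨hs⟩
  have : NeZero (u ^ 2) := ⟨pow_ne_zero 2 hu0⟩
  have hg : Int.gcd (e * (d : ℤ)) u = 1 ↔ u.Coprime d := by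
    have h2 : Nat.Coprime e.natAbs u := by
      rcases he with rfl | rfl | rfl | rfl <;> simp [hu]
    rw [Int.gcd_eq_natAbs, Int.natAbs_mul, Int.natAbs_natCast, Int.natAbs_natCast]
    change Nat.Coprime (e.natAbs * d) u ↔ _
    rw [Nat.coprime_mul_iff_left, Nat.coprime_comm (m := d)]
    exact ⟨fun h => h.2, fun h => ⟨h2, h⟩⟩
  unfold js
  rw [jacobiSym.mul_right, jacobiSym.pow_right]
  push_cast
  congr 1
  by_cases h : u.Coprime d
  · rw [if_pos h]
    have := jacobiSym.sq_one (hg.2 h)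
    rw [← Int.cast_pow, this]; simp
  · rw [if_neg h]
    have : NeZero u := ⟨hu0⟩
    have h3 : jacobiSym (e * (d : ℤ)) u = 0 := by
      rw [jacobiSym.eq_zero_iff_not_coprime]
      exact fun hh => h (hg.1 hh)
    rw [h3]; simp

theorem mob_sum (n : ℕ) (hn : n ≠ 0) :
    ∑ g ∈ n.divisors, ((ArithmeticFunction.moebius g : ℤ) : ℝ) = if n = 1 then 1 else 0 := by
  have h := congrArg (fun f : ArithmeticFunction ℤ => f n)
    (ArithmeticFunction.moebius_mul_coe_zeta)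
  simp only [ArithmeticFunction.coe_mul_zeta_apply, ArithmeticFunction.one_apply] at h
  have h2 := congrArg (fun z : ℤ => (z : ℝ)) h
  push_cast at h2
  exact h2

theorem cop_sum (u d : ℕ) (hu : u ≠ 0) : (if u.Coprime d then (1 : ℝ) else 0) =
    ∑ g ∈ u.divisors.filter (fun g => g ∣ d), ((ArithmeticFunction.moebius g : ℤ) : ℝ) := by
  have h1 : u.divisors.filter (fun g => g ∣ d) = (Nat.gcd u d).divisors := by
    ext g
    simp only [mem_filter, Nat.mem_divisors, Nat.dvd_gcd_iff]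
    constructor
    · rintro ⟨⟨h1, _⟩, h2⟩
      exact ⟨⟨h1, h2⟩, Nat.gcd_ne_zero_left hu⟩
    · rintro ⟨⟨h1, h2⟩, _⟩
      exact ⟨⟨h1, hu⟩, h2⟩
  rw [h1, mob_sum _ (Nat.gcd_ne_zero_left hu)]

end

end Pool.Agent.Q122.FM
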