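import Pool.Agent.Q122.FM.LS1b

set_option autoImplicit false

/-! Project FM: job LS1. -/

namespace Pool.Agent.Q122.FM

open Finset Filter Topology MeasureTheory Pool.Agent.H306R2.RZ Pool.Agent.H306R2.RG

noncomputable section

/-- the bound for one `g` -/
def BB1 (w : ℝ) (a Y h : ℕ) : ℝ :=
  h * ((Y : ℝ) / a ^ 2 + 1 / w) * w ^ (-(1 / 2) : ℝ) * (1 + Real.log (1 + 1 / w)) *
      Real.exp (-(w / 4))

theorem BB1_nonneg {w : ℝ} (hw : 0 < w) (a Y h : ℕ) : 0 ≤ BB1 w a Y h := by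
  unfold BB1
  have h0 : 0 ≤ Real.log (1 + 1 / w) := Real.log_nonneg (by
    have : 0 < 1 / w := by positivity
    linarith)
  positivity

theorem xg_bound {C1 C2 w : ℝ} (hw : 0 < w) (hC1 : 0 < C1) (hC2 : 0 < C2)
    (ls3 : S_LS3) (hwin : S_HW)
    (ks : ∀ (z : ℝ) (V : ℕ), 0 < z →
      ∑ v ∈ Icc 1 V, kap (z * (v : ℝ) ^ 4) ≤ C1 * z ^ (-(1 / 4) : ℝ) * Real.exp (-(z / 2)))
    (ws : ∀ (Q : ℝ) (M : ℕ), 0 < Q →
      ∑ s ∈ Icc 1 M, 1 / (s : ℝ) * (max 1 ((s : ℝ) / Q)) ^ 3 * Real.exp (-((s : ℝ) / Q) ^ 2) ≤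
        C2 * (1 + Real.log (1 + Q)) * Real.exp (-(1 / (2 * Q ^ 2))))
    (k : ℕ → ℝ) (hk : ∀ n : ℕ, 1 ≤ n → |k n| ≤ kap ((n : ℝ) ^ 2 * w))
    (e : ℤ) (c : ℕ) (hc : c < 8) (a : ℕ) (ha : Odd a) (g : ℕ) (hg : Odd g)
    (hag : g.Coprime a) (Y h N : ℕ) :
    ∑ y ∈ range Y, (∑ d ∈ (Ioc y (y + h)).filter (fun d => (a ^ 2 ∣ d ∧ d % 8 = c) ∧ g ∣ d),
      ∑ s ∈ Sa a N, js (e * (d : ℤ)) s * KG k a N g s) ^ 2 ≤
    3600 * C1 ^ 2 * C2 * BB1 w a Y h / (g : ℝ) ^ 3 := by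
  have hg1 : 1 ≤ g := hg.pos
  have ha1 : 1 ≤ a := ha.pos
  have hg' : (0 : ℝ) < g := by exact_mod_cast hg1
  have ha' : (0 : ℝ) < a := by exact_mod_cast ha1
  have hsw : 0 < Real.sqrt w := Real.sqrt_pos.2 hw
  set q := 8 * a ^ 2 * g with hq
  set c' := (c * g) % 8 with hc'
  have hc'8 : c' < 8 := Nat.mod_lt _ (by norm_num)
  set c0 := a ^ 2 * g * c' with hc0
  have hc0q : c0 < q := by
    rw [hc0, hq, show 8 * a ^ 2 * g = a ^ 2 * g * 8 by ring]
    exact (Nat.mul_lt_mul_left (by positivity)).2 hc'8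
  set G : ℤ → ℝ := fun z => ∑ s ∈ Sa a N, js (e * z) s * KG k a N g s with hG
  obtain ⟨hm, hwn⟩ := hwin q c0 Y h G hc0q
  have e1 : ∀ y ∈ range Y,
      (∑ d ∈ (Ioc y (y + h)).filter (fun d => (a ^ 2 ∣ d ∧ d % 8 = c) ∧ g ∣ d),
        ∑ s ∈ Sa a N, js (e * (d : ℤ)) s * KG k a N g s) ^ 2 =
      (∑ d ∈ (Ioc y (y + h)).filter (fun d => d % q = c0), G d) ^ 2 := by
    intro y _
    have : (Ioc y (y + h)).filter (fun d => (a ^ 2 ∣ d ∧ d % 8 = c) ∧ g ∣ d) =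
        (Ioc y (y + h)).filter (fun d => d % q = c0) := by
      apply filter_congr
      intro d _
      exact class_iff a g c d ha hg hc hag
    rw [this]
  rw [sum_congr rfl e1]
  refine hwn.trans ?_
  set Q : ℝ := 1 / (Real.sqrt w * (g : ℝ) ^ 2) with hQ
  have hQ0 : 0 < Q := by positivity
  set U : ℕ := Y / q + 2 with hU
  set ψ : ℕ → ℝ := fun s => js (e * g) s with hψ
  have hψ1 : ∀ s, |ψ s| ≤ 1 := by
    intro s
    simp only [hψ, js]
    rcases jacobiSym.trichotomy (e * g) s with h | h | h <;> rw [h] <;> norm_num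
  have e2 : ∀ (u : ℤ) (m : ℕ), ∑ j ∈ Ioc u (u + (m : ℤ)), G (q * j + c0) =
      ∑ j ∈ Ioc u (u + (m : ℤ)), ∑ s ∈ Sa a N, (ψ s * KG k a N g s) * js (8 * j + c') s := by
    intro u m
    apply sum_congr rfl
    intro j _
    simp only [hG]
    apply sum_congr rfl
    intro s hs
    simp only [Sa, SS, mem_filter, mem_Icc] at hs
    have h1 : e * ((q : ℤ) * j + c0) = e * ((a : ℤ) ^ 2 * g * (8 * j + c')) := by
      rw [hq, hc0]; push_cast; ring
    rw [h1, js_split e a g s j c' (by omega) hs.2]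
    simp only [hψ]
    ring
  have hSa : ∀ s ∈ Sa a N, Odd s ∧ Squarefree s ∧ 3 ≤ s := by
    intro s hs
    simp only [Sa, SS, mem_filter, mem_Icc] at hs
    exact hs.1.2
  set SB := ∑ s ∈ Sa a N, (max 1 ((s : ℝ) / Q)) ^ 3 * (ψ s * KG k a N g s) ^ 2 with hSB
  have hSB0 : 0 ≤ SB := sum_nonneg fun s _ => by positivity
  have e3 : ∀ t ∈ range q, ∑ u ∈ Ico (-1 : ℤ) (-1 + ((U : ℕ) : ℤ)),
      (∑ j ∈ Ioc u (u + (((t + h) / q : ℕ) : ℤ)), G (q * j + c0)) ^ 2 ≤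
      200 * (U + Q ^ 2) * (((t + h) / q : ℕ) : ℝ) * SB := by
    intro t _
    have h1 := ls3 Q U ((t + h) / q) (-1) c' (Sa a N) (fun s => ψ s * KG k a N g s) hQ0 hSa
    refine le_trans (le_of_eq ?_) h1
    apply sum_congr rfl
    intro u _
    rw [e2]
  refine (sum_le_sum e3).trans ?_
  have e4 : ∑ t ∈ range q, 200 * ((U : ℝ) + Q ^ 2) * (((t + h) / q : ℕ) : ℝ) * SB =
      200 * ((U : ℝ) + Q ^ 2) * h * SB := by
    rw [← sum_mul, ← mul_sum]
    congr 2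
    have := congrArg (fun n : ℕ => (n : ℝ)) hm
    push_cast at this
    exact_mod_cast this
  rw [e4]
  have h5 := sum_s_bound hw hC1 ks ws k hk a N g hg1 ψ hψ1
  rw [← hQ] at h5
  have h6 : SB ≤ C1 ^ 2 / ((g : ℝ) ^ 2 * Real.sqrt w) *
        (C2 * (1 + Real.log (1 + Q)) * Real.exp (-(w * (g : ℝ) ^ 4 / 2))) := h5
  have h7 : (U : ℝ) ≤ (Y : ℝ) / a ^ 2 / (8 * g) + 2 := by
    rw [hU]
    push_cast
    have : ((Y / q : ℕ) : ℝ) ≤ (Y : ℝ) / q := Nat.cast_div_le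
    have h8 : (Y : ℝ) / q = (Y : ℝ) / a ^ 2 / (8 * g) := by
      rw [hq]
      push_cast
      field_simp
    linarith
  have h8 := exp_bd hw g hg1 ((Y : ℝ) / a ^ 2) (by positivity)
  rw [← hQ] at h8
  have h9 := log_bd hw g hg1
  rw [← hQ] at h9
  set E := Real.exp (-(w * (g : ℝ) ^ 4 / 2)) with hE
  have hE0 : 0 < E := Real.exp_pos _
  have hlog0 : 0 ≤ Real.log (1 + 1 / w) := Real.log_nonneg (by
    have : 0 < 1 / w := by positivity
    linarith)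
  have hw12 : w ^ (-(1 / 2) : ℝ) = 1 / Real.sqrt w := by
    rw [Real.rpow_neg hw.le, ← Real.sqrt_eq_rpow, one_div]
  calc 200 * ((U : ℝ) + Q ^ 2) * h * SB
      ≤ 200 * ((U : ℝ) + Q ^ 2) * h * (C1 ^ 2 / ((g : ℝ) ^ 2 * Real.sqrt w) *
        (C2 * (1 + Real.log (1 + Q)) * E)) :=
        mul_le_mul_of_nonneg_left h6 (by positivity)
    _ = 200 * h * (C1 ^ 2 / ((g : ℝ) ^ 2 * Real.sqrt w) * C2) * ((((U : ℝ) + Q ^ 2) * E) *
        (1 + Real.log (1 + Q))) := by ring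
    _ ≤ 200 * h * (C1 ^ 2 / ((g : ℝ) ^ 2 * Real.sqrt w) * C2) *
        ((9 * ((Y : ℝ) / a ^ 2 + 1 / w) / g * Real.exp (-(w / 4))) *
        (2 * (1 + Real.log (1 + 1 / w)))) := by
        apply mul_le_mul_of_nonneg_left _ (by positivity)
        have b1 : ((U : ℝ) + Q ^ 2) * E ≤
            9 * ((Y : ℝ) / a ^ 2 + 1 / w) / g * Real.exp (-(w / 4)) := by
          refine le_trans ?_ h8
          apply mul_le_mul_of_nonneg_right _ hE0.le
          linarith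
        have b2 : 0 ≤ 1 + Real.log (1 + Q) := by
          have : 0 ≤ Real.log (1 + Q) := Real.log_nonneg (by linarith)
          linarith
        exact mul_le_mul b1 h9 b2 (by positivity)
    _ = 3600 * C1 ^ 2 * C2 * BB1 w a Y h / (g : ℝ) ^ 3 := by
        unfold BB1
        rw [hw12]
        field_simp
        ring

theorem t_LS1 (ls3 : S_LS3) (hwin : S_HW) (ks : S_KS) (ws : S_WS) : S_LS1 := by
  obtain ⟨C1, hC1, ks⟩ := ks
  obtain ⟨C2, hC2, ws⟩ := ws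
  refine ⟨9 * (3600 * C1 ^ 2 * C2), by positivity, ?_⟩
  intro w hw k hk e he c hc _ a ha Y h N
  set x : ℕ → ℕ → ℝ := fun g y =>
    ∑ d ∈ (Ioc y (y + h)).filter (fun d => (a ^ 2 ∣ d ∧ d % 8 = c) ∧ g ∣ d),
      ∑ s ∈ Sa a N, js (e * (d : ℤ)) s * KG k a N g s with hx
  set B := 3600 * C1 ^ 2 * C2 * BB1 w a Y h with hB
  have hB0 : 0 ≤ B := by
    have := BB1_nonneg hw a Y h
    positivity
  have h1 : ∀ g ∈ Icc 1 N, ∑ y ∈ range Y, x g y ^ 2 ≤ B / (g : ℝ) ^ 3 := by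
    intro g hg
    rw [mem_Icc] at hg
    by_cases hgo : Odd g ∧ g.Coprime a
    · exact xg_bound hw hC1 hC2 ls3 hwin ks ws k hk e c hc a ha g hgo.1 hgo.2 Y h N
    · have hz : ∀ s, KG k a N g s = 0 := by
        intro s
        unfold KG
        apply sum_eq_zero
        intro v hv
        exfalso
        simp only [mem_filter] at hv
        apply hgo
        exact ⟨(Nat.odd_mul.1 hv.2.1).1, (Nat.coprime_mul_iff_left.1 hv.2.2.1).1⟩
      have : ∑ y ∈ range Y, x g y ^ 2 = 0 := by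
        apply sum_eq_zero
        intro y _
        simp only [hx, hz, mul_zero, sum_const_zero]
        norm_num
      rw [this]
      have hg' : (0 : ℝ) < g := by exact_mod_cast hg.1
      positivity
  have h2 : ∀ y, ∑ d ∈ (Ioc y (y + h)).filter (fun d => a ^ 2 ∣ d ∧ d % 8 = c), N1 e k N d =
      ∑ g ∈ Icc 1 N, ((ArithmeticFunction.moebius g : ℤ) : ℝ) * x g y := by
    intro y
    have e1 : ∀ d ∈ (Ioc y (y + h)).filter (fun d => a ^ 2 ∣ d ∧ d % 8 = c), N1 e k N d =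
        ∑ g ∈ Icc 1 N, if g ∣ d then ((ArithmeticFunction.moebius g : ℤ) : ℝ) *
          ∑ s ∈ Sa a N, js (e * (d : ℤ)) s * KG k a N g s else 0 := by
      intro d hd
      simp only [mem_filter] at hd
      rw [N1_eq he k N d a ((Dvd.intro_left _ (by ring : a * a = a ^ 2)).trans hd.2.1),
        sum_filter]
    rw [sum_congr rfl e1, sum_comm]
    apply sum_congr rfl
    intro g _
    simp only [hx]
    rw [← sum_filter, mul_sum, filter_filter]
  have h3 : ∀ y ∈ range Y,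
      (∑ d ∈ (Ioc y (y + h)).filter (fun d => a ^ 2 ∣ d ∧ d % 8 = c), N1 e k N d) ^ 2 ≤
      3 * ∑ g ∈ Icc 1 N, (g : ℝ) * Real.sqrt g * x g y ^ 2 := by
    intro y _
    rw [h2 y]
    refine (cs_g N _).trans ?_
    apply mul_le_mul_of_nonneg_left _ (by norm_num)
    apply sum_le_sum
    intro g _
    apply mul_le_mul_of_nonneg_left _ (by positivity)
    rw [mul_pow]
    have hμ : (((ArithmeticFunction.moebius g : ℤ) : ℝ)) ^ 2 ≤ 1 := by
      rw [← sq_abs]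
      have : |((ArithmeticFunction.moebius g : ℤ) : ℝ)| ≤ 1 := by
        exact_mod_cast ArithmeticFunction.abs_moebius_le_one
      nlinarith [abs_nonneg ((ArithmeticFunction.moebius g : ℤ) : ℝ)]
    nlinarith [sq_nonneg (x g y)]
  refine (sum_le_sum h3).trans ?_
  rw [← mul_sum, sum_comm]
  have h4 : ∑ g ∈ Icc 1 N, ∑ y ∈ range Y, (g : ℝ) * Real.sqrt g * x g y ^ 2 ≤
      ∑ g ∈ Icc 1 N, B * (1 / ((g : ℝ) * Real.sqrt g)) := by
    apply sum_le_sum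
    intro g hg
    rw [← mul_sum]
    have hg1 : (0 : ℝ) < g := by
      rw [mem_Icc] at hg
      exact_mod_cast hg.1
    have hs : 0 < Real.sqrt g := Real.sqrt_pos.2 hg1
    have hs2 : Real.sqrt g ^ 2 = g := Real.sq_sqrt hg1.le
    calc (g : ℝ) * Real.sqrt g * ∑ y ∈ range Y, x g y ^ 2
        ≤ (g : ℝ) * Real.sqrt g * (B / (g : ℝ) ^ 3) :=
          mul_le_mul_of_nonneg_left (h1 g hg) (by positivity)
      _ = B * (1 / ((g : ℝ) * Real.sqrt g)) := by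
          field_simp
          nlinarith [hs2]
  have h5 : ∑ g ∈ Icc 1 N, B * (1 / ((g : ℝ) * Real.sqrt g)) ≤ B * 3 := by
    rw [← mul_sum]
    exact mul_le_mul_of_nonneg_left (sum_g' N) hB0
  have h6 : 3 * (B * 3) = 9 * (3600 * C1 ^ 2 * C2) * h * ((Y : ℝ) / a ^ 2 + 1 / w) *
      w ^ (-(1 / 2) : ℝ) * (1 + Real.log (1 + 1 / w)) * Real.exp (-(w / 4)) := by
    rw [hB]
    unfold BB1
    ring
  rw [← h6]
  exact mul_le_mul_of_nonneg_left (h4.trans h5) (by norm_num)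

end

end Pool.Agent.Q122.FM
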