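import Pool.Agent.Q122.FM.Stm

set_option autoImplicit false

/-! Project FM: job NS. -/

namespace Pool.Agent.Q122.FM

open Finset Filter Topology MeasureTheory Pool.Agent.H306R2.RZ Pool.Agent.H306R2.RG

noncomputable section

theorem one_le_log {Y : ℕ} (hY : 3 ≤ Y) : 1 ≤ Real.log Y := by
  have h1 : Real.exp 1 ≤ Y := by
    have h2 : Real.exp 1 < 3 := by
      have := Real.exp_one_lt_d9
      linarith
    have h3 : (3 : ℝ) ≤ Y := by exact_mod_cast hY
    linarith
  have := Real.log_le_log (Real.exp_pos 1) h1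
  rwa [Real.log_exp] at this

theorem harm_le (A : ℕ) : ∑ a ∈ Icc 1 A, (1 : ℝ) / a ≤ 1 + Real.log A := by
  have h := harmonic_le_one_add_log A
  rw [harmonic_eq_sum_Icc] at h
  push_cast at h
  have e : ∑ n ∈ Icc 1 A, (1 / (n:ℝ)) = ∑ n ∈ Icc 1 A, ((n:ℝ))⁻¹ := by simp
  rw [e]; exact h

theorem t_NS (j1 : S_J1) (j2 : S_J2) : S_NS := by
  obtain ⟨C1, hC1, j1⟩ := j1
  obtain ⟨C2, hC2, j2⟩ := j2
  refine ⟨2 * C1 + C2, by positivity, ?_⟩
  intro p hp c hc hco Y h N hY hh hhY
  have hl1 := one_le_log hY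
  set l := Real.log (Y : ℝ) with hl
  have hl0 : 0 < l := by linarith
  have hh' : (1 : ℝ) ≤ h := by exact_mod_cast hh
  have hh0 : (0 : ℝ) < h := by linarith
  set T : ℝ := ((h : ℝ) * l ^ 2) ^ (1 / 3 : ℝ) with hT
  have hhl : 1 ≤ (h : ℝ) * l ^ 2 := by
    have : 1 ≤ l ^ 2 := one_le_pow₀ hl1
    nlinarith
  have hT1 : 1 ≤ T := Real.one_le_rpow hhl (by norm_num)
  set A : ℕ := ⌈T⌉₊ with hA
  have hAT : T ≤ A := Nat.le_ceil T
  have hA1 : 1 ≤ A := by
    have : (1 : ℝ) ≤ A := hT1.trans hAT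
    exact_mod_cast this
  have hA2 : (A : ℝ) ≤ 2 * T := by
    have := Nat.ceil_lt_add_one (show 0 ≤ T by linarith)
    linarith
  set EE : ℕ → ℕ → ℝ := fun y d => EN p N d (1 / (p.r * ((y : ℝ) + 1))) with hEE
  -- decomposition
  have key : ∀ y, |∑ d ∈ (Ioc y (y + h)).filter (fun d => d % 8 = c ∧ Squarefree d), EE y d| ≤
      ∑ a ∈ (Icc 1 A).filter (fun a => Odd a),
        |∑ d ∈ (Ioc y (y + h)).filter (fun d => a ^ 2 ∣ d ∧ d % 8 = c), EE y d| +
      ∑ d ∈ (Ioc y (y + h)).filter (fun d => d % 8 = c), |RA A d| * |EE y d| := by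
    intro y
    have e1 : ∑ d ∈ (Ioc y (y + h)).filter (fun d => d % 8 = c ∧ Squarefree d), EE y d =
        ∑ d ∈ (Ioc y (y + h)).filter (fun d => d % 8 = c),
          ((if Squarefree d then 1 else 0) * EE y d) := by
      rw [← filter_filter, sum_filter (fun d => Squarefree d)]
      apply sum_congr rfl
      intro d _
      split_ifs <;> ring
    have e2 : ∑ d ∈ (Ioc y (y + h)).filter (fun d => d % 8 = c),
          ((if Squarefree d then 1 else 0) * EE y d) =
        ∑ d ∈ (Ioc y (y + h)).filter (fun d => d % 8 = c),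
          (∑ a ∈ (Icc 1 A).filter (fun a => a ^ 2 ∣ d),
            ((ArithmeticFunction.moebius a : ℤ) : ℝ)) * EE y d +
        ∑ d ∈ (Ioc y (y + h)).filter (fun d => d % 8 = c), RA A d * EE y d := by
      rw [← sum_add_distrib]
      apply sum_congr rfl
      intro d _
      unfold RA
      ring
    have e3 : ∑ d ∈ (Ioc y (y + h)).filter (fun d => d % 8 = c),
          (∑ a ∈ (Icc 1 A).filter (fun a => a ^ 2 ∣ d),
            ((ArithmeticFunction.moebius a : ℤ) : ℝ)) * EE y d =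
        ∑ a ∈ Icc 1 A, ((ArithmeticFunction.moebius a : ℤ) : ℝ) *
          ∑ d ∈ (Ioc y (y + h)).filter (fun d => a ^ 2 ∣ d ∧ d % 8 = c), EE y d := by
      have f1 : ∀ d ∈ (Ioc y (y + h)).filter (fun d => d % 8 = c),
          (∑ a ∈ (Icc 1 A).filter (fun a => a ^ 2 ∣ d),
            ((ArithmeticFunction.moebius a : ℤ) : ℝ)) * EE y d =
          ∑ a ∈ Icc 1 A, if a ^ 2 ∣ d then ((ArithmeticFunction.moebius a : ℤ) : ℝ) * EE y d
            else 0 := by
        intro d _
        rw [sum_filter, sum_mul]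
        apply sum_congr rfl
        intro a _
        split_ifs <;> ring
      rw [sum_congr rfl f1, sum_comm]
      apply sum_congr rfl
      intro a _
      rw [← sum_filter, filter_filter, mul_sum]
      apply sum_congr _ (fun _ _ => rfl)
      ext d
      simp only [mem_filter]
      tauto
    rw [e1, e2, e3]
    refine (abs_add_le _ _).trans (add_le_add ?_ ?_)
    · refine (abs_sum_le_sum_abs _ _).trans ?_
      rw [sum_filter]
      apply sum_le_sum
      intro a ha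
      rw [abs_mul]
      have hμ : |((ArithmeticFunction.moebius a : ℤ) : ℝ)| ≤ 1 := by
        exact_mod_cast ArithmeticFunction.abs_moebius_le_one
      split_ifs with hao
      · exact mul_le_of_le_one_left (abs_nonneg _) hμ
      · have : (Ioc y (y + h)).filter (fun d => a ^ 2 ∣ d ∧ d % 8 = c) = ∅ := by
          apply filter_eq_empty_iff.2
          rintro d _ ⟨hd1, hd2⟩
          have h2 : 2 ∣ a := (Nat.not_odd_iff_even.1 hao).two_dvd
          have h3 : 2 ∣ d := (h2.trans (Dvd.intro_left _ (by ring : a * a = a ^ 2))).trans hd1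
          obtain ⟨k, hk⟩ := hco
          omega
        rw [this]
        simp
    · refine (abs_sum_le_sum_abs _ _).trans (le_of_eq ?_)
      apply sum_congr rfl
      intro d _
      rw [abs_mul]
  refine (sum_le_sum fun y _ => key y).trans ?_
  rw [sum_add_distrib, sum_comm]
  have hJ2 := j2 p hp c hc hco A Y h N hA1 hY hh hhY
  have hJ1 : ∑ a ∈ (Icc 1 A).filter (fun a => Odd a), ∑ y ∈ range Y,
      |∑ d ∈ (Ioc y (y + h)).filter (fun d => a ^ 2 ∣ d ∧ d % 8 = c), EE y d| ≤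
      C1 * (Real.sqrt h * Y * Real.sqrt l * (l * (1 + Real.log A) + A)) := by
    calc _ ≤ ∑ a ∈ (Icc 1 A).filter (fun a => Odd a),
          C1 * (Real.sqrt h * Y * Real.sqrt l * (l / a + 1)) := by
          apply sum_le_sum
          intro a ha
          rw [mem_filter] at ha
          exact j1 p hp c hc hco a ha.2 Y h N hY hh
      _ ≤ ∑ a ∈ Icc 1 A, C1 * (Real.sqrt h * Y * Real.sqrt l * (l / a + 1)) := by
          apply Finset.sum_le_sum_of_subset_of_nonneg (filter_subset _ _)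
          intro a _ _
          positivity
      _ = C1 * (Real.sqrt h * Y * Real.sqrt l * (l * ∑ a ∈ Icc 1 A, (1 : ℝ) / a + A)) := by
          have e0 : ∑ a ∈ Icc 1 A, l / (a : ℝ) = l * ∑ a ∈ Icc 1 A, (1 : ℝ) / a := by
            rw [mul_sum]
            apply sum_congr rfl
            intro a _
            ring
          rw [← mul_sum, ← mul_sum, sum_add_distrib, e0]
          simp only [sum_const, Nat.card_Icc, nsmul_eq_mul, mul_one, Nat.add_sub_cancel]
      _ ≤ _ := by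
          apply mul_le_mul_of_nonneg_left _ hC1.le
          apply mul_le_mul_of_nonneg_left _ (by positivity)
          have := mul_le_mul_of_nonneg_left (harm_le A) hl0.le
          linarith
  refine (add_le_add hJ1 hJ2).trans ?_
  -- final estimates
  have hY0 : (0 : ℝ) ≤ Y := by positivity
  have hTpos : 0 < T := by linarith
  have hlogA : 1 + Real.log A ≤ 2 * (1 + Real.log (h * l)) := by
    have hA0 : (0 : ℝ) < A := by exact_mod_cast hA1
    have a1 : Real.log A ≤ Real.log (2 * T) := Real.log_le_log hA0 hA2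
    have a2 : Real.log (2 * T) = Real.log 2 + 1 / 3 * (Real.log h + 2 * Real.log l) := by
      rw [Real.log_mul (by norm_num) hTpos.ne', hT, Real.log_rpow (by positivity),
        Real.log_mul hh0.ne' (by positivity), Real.log_pow]
      push_cast
      ring
    have a3 : Real.log (h * l) = Real.log h + Real.log l := Real.log_mul hh0.ne' hl0.ne'
    have a4 : Real.log 2 ≤ 1 := by
      have := Real.log_le_sub_one_of_pos (show (0 : ℝ) < 2 by norm_num)
      linarith
    have a5 : 0 ≤ Real.log (h : ℝ) := Real.log_nonneg hh'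
    have a6 : 0 ≤ Real.log l := Real.log_nonneg hl1
    rw [a3]
    linarith
  have hsq : Real.sqrt h = (h : ℝ) ^ (1 / 2 : ℝ) := Real.sqrt_eq_rpow _
  have hsl : Real.sqrt l = l ^ (1 / 2 : ℝ) := Real.sqrt_eq_rpow _
  have hlog0 : 0 ≤ Real.log (h * l) := Real.log_nonneg (by nlinarith)
  have b1 : Real.sqrt h * Real.sqrt l * (l * (1 + Real.log A)) ≤
      2 * ((h : ℝ) ^ (1 / 2 : ℝ) * l ^ (3 / 2 : ℝ) * (1 + Real.log (h * l))) := by
    have e : l ^ (3 / 2 : ℝ) = l ^ (1 / 2 : ℝ) * l := by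
      rw [show (3 / 2 : ℝ) = 1 / 2 + 1 by norm_num, Real.rpow_add hl0, Real.rpow_one]
    rw [hsq, hsl, e]
    have : (h : ℝ) ^ (1 / 2 : ℝ) * l ^ (1 / 2 : ℝ) * (l * (1 + Real.log A)) ≤
        (h : ℝ) ^ (1 / 2 : ℝ) * l ^ (1 / 2 : ℝ) * (l * (2 * (1 + Real.log (h * l)))) := by
      apply mul_le_mul_of_nonneg_left _ (by positivity)
      exact mul_le_mul_of_nonneg_left hlogA hl0.le
    linarith
  have eT : T = (h : ℝ) ^ (1 / 3 : ℝ) * l ^ (2 / 3 : ℝ) := by
    rw [hT, Real.mul_rpow hh0.le (by positivity)]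
    congr 1
    rw [← Real.rpow_natCast, ← Real.rpow_mul hl0.le]
    norm_num
  have b2 : Real.sqrt h * Real.sqrt l * A ≤ 2 * ((h : ℝ) ^ (5 / 6 : ℝ) * l ^ (7 / 6 : ℝ)) := by
    calc Real.sqrt h * Real.sqrt l * A ≤ Real.sqrt h * Real.sqrt l * (2 * T) :=
          mul_le_mul_of_nonneg_left hA2 (by positivity)
      _ = 2 * (((h : ℝ) ^ (1 / 2 : ℝ) * (h : ℝ) ^ (1 / 3 : ℝ)) *
          (l ^ (1 / 2 : ℝ) * l ^ (2 / 3 : ℝ))) := by
          rw [hsq, hsl, eT]; ring
      _ = _ := by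
          rw [← Real.rpow_add hh0, ← Real.rpow_add hl0]
          norm_num
  have b3 : (h : ℝ) * l ^ (3 / 2 : ℝ) / Real.sqrt A ≤ (h : ℝ) ^ (5 / 6 : ℝ) * l ^ (7 / 6 : ℝ) := by
    have c1 : Real.sqrt T ≤ Real.sqrt A := Real.sqrt_le_sqrt hAT
    have c2 : Real.sqrt T = (h : ℝ) ^ (1 / 6 : ℝ) * l ^ (1 / 3 : ℝ) := by
      rw [Real.sqrt_eq_rpow, eT, Real.mul_rpow (by positivity) (by positivity),
        ← Real.rpow_mul hh0.le, ← Real.rpow_mul hl0.le]
      norm_num
    have c3 : 0 < Real.sqrt T := Real.sqrt_pos.2 hTpos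
    calc (h : ℝ) * l ^ (3 / 2 : ℝ) / Real.sqrt A ≤ (h : ℝ) * l ^ (3 / 2 : ℝ) / Real.sqrt T :=
          div_le_div_of_nonneg_left (by positivity) c3 c1
      _ = _ := by
          rw [div_eq_iff c3.ne', c2]
          have d1 : (h : ℝ) = (h : ℝ) ^ (5 / 6 : ℝ) * (h : ℝ) ^ (1 / 6 : ℝ) := by
            rw [← Real.rpow_add hh0]; norm_num
          have d2 : l ^ (3 / 2 : ℝ) = l ^ (7 / 6 : ℝ) * l ^ (1 / 3 : ℝ) := by
            rw [← Real.rpow_add hl0]; norm_num
          rw [d2]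
          nth_rewrite 1 [d1]
          ring
  have hEr : Er Y h = (h : ℝ) ^ (1 / 2 : ℝ) * l ^ (3 / 2 : ℝ) * (1 + Real.log (h * l)) +
      (h : ℝ) ^ (5 / 6 : ℝ) * l ^ (7 / 6 : ℝ) := rfl
  set X1 := (h : ℝ) ^ (1 / 2 : ℝ) * l ^ (3 / 2 : ℝ) * (1 + Real.log (h * l)) with hX1
  set X2 := (h : ℝ) ^ (5 / 6 : ℝ) * l ^ (7 / 6 : ℝ) with hX2
  have hX10 : 0 ≤ X1 := by positivity
  have hX20 : 0 ≤ X2 := by positivity
  have f1 : C1 * (Real.sqrt h * Y * Real.sqrt l * (l * (1 + Real.log A) + A)) ≤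
      C1 * Y * (2 * X1 + 2 * X2) := by
    calc C1 * (Real.sqrt h * Y * Real.sqrt l * (l * (1 + Real.log A) + A))
        = C1 * Y * (Real.sqrt h * Real.sqrt l * (l * (1 + Real.log A)) +
            Real.sqrt h * Real.sqrt l * A) := by ring
      _ ≤ _ := mul_le_mul_of_nonneg_left (add_le_add b1 b2) (by positivity)
  have f2 : C2 * (h * Y * l ^ (3 / 2 : ℝ) / Real.sqrt A) ≤ C2 * Y * X2 := by
    calc C2 * (h * Y * l ^ (3 / 2 : ℝ) / Real.sqrt A)
        = C2 * Y * (h * l ^ (3 / 2 : ℝ) / Real.sqrt A) := by ring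
      _ ≤ _ := mul_le_mul_of_nonneg_left b3 (by positivity)
  rw [hEr]
  have g1 : 0 ≤ C2 * Y * X1 := by positivity
  nlinarith

end

end Pool.Agent.Q122.FM
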