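import Pool.Agent.Q122.FM.COR
import Pool.Agent.Q122.FM.LS1c
import Pool.Agent.Q122.FM.NS
import Pool.Agent.Q176.FM.LSD
import Pool.Agent.Q176.FM.BLK
import Pool.Agent.Q275.FM.LS3
import Pool.Agent.Q275.FM.HW
import Pool.Agent.Q275.FM.KS
import Pool.Agent.Q275.FM.WS
import Pool.Agent.Q275.FM.IGF
import Pool.Agent.Q275.FM.KER
import Pool.Agent.Q153.FM.J1
import Pool.Agent.Q275.FM.RA
import Pool.Agent.Q153.FM.J2
import Pool.Agent.Q275.FM.LMI
import Pool.Agent.Q275.FM.SQH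
import Pool.Agent.Q153.FM.Sq
import Pool.Agent.Q153.FM.Rep
import Pool.Agent.Q275.FM.FRZ
import Pool.Agent.Q176.FM.WA1
import Pool.Agent.Q176.FM.WA2
import Pool.Agent.Q275.FM.CONS
import Pool.Agent.Q153.FM.Lim
import Pool.Agent.Q153.FM.Fdd

set_option autoImplicit false

/-! Project FM: all the statements, without hypotheses. -/

namespace Pool.Agent.Q122.FM

theorem ls3 : S_LS3 := Pool.Agent.Q275.FM.t_LS3 (Pool.Agent.Q176.FM.t_BLK Pool.Agent.Q176.FM.t_LSD)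
theorem ks : S_KS := Pool.Agent.Q275.FM.t_KS
theorem ws : S_WS := Pool.Agent.Q275.FM.t_WS
theorem ls1 : S_LS1 := t_LS1 ls3 Pool.Agent.Q275.FM.t_HW ks ws
theorem igf : S_IGF := Pool.Agent.Q275.FM.t_IGF
theorem ker : S_KER := Pool.Agent.Q275.FM.t_KER igf
theorem j1 : S_J1 := Pool.Agent.Q153.FM.t_J1 ls1 ker
theorem ra : S_RA := Pool.Agent.Q275.FM.t_RA
theorem j2 : S_J2 := Pool.Agent.Q153.FM.t_J2 ls1 ker ra
theorem sq : S_SQ := Pool.Agent.Q153.FM.Sq.t_SQ Pool.Agent.Q275.FM.t_SQH Pool.Agent.Q275.FM.t_LMI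
theorem rep : S_REP := Pool.Agent.Q153.FM.t_REP
theorem frz : S_FRZ := Pool.Agent.Q275.FM.t_FRZ igf ker
theorem ns : S_NS := t_NS j1 j2
theorem wa1 : S_WA1 := Pool.Agent.Q176.FM.t_WA1
theorem wa2 : S_WA2 := Pool.Agent.Q176.FM.t_WA2
theorem cls : S_CLS := t_CLS ns sq rep frz wa1 wa2
theorem con : S_CON := Pool.Agent.Q275.FM.t_CON
theorem fdd : S_FDD := Pool.Agent.Q153.FM.Fdd.t_FDD Pool.Agent.Q153.FM.Lim.t_LIM
theorem med : S_MED := t_MED cls con fdd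
theorem fin : S_FIN := t_FIN med fdd

end Pool.Agent.Q122.FM
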