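import Pool.Agent.Q122.FM.CLSb

set_option autoImplicit false

/-! Project FM: job CLS. -/

namespace Pool.Agent.Q122.FM

open Finset Filter Topology MeasureTheory Pool.Agent.H306R2.RZ Pool.Agent.H306R2.RG

noncomputable section

/-- main term in a class -/
def Mn (φ : FD) (y h : ℕ) : ℝ :=
  Po / 8 * h * (S0 φ.η * ((Real.log (φ.r * ((y : ℝ) + 1)) + lam φ.a) / 4 +
        Real.eulerMascheroniConstant + Real.log 2 + Lo) - Real.log 2 / 2 * S1 φ.η)

theorem gm_pos' (φ : FD) : 0 < gm (1 / 2 + φ.a) := by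
  unfold gm
  apply mul_pos (Real.rpow_pos_of_pos Real.pi_pos _)
  apply Real.Gamma_pos_of_pos
  positivity

theorem log_y_bd {Y y r : ℕ} (hY : 3 ≤ Y) (hy : y < Y) (hr : 1 ≤ r) (hr8 : r ≤ 8) :
    |Real.log (r * ((y : ℝ) + 1))| ≤ 4 * Real.log Y := by
  have hl1 := one_le_log hY
  have hr' : (1 : ℝ) ≤ r := by exact_mod_cast hr
  have hr8' : (r : ℝ) ≤ 8 := by exact_mod_cast hr8
  have hy0 : (0 : ℝ) ≤ y := by positivity
  have hyY : (y : ℝ) + 1 ≤ Y := by exact_mod_cast hy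
  have hY0 : (0 : ℝ) < Y := by linarith
  have h1 : 1 ≤ r * ((y : ℝ) + 1) := by nlinarith
  rw [abs_of_nonneg (Real.log_nonneg h1)]
  have h2 : r * ((y : ℝ) + 1) ≤ 8 * Y := by nlinarith
  have h3 : Real.log (r * ((y : ℝ) + 1)) ≤ Real.log (8 * Y) := Real.log_le_log (by linarith) h2
  have h4 : Real.log (8 * (Y : ℝ)) = Real.log 8 + Real.log Y :=
    Real.log_mul (by norm_num) hY0.ne'
  have h5 : Real.log 8 = 3 * Real.log 2 := by
    rw [show (8 : ℝ) = 2 ^ (3 : ℕ) by norm_num, Real.log_pow]; norm_num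
  have h6 := Real.log_two_lt_d9
  linarith

theorem cls2 (wa1 : S_WA1) (wa2 : S_WA2) (φ : FD) (hφ : Fam φ) (c : ℕ)
    (hc : c < 8) (hco : Odd c) :
    ∃ C : ℝ, 0 < C ∧ ∀ Y h : ℕ, 3 ≤ Y → 1 ≤ h → h ≤ Y →
    ∑ y ∈ range Y, |∑ d ∈ (Ioc y (y + h)).filter (fun d => d % 8 = c ∧ Squarefree d),
      MQ (par φ) d (1 / (φ.r * ((y : ℝ) + 1))) - gm (1 / 2 + φ.a) / 2 * Mn φ y h| ≤
    C * Y * Er Y h := by
  obtain ⟨Cw, hCw, wa1⟩ := wa1
  obtain ⟨Cv, hCv, wa2⟩ := wa2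
  obtain ⟨hr1, hr8⟩ := r_ok hφ
  have hg := gm_pos' φ
  set g0 := gm (1 / 2 + φ.a) with hg0
  set K1 : ℝ := |S0 φ.η| * (1 + |lam φ.a| / 4 + |Real.eulerMascheroniConstant| + |Real.log 2|) +
    |Real.log 2 / 2 * S1 φ.η| with hK1
  have hK10 : 0 ≤ K1 := by positivity
  refine ⟨g0 / 2 * (K1 * Cw + |S0 φ.η| * (2 * Cv)) + 1, by positivity, ?_⟩
  intro Y h hY hh hhY
  obtain ⟨er1, er2, er3⟩ := Er_ge hY hh
  have hl1 := one_le_log hY
  have hr' : (1 : ℝ) ≤ φ.r := by exact_mod_cast hr1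
  set wi : ℕ → Finset ℕ := fun y =>
    (Ioc y (y + h)).filter (fun d => d % 8 = c ∧ Squarefree d) with hwi
  set δ1 : ℕ → ℝ := fun y => ∑ d ∈ wi y, (d.totient : ℝ) / d - Po / 8 * h with hδ1
  set δ2 : ℕ → ℝ := fun y => ∑ d ∈ wi y, (d.totient : ℝ) / d * Lam d - Po * Lo / 8 * h with hδ2
  have key : ∀ y ∈ range Y, |∑ d ∈ wi y,
      MQ (par φ) d (1 / (φ.r * ((y : ℝ) + 1))) - g0 / 2 * Mn φ y h| ≤
      g0 / 2 * (K1 * Real.log Y * |δ1 y| + |S0 φ.η| * |δ2 y|) := by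
    intro y hy
    rw [mem_range] at hy
    have hy0 : (0 : ℝ) ≤ y := by positivity
    have hlog := log_y_bd hY hy hr1 hr8
    set Lg := Real.log (φ.r * ((y : ℝ) + 1)) with hLg
    have e0 : Real.log (1 / (1 / (φ.r * ((y : ℝ) + 1)))) = Lg := by
      rw [one_div_one_div]
    set B := (Lg + lam φ.a) / 4 + Real.eulerMascheroniConstant + Real.log 2 with hB
    have e1 : ∑ d ∈ wi y, MQ (par φ) d (1 / (φ.r * ((y : ℝ) + 1))) =
        g0 / 2 * ((S0 φ.η * B - Real.log 2 / 2 * S1 φ.η) * ∑ d ∈ wi y, (d.totient : ℝ) / d +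
          S0 φ.η * ∑ d ∈ wi y, (d.totient : ℝ) / d * Lam d) := by
      rw [mul_sum, mul_sum, ← sum_add_distrib, mul_sum]
      apply sum_congr rfl
      intro d _
      unfold MQ
      rw [e0]
      simp only [par, hB, hg0]
      ring
    have e2 : ∑ d ∈ wi y, MQ (par φ) d (1 / (φ.r * ((y : ℝ) + 1))) - g0 / 2 * Mn φ y h =
        g0 / 2 * ((S0 φ.η * B - Real.log 2 / 2 * S1 φ.η) * δ1 y + S0 φ.η * δ2 y) := by
      rw [e1]
      simp only [hδ1, hδ2, Mn]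
      rw [← hLg, hB]
      ring
    rw [e2, abs_mul, abs_of_nonneg (by positivity : 0 ≤ g0 / 2)]
    apply mul_le_mul_of_nonneg_left _ (by positivity)
    refine (abs_add_le _ _).trans ?_
    rw [abs_mul, abs_mul]
    apply add_le_add _ le_rfl
    apply mul_le_mul_of_nonneg_right _ (abs_nonneg _)
    have b1 : |B| ≤ (1 + |lam φ.a| / 4 + |Real.eulerMascheroniConstant| + |Real.log 2|) *
        Real.log Y := by
      rw [hB]
      have c1 := abs_add_le ((Lg + lam φ.a) / 4 + Real.eulerMascheroniConstant) (Real.log 2)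
      have c2 := abs_add_le ((Lg + lam φ.a) / 4) Real.eulerMascheroniConstant
      have c3 : |(Lg + lam φ.a) / 4| ≤ Real.log Y + |lam φ.a| / 4 := by
        rw [abs_div, abs_of_pos (by norm_num : (0 : ℝ) < 4)]
        have := abs_add_le Lg (lam φ.a)
        linarith
      have c4 : 0 ≤ |lam φ.a| / 4 + |Real.eulerMascheroniConstant| + |Real.log 2| := by positivity
      nlinarith
    calc |S0 φ.η * B - Real.log 2 / 2 * S1 φ.η|
        ≤ |S0 φ.η * B| + |Real.log 2 / 2 * S1 φ.η| := abs_sub _ _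
      _ ≤ |S0 φ.η| * ((1 + |lam φ.a| / 4 + |Real.eulerMascheroniConstant| + |Real.log 2|) *
          Real.log Y) + |Real.log 2 / 2 * S1 φ.η| * Real.log Y := by
          rw [abs_mul (S0 φ.η)]
          apply add_le_add
          · exact mul_le_mul_of_nonneg_left b1 (abs_nonneg _)
          · exact le_mul_of_one_le_right (abs_nonneg _) hl1
      _ = K1 * Real.log Y := by rw [hK1]; ring
  refine (sum_le_sum key).trans ?_
  rw [← mul_sum, sum_add_distrib, ← mul_sum, ← mul_sum]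
  have h1 := wa1 c hc hco Y h hh hhY
  have h2 := wa2 c hc hco Y h hh hhY
  have hlogh : 1 + Real.log h ≤ 2 * Real.log Y := by
    have : Real.log h ≤ Real.log Y :=
      Real.log_le_log (by exact_mod_cast hh) (by exact_mod_cast hhY)
    linarith
  have hsh : 0 ≤ Real.sqrt h := Real.sqrt_nonneg _
  have hY0 : (0 : ℝ) ≤ Y := by positivity
  have a1 : K1 * Real.log Y * ∑ y ∈ range Y, |δ1 y| ≤ K1 * Cw * Y * Er Y h := by
    calc K1 * Real.log Y * ∑ y ∈ range Y, |δ1 y| ≤ K1 * Real.log Y * (Cw * Y * Real.sqrt h) :=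
          mul_le_mul_of_nonneg_left h1 (by positivity)
      _ = K1 * Cw * Y * (Real.sqrt h * Real.log Y) := by ring
      _ ≤ K1 * Cw * Y * Er Y h := mul_le_mul_of_nonneg_left er3 (by positivity)
  have a2 : |S0 φ.η| * ∑ y ∈ range Y, |δ2 y| ≤ |S0 φ.η| * (2 * Cv) * Y * Er Y h := by
    calc |S0 φ.η| * ∑ y ∈ range Y, |δ2 y| ≤
          |S0 φ.η| * (Cv * Y * Real.sqrt h * (1 + Real.log h)) :=
          mul_le_mul_of_nonneg_left h2 (by positivity)
      _ ≤ |S0 φ.η| * (Cv * Y * Real.sqrt h * (2 * Real.log Y)) := by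
          apply mul_le_mul_of_nonneg_left _ (abs_nonneg _)
          apply mul_le_mul_of_nonneg_left hlogh (by positivity)
      _ = |S0 φ.η| * (2 * Cv) * Y * (Real.sqrt h * Real.log Y) := by ring
      _ ≤ |S0 φ.η| * (2 * Cv) * Y * Er Y h := mul_le_mul_of_nonneg_left er3 (by positivity)
  have a3 : 0 ≤ Y * Er Y h := by positivity
  have a4 := mul_le_mul_of_nonneg_left (add_le_add a1 a2) (by positivity : 0 ≤ g0 / 2)
  refine a4.trans ?_
  have : g0 / 2 * (K1 * Cw * Y * Er Y h + |S0 φ.η| * (2 * Cv) * Y * Er Y h) =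
    g0 / 2 * (K1 * Cw + |S0 φ.η| * (2 * Cv)) * Y * Er Y h := by ring
  rw [this]
  nlinarith

theorem L_bd (rep : S_REP) (frz : S_FRZ) (φ : FD) (hφ : Fam φ) :
    ∃ C : ℝ, 0 < C ∧ ∀ d : ℕ, φ.A d → Squarefree d → |LLg φ d (1 / 2)| ≤ C * d := by
  obtain ⟨Cf, hCf, frz⟩ := frz
  have hp := par_ok hφ
  obtain ⟨hr1, hr8⟩ := r_ok hφ
  have hr' : (1 : ℝ) ≤ φ.r := by exact_mod_cast hr1
  have hr8' : (φ.r : ℝ) ≤ 8 := by exact_mod_cast hr8
  have hg := gm_pos' φ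
  set g0 := gm (1 / 2 + φ.a) with hg0
  refine ⟨16 * Cf / g0, by positivity, ?_⟩
  intro d hA hs
  have hd1 : 1 ≤ d := Nat.pos_of_ne_zero hs.ne_zero
  have hd' : (1 : ℝ) ≤ d := by exact_mod_cast hd1
  have hx : (1 : ℝ) ≤ φ.r * (d : ℝ) := by nlinarith
  have h1 := (rep φ hφ d hA hs).abs
  have h2 : ∀ N, |EN (par φ) N d (1 / (φ.r * (d : ℝ))) + ES (par φ) N d (1 / (φ.r * (d : ℝ)))| ≤
      Cf * (8 * d) := by
    intro N
    have hz1 : 1 / (φ.r * (d : ℝ)) ≤ 1 := by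
      rw [div_le_one (by linarith)]; exact hx
    have h3 := (frz (par φ) hp N d (1 / (φ.r * (d : ℝ))) (1 / (φ.r * (d : ℝ)))
      (by positivity) le_rfl hz1).2
    refine h3.trans ?_
    apply mul_le_mul_of_nonneg_left _ hCf.le
    rw [z_pow (by linarith)]
    calc (φ.r * (d : ℝ)) ^ (1 / 4 : ℝ) ≤ (φ.r * (d : ℝ)) ^ (1 : ℝ) :=
          Real.rpow_le_rpow_of_exponent_le hx (by norm_num)
      _ = φ.r * (d : ℝ) := Real.rpow_one _
      _ ≤ 8 * d := by nlinarith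
  have h4 := le_of_tendsto' h1 h2
  rw [abs_mul, abs_of_nonneg (by positivity : 0 ≤ g0 / 2)] at h4
  rw [div_mul_eq_mul_div, le_div_iff₀ hg]
  nlinarith

theorem t_CLS (ns : S_NS) (sq : S_SQ) (rep : S_REP) (frz : S_FRZ) (wa1 : S_WA1)
    (wa2 : S_WA2) : S_CLS := by
  intro φ hφ c hc hco hcomp
  obtain ⟨K1, hK1, k1⟩ := cls1 ns sq rep frz φ hφ c hc hco hcomp
  obtain ⟨K2, hK2, k2⟩ := cls2 wa1 wa2 φ hφ c hc hco
  obtain ⟨K3, hK3, k3⟩ := L_bd rep frz φ hφ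
  obtain ⟨hr1, hr8⟩ := r_ok hφ
  have hg := gm_pos' φ
  set g0 := gm (1 / 2 + φ.a) with hg0
  set L1 := |LLg φ 1 (1 / 2)| with hL1
  set K4 : ℝ := |Po / 8 * (S0 φ.η * ((Real.log φ.r + lam φ.a) / 4 +
        Real.eulerMascheroniConstant + Real.log 2 + Lo) - Real.log 2 / 2 * S1 φ.η)| with hK4
  refine ⟨2 / g0 * (K1 + K2) + (L1 + 4 * K3 + 2 * K4), by positivity, ?_⟩
  intro Y h hY hh hhY
  obtain ⟨er1, er2, er3⟩ := Er_ge hY hh
  have hhY' : h ≤ Y := by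
    by_contra hlt
    have h1 : Y ^ 4 < h ^ 4 := Nat.pow_lt_pow_left (by omega) (by norm_num)
    have h2 : 27 * Y ≤ Y ^ 4 := by
      calc 27 * Y = 3 ^ 3 * Y := by ring
        _ ≤ Y ^ 3 * Y := Nat.mul_le_mul_right _ (Nat.pow_le_pow_left hY 3)
        _ = Y ^ 4 := by ring
    omega
  have hYr : (3 : ℝ) ≤ Y := by exact_mod_cast hY
  have hhr : (1 : ℝ) ≤ h := by exact_mod_cast hh
  set wi : ℕ → Finset ℕ := fun y =>
    (Ioc y (y + h)).filter (fun d => d % 8 = c ∧ Squarefree d) with hwi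
  have hEr0 : 0 ≤ Er Y h := by linarith
  -- the part y ≥ 1
  have p1 : ∑ y ∈ Ico 1 Y, |∑ d ∈ wi y, LLg φ d (1 / 2) - Mn φ y h| ≤
      2 / g0 * (K1 + K2) * Y * Er Y h := by
    have e1 : ∀ y ∈ Ico 1 Y, |∑ d ∈ wi y, LLg φ d (1 / 2) - Mn φ y h| ≤
        2 / g0 * (|∑ d ∈ wi y, (g0 / 2 * LLg φ d (1 / 2) -
          MQ (par φ) d (1 / (φ.r * ((y : ℝ) + 1))))| +
          |∑ d ∈ wi y, MQ (par φ) d (1 / (φ.r * ((y : ℝ) + 1))) - g0 / 2 * Mn φ y h|) := by
      intro y _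
      have e2 : ∑ d ∈ wi y, LLg φ d (1 / 2) - Mn φ y h =
          2 / g0 * (∑ d ∈ wi y, (g0 / 2 * LLg φ d (1 / 2) -
          MQ (par φ) d (1 / (φ.r * ((y : ℝ) + 1)))) +
          (∑ d ∈ wi y, MQ (par φ) d (1 / (φ.r * ((y : ℝ) + 1))) - g0 / 2 * Mn φ y h)) := by
        rw [sum_sub_distrib, ← mul_sum]
        field_simp
        ring
      rw [e2, abs_mul, abs_of_nonneg (by positivity : 0 ≤ 2 / g0)]
      exact mul_le_mul_of_nonneg_left (abs_add_le _ _) (by positivity)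
    refine (sum_le_sum e1).trans ?_
    rw [← mul_sum, sum_add_distrib]
    have a1 := k1 Y h hY hh hhY
    have a2 := k2 Y h hY hh hhY'
    have a3 : ∑ y ∈ Ico 1 Y, |∑ d ∈ wi y, MQ (par φ) d (1 / (φ.r * ((y : ℝ) + 1))) -
        g0 / 2 * Mn φ y h| ≤ K2 * Y * Er Y h := by
      refine le_trans ?_ a2
      apply Finset.sum_le_sum_of_subset_of_nonneg
      · intro y hy
        simp only [mem_Ico, mem_range] at hy ⊢
        exact hy.2
      · intro y _ _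
        exact abs_nonneg _
    have a4 := mul_le_mul_of_nonneg_left (add_le_add a1 a3) (by positivity : 0 ≤ 2 / g0)
    refine a4.trans (le_of_eq ?_)
    ring
  -- the term y = 0
  have hq := h_le hhY
  have hh2 : (h : ℝ) ^ 2 ≤ 4 * Y := by
    have h0 : (0 : ℝ) ≤ (Y : ℝ) ^ (1 / 4 : ℝ) := by positivity
    have h1 : (h : ℝ) ^ 2 ≤ (2 * (Y : ℝ) ^ (1 / 4 : ℝ)) ^ 2 := pow_le_pow_left₀ (by linarith) hq 2
    have h2 : ((Y : ℝ) ^ (1 / 4 : ℝ)) ^ 2 ≤ Y := by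
      rw [← Real.rpow_natCast, ← Real.rpow_mul (by positivity)]
      calc (Y : ℝ) ^ ((1 / 4 : ℝ) * ((2 : ℕ) : ℝ)) ≤ (Y : ℝ) ^ (1 : ℝ) :=
            Real.rpow_le_rpow_of_exponent_le (by linarith) (by norm_num)
        _ = Y := Real.rpow_one _
    rw [mul_pow] at h1
    linarith
  have p2 : |∑ d ∈ wi 0, LLg φ d (1 / 2) - Mn φ 0 h| ≤ (L1 + 4 * K3 + 2 * K4) * Y := by
    have e1 : |∑ d ∈ wi 0, LLg φ d (1 / 2)| ≤ L1 + K3 * h ^ 2 := by
      refine (abs_sum_le_sum_abs _ _).trans ?_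
      have f1 : ∀ d ∈ wi 0, |LLg φ d (1 / 2)| ≤ (if d = 1 then L1 else 0) + K3 * h := by
        intro d hd
        simp only [hwi, mem_filter, mem_Ioc] at hd
        by_cases hd1 : d = 1
        · subst hd1
          rw [if_pos rfl]
          have : 0 ≤ K3 * h := by positivity
          linarith
        · rw [if_neg hd1, zero_add]
          refine (k3 d (hcomp d hd.2.1 hd.2.2 hd1) hd.2.2).trans ?_
          apply mul_le_mul_of_nonneg_left _ hK3.le
          have : d ≤ h := by omega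
          exact_mod_cast this
      refine (sum_le_sum f1).trans ?_
      rw [sum_add_distrib, sum_const, nsmul_eq_mul]
      have f2 : ∑ d ∈ wi 0, (if d = 1 then L1 else 0) ≤ L1 := by
        rw [sum_ite_eq']
        split_ifs
        · exact le_rfl
        · exact abs_nonneg _
      have f3 : ((wi 0).card : ℝ) ≤ h := by
        have : (wi 0).card ≤ h := by
          refine (card_filter_le _ _).trans ?_
          rw [Nat.card_Ioc]; omega
        exact_mod_cast this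
      have f4 : ((wi 0).card : ℝ) * (K3 * h) ≤ h * (K3 * h) :=
        mul_le_mul_of_nonneg_right f3 (by positivity)
      have f5 : (h : ℝ) * (K3 * h) = K3 * h ^ 2 := by ring
      linarith
    have e2 : |Mn φ 0 h| ≤ K4 * h := by
      have : Mn φ 0 h = h * (Po / 8 * (S0 φ.η * ((Real.log φ.r + lam φ.a) / 4 +
        Real.eulerMascheroniConstant + Real.log 2 + Lo) - Real.log 2 / 2 * S1 φ.η)) := by
        unfold Mn
        have : (φ.r : ℝ) * (((0 : ℕ) : ℝ) + 1) = φ.r := by push_cast; ring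
        rw [this]
        ring
      rw [this, abs_mul, abs_of_nonneg (by positivity : (0 : ℝ) ≤ h), ← hK4, mul_comm]
    have e3 : (h : ℝ) ≤ 2 * Y := by
      have : (h : ℝ) ≤ Y := by exact_mod_cast hhY'
      linarith
    have hL10 : 0 ≤ L1 := abs_nonneg _
    have hK40 : 0 ≤ K4 := abs_nonneg _
    calc |∑ d ∈ wi 0, LLg φ d (1 / 2) - Mn φ 0 h|
        ≤ |∑ d ∈ wi 0, LLg φ d (1 / 2)| + |Mn φ 0 h| := abs_sub _ _
      _ ≤ (L1 + K3 * h ^ 2) + K4 * h := add_le_add e1 e2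
      _ ≤ (L1 + K3 * (4 * Y)) + K4 * (2 * Y) := by
          have g1 := mul_le_mul_of_nonneg_left hh2 hK3.le
          have g2 := mul_le_mul_of_nonneg_left e3 hK40
          linarith
      _ ≤ (L1 + 4 * K3 + 2 * K4) * Y := by nlinarith
  have hsplit : ∑ y ∈ range Y, |∑ d ∈ wi y, LLg φ d (1 / 2) - Mn φ y h| =
      |∑ d ∈ wi 0, LLg φ d (1 / 2) - Mn φ 0 h| +
      ∑ y ∈ Ico 1 Y, |∑ d ∈ wi y, LLg φ d (1 / 2) - Mn φ y h| := by
    rw [Finset.range_eq_Ico, Finset.sum_eq_sum_Ico_succ_bot (by omega)]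
  change ∑ y ∈ range Y, |∑ d ∈ wi y, LLg φ d (1 / 2) - Mn φ y h| ≤ _
  rw [hsplit]
  have p3 : (L1 + 4 * K3 + 2 * K4) * Y ≤ (L1 + 4 * K3 + 2 * K4) * Y * Er Y h := by
    apply le_mul_of_one_le_right _ er1
    positivity
  calc _ ≤ (L1 + 4 * K3 + 2 * K4) * Y * Er Y h + 2 / g0 * (K1 + K2) * Y * Er Y h := by linarith
    _ = _ := by ring

end

end Pool.Agent.Q122.FM
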