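import Pool.Agent.Q122.FM.Dec2

set_option autoImplicit false

/-! Project FM: job LS1. -/

namespace Pool.Agent.Q122.FM

open Finset Filter Topology MeasureTheory Pool.Agent.H306R2.RZ Pool.Agent.H306R2.RG

noncomputable section

theorem sum_g (n : ℕ) (hn : 1 ≤ n) :
    ∑ g ∈ Icc 1 n, 1 / ((g : ℝ) * Real.sqrt g) ≤ 3 - 2 / Real.sqrt n := by
  induction n, hn using Nat.le_induction with
  | base => simp; norm_num
  | succ n hn ih =>
    rw [Finset.sum_Icc_succ_top (by omega)]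
    have ha : 0 < Real.sqrt n := Real.sqrt_pos.2 (by exact_mod_cast hn)
    have hb : 0 < Real.sqrt ((n + 1 : ℕ) : ℝ) := Real.sqrt_pos.2 (by positivity)
    have ha2 : Real.sqrt n ^ 2 = n := Real.sq_sqrt (by positivity)
    have hb2 : Real.sqrt ((n + 1 : ℕ) : ℝ) ^ 2 = n + 1 := by
      rw [Real.sq_sqrt (by positivity)]; push_cast; ring
    set A := Real.sqrt n
    set B := Real.sqrt ((n + 1 : ℕ) : ℝ)
    have hAB : A ≤ B := by
      apply Real.sqrt_le_sqrt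
      push_cast; linarith
    have h1 : (((n + 1 : ℕ) : ℝ)) = B ^ 2 := by rw [hb2]; push_cast; ring
    have h2 : 1 / ((((n + 1 : ℕ) : ℝ)) * B) ≤ 2 / A - 2 / B := by
      rw [h1, div_sub_div _ _ ha.ne' hb.ne', div_le_div_iff₀ (by positivity) (by positivity)]
      have h3 : (B - A) * (B + A) = 1 := by
        have : (B - A) * (B + A) = B ^ 2 - A ^ 2 := by ring
        rw [this, hb2, ha2]; ring
      have h4 : 0 ≤ B - A := by linarith
      have h5 : A * (A + B) ≤ 2 * B ^ 2 := by nlinarith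
      have h6 : A = A * ((B - A) * (B + A)) := by rw [h3, mul_one]
      nlinarith [mul_nonneg h4 hb.le, mul_le_mul_of_nonneg_left h5 (mul_nonneg h4 hb.le)]
    linarith

theorem sum_g' (n : ℕ) : ∑ g ∈ Icc 1 n, 1 / ((g : ℝ) * Real.sqrt g) ≤ 3 := by
  rcases Nat.eq_zero_or_pos n with rfl | hn
  · simp
  · have h1 := sum_g n hn
    have h2 : 0 ≤ 2 / Real.sqrt n := by positivity
    linarith

/-- Cauchy-Schwarz with the weights `g√g` -/
theorem cs_g (N : ℕ) (x : ℕ → ℝ) :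
    (∑ g ∈ Icc 1 N, x g) ^ 2 ≤ 3 * ∑ g ∈ Icc 1 N, (g : ℝ) * Real.sqrt g * x g ^ 2 := by
  have h1 : (∑ g ∈ Icc 1 N, x g) ^ 2 ≤
      (∑ g ∈ Icc 1 N, 1 / ((g : ℝ) * Real.sqrt g)) *
        ∑ g ∈ Icc 1 N, (g : ℝ) * Real.sqrt g * x g ^ 2 := by
    apply Finset.sum_sq_le_sum_mul_sum_of_sq_le_mul
    · intro g _; positivity
    · intro g _; positivity
    · intro g hg
      rw [mem_Icc] at hg
      have h2 : (0 : ℝ) < g := by exact_mod_cast hg.1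
      have h3 : 0 < Real.sqrt g := Real.sqrt_pos.2 h2
      apply le_of_eq
      field_simp
  refine h1.trans (mul_le_mul_of_nonneg_right (sum_g' N) (sum_nonneg fun g _ => by positivity))

theorem KG_bound {C1 w : ℝ} (hw : 0 < w)
    (ks : ∀ (z : ℝ) (V : ℕ), 0 < z →
      ∑ v ∈ Icc 1 V, kap (z * (v : ℝ) ^ 4) ≤ C1 * z ^ (-(1 / 4) : ℝ) * Real.exp (-(z / 2)))
    (k : ℕ → ℝ) (hk : ∀ n : ℕ, 1 ≤ n → |k n| ≤ kap ((n : ℝ) ^ 2 * w)) (a N g s : ℕ)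
    (hg : 1 ≤ g) (hs : 1 ≤ s) :
    |KG k a N g s| ≤ C1 * ((s : ℝ) ^ 2 * (g : ℝ) ^ 4 * w) ^ (-(1 / 4) : ℝ) *
      Real.exp (-(((s : ℝ) ^ 2 * (g : ℝ) ^ 4 * w) / 2)) := by
  have hs' : (0 : ℝ) < s := by exact_mod_cast hs
  have hg' : (0 : ℝ) < g := by exact_mod_cast hg
  refine le_trans ?_ (ks ((s : ℝ) ^ 2 * (g : ℝ) ^ 4 * w) N (by positivity))
  unfold KG
  refine (abs_sum_le_sum_abs _ _).trans ?_
  have hnn : ∀ v ∈ Icc 1 N, 0 ≤ kap ((s : ℝ) ^ 2 * (g : ℝ) ^ 4 * w * (v : ℝ) ^ 4) := by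
    intro v _
    unfold kap
    positivity
  have hsub : (Icc 1 N).filter (fun v => Odd (g * v) ∧ (g * v).Coprime a ∧
      s * (g * v) ^ 2 ≤ N) ⊆ Icc 1 N := filter_subset _ _
  refine le_trans ?_ (Finset.sum_le_sum_of_subset_of_nonneg hsub
    (fun v hv _ => hnn v hv))
  apply sum_le_sum
  intro v hv
  simp only [mem_filter, mem_Icc] at hv
  have h1 : 1 ≤ s * (g * v) ^ 2 := Nat.mul_pos hs (pow_pos (Nat.mul_pos hg hv.1.1) 2)
  refine (hk _ h1).trans (le_of_eq ?_)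
  congr 1
  push_cast
  ring

/-- the sum over `s` in the large sieve -/
theorem sum_s_bound {C1 C2 w : ℝ} (hw : 0 < w) (hC1 : 0 < C1)
    (ks : ∀ (z : ℝ) (V : ℕ), 0 < z →
      ∑ v ∈ Icc 1 V, kap (z * (v : ℝ) ^ 4) ≤ C1 * z ^ (-(1 / 4) : ℝ) * Real.exp (-(z / 2)))
    (ws : ∀ (Q : ℝ) (M : ℕ), 0 < Q →
      ∑ s ∈ Icc 1 M, 1 / (s : ℝ) * (max 1 ((s : ℝ) / Q)) ^ 3 * Real.exp (-((s : ℝ) / Q) ^ 2) ≤
        C2 * (1 + Real.log (1 + Q)) * Real.exp (-(1 / (2 * Q ^ 2))))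
    (k : ℕ → ℝ) (hk : ∀ n : ℕ, 1 ≤ n → |k n| ≤ kap ((n : ℝ) ^ 2 * w)) (a N g : ℕ)
    (hg : 1 ≤ g) (ψ : ℕ → ℝ) (hψ : ∀ s, |ψ s| ≤ 1) :
    ∑ s ∈ Sa a N, (max 1 ((s : ℝ) / (1 / (Real.sqrt w * (g : ℝ) ^ 2)))) ^ 3 *
        (ψ s * KG k a N g s) ^ 2 ≤
      C1 ^ 2 / ((g : ℝ) ^ 2 * Real.sqrt w) *
        (C2 * (1 + Real.log (1 + 1 / (Real.sqrt w * (g : ℝ) ^ 2))) *
          Real.exp (-(w * (g : ℝ) ^ 4 / 2))) := by
  have hg' : (0 : ℝ) < g := by exact_mod_cast hg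
  have hsw : 0 < Real.sqrt w := Real.sqrt_pos.2 hw
  have hsw2 : Real.sqrt w ^ 2 = w := Real.sq_sqrt hw.le
  set Q : ℝ := 1 / (Real.sqrt w * (g : ℝ) ^ 2) with hQ
  have hQ0 : 0 < Q := by positivity
  have hQ2 : 1 / (2 * Q ^ 2) = w * (g : ℝ) ^ 4 / 2 := by
    rw [hQ]
    field_simp
    rw [hsw2]
  have h1 := ws Q N hQ0
  rw [hQ2] at h1
  have h2 : ∑ s ∈ Sa a N, (max 1 ((s : ℝ) / Q)) ^ 3 * (ψ s * KG k a N g s) ^ 2 ≤
      ∑ s ∈ Icc 1 N, C1 ^ 2 / ((g : ℝ) ^ 2 * Real.sqrt w) *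
        (1 / (s : ℝ) * (max 1 ((s : ℝ) / Q)) ^ 3 * Real.exp (-((s : ℝ) / Q) ^ 2)) := by
    have hsub : Sa a N ⊆ Icc 1 N := by
      intro s hs
      simp only [Sa, SS, mem_filter] at hs
      exact hs.1.1
    refine le_trans ?_ (Finset.sum_le_sum_of_subset_of_nonneg hsub
      (fun s hs _ => by
        rw [mem_Icc] at hs
        have hs' : (0 : ℝ) < s := by exact_mod_cast hs.1
        positivity))
    apply sum_le_sum
    intro s hs
    have hs1 : 1 ≤ s := (mem_Icc.1 (hsub hs)).1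
    have hs' : (0 : ℝ) < s := by exact_mod_cast hs1
    have h3 := KG_bound hw ks k hk a N g s hg hs1
    set z : ℝ := (s : ℝ) ^ 2 * (g : ℝ) ^ 4 * w with hz
    have hz0 : 0 < z := by positivity
    have h4 : (ψ s * KG k a N g s) ^ 2 ≤
        (C1 * z ^ (-(1 / 4) : ℝ) * Real.exp (-(z / 2))) ^ 2 := by
      rw [← sq_abs (ψ s * KG k a N g s), abs_mul]
      refine pow_le_pow_left₀ (by positivity) ?_ 2
      calc |ψ s| * |KG k a N g s| ≤ 1 * |KG k a N g s| :=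
            mul_le_mul_of_nonneg_right (hψ s) (abs_nonneg _)
        _ = |KG k a N g s| := one_mul _
        _ ≤ _ := h3
    have h5 : (C1 * z ^ (-(1 / 4) : ℝ) * Real.exp (-(z / 2))) ^ 2 =
        C1 ^ 2 / ((g : ℝ) ^ 2 * Real.sqrt w) * (1 / (s : ℝ) * Real.exp (-((s : ℝ) / Q) ^ 2)) := by
      have e1 : (z ^ (-(1 / 4) : ℝ)) ^ 2 = 1 / ((s : ℝ) * (g : ℝ) ^ 2 * Real.sqrt w) := by
        rw [← Real.rpow_natCast, ← Real.rpow_mul hz0.le]
        have : (-(1 / 4) : ℝ) * ((2 : ℕ) : ℝ) = -(1 / 2) := by norm_num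
        rw [this, Real.rpow_neg hz0.le, ← Real.sqrt_eq_rpow, one_div]
        congr 1
        rw [hz, Real.sqrt_mul (by positivity), Real.sqrt_mul (by positivity),
          Real.sqrt_sq hs'.le]
        congr 2
        rw [show (g : ℝ) ^ 4 = ((g : ℝ) ^ 2) ^ 2 by ring, Real.sqrt_sq (by positivity)]
      have e2 : Real.exp (-(z / 2)) ^ 2 = Real.exp (-((s : ℝ) / Q) ^ 2) := by
        rw [← Real.exp_nat_mul]
        congr 1
        rw [hQ, hz]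
        field_simp
        rw [hsw2]
        push_cast
        ring
      rw [mul_pow, mul_pow, e1, e2]
      field_simp
    have h6 : 0 ≤ (max 1 ((s : ℝ) / Q)) ^ 3 := by positivity
    calc (max 1 ((s : ℝ) / Q)) ^ 3 * (ψ s * KG k a N g s) ^ 2
        ≤ (max 1 ((s : ℝ) / Q)) ^ 3 * (C1 * z ^ (-(1 / 4) : ℝ) * Real.exp (-(z / 2))) ^ 2 :=
          mul_le_mul_of_nonneg_left h4 h6
      _ = _ := by rw [h5]; ring
  refine h2.trans ?_
  rw [← mul_sum]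
  exact mul_le_mul_of_nonneg_left h1 (by positivity)

end

end Pool.Agent.Q122.FM
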