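import Pool.Agent.Q122.FM.NS
import Pool.Agent.Q122.FM.LS1

set_option autoImplicit false

/-! Project FM: preparations for the job CLS. -/

namespace Pool.Agent.Q122.FM

open Finset Filter Topology MeasureTheory Pool.Agent.H306R2.RZ Pool.Agent.H306R2.RG

noncomputable section

theorem par_ok {φ : FD} (hφ : Fam φ) : (par φ).ok := by
  obtain ⟨ε, hε, h⟩ := hφ
  rcases hε with rfl | rfl <;> rcases h with rfl | rfl | rfl | rfl <;>
    simp [Par.ok, par, F8, F4, F1]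

theorem Er_ge {Y h : ℕ} (hY : 3 ≤ Y) (hh : 1 ≤ h) :
    1 ≤ Er Y h ∧ (h : ℝ) ^ (5 / 6 : ℝ) ≤ Er Y h ∧ Real.sqrt h * Real.log Y ≤ Er Y h := by
  have hl1 := one_le_log hY
  have hh' : (1 : ℝ) ≤ h := by exact_mod_cast hh
  set l := Real.log (Y : ℝ) with hl
  have hlog0 : 0 ≤ Real.log (h * l) := Real.log_nonneg (by nlinarith)
  have e1 : 0 ≤ (h : ℝ) ^ (1 / 2 : ℝ) * l ^ (3 / 2 : ℝ) * (1 + Real.log (h * l)) := by positivity
  have e2 : (1 : ℝ) ≤ l ^ (7 / 6 : ℝ) := Real.one_le_rpow hl1 (by norm_num)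
  have e3 : (1 : ℝ) ≤ (h : ℝ) ^ (5 / 6 : ℝ) := Real.one_le_rpow hh' (by norm_num)
  have hEr : Er Y h = (h : ℝ) ^ (1 / 2 : ℝ) * l ^ (3 / 2 : ℝ) * (1 + Real.log (h * l)) +
      (h : ℝ) ^ (5 / 6 : ℝ) * l ^ (7 / 6 : ℝ) := rfl
  have e4 : (h : ℝ) ^ (5 / 6 : ℝ) ≤ (h : ℝ) ^ (5 / 6 : ℝ) * l ^ (7 / 6 : ℝ) := by
    nlinarith
  have e5 : Real.sqrt h * l ≤ (h : ℝ) ^ (5 / 6 : ℝ) * l ^ (7 / 6 : ℝ) := by
    apply mul_le_mul
    · rw [Real.sqrt_eq_rpow]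
      exact Real.rpow_le_rpow_of_exponent_le hh' (by norm_num)
    · calc l = l ^ (1 : ℝ) := (Real.rpow_one l).symm
        _ ≤ l ^ (7 / 6 : ℝ) := Real.rpow_le_rpow_of_exponent_le hl1 (by norm_num)
    · linarith
    · positivity
  rw [hEr]
  refine ⟨by linarith, by linarith, by linarith⟩

/-- `σ(d) = ∑_{g | d} 1/√g` -/
def sg (d : ℕ) : ℝ := ∑ g ∈ d.divisors, 1 / Real.sqrt g

theorem sg_nonneg (d : ℕ) : 0 ≤ sg d := sum_nonneg fun g _ => by positivity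

theorem sum_sg (D : ℕ) : ∑ d ∈ Icc 1 D, sg d ≤ 3 * D := by
  have e1 : ∀ d ∈ Icc 1 D, sg d = ∑ g ∈ Icc 1 D, if g ∣ d then 1 / Real.sqrt g else 0 := by
    intro d hd
    rw [mem_Icc] at hd
    rw [← sum_filter]
    unfold sg
    apply sum_congr _ (fun _ _ => rfl)
    ext g
    simp only [Nat.mem_divisors, mem_filter, mem_Icc]
    constructor
    · rintro ⟨h1, h2⟩
      exact ⟨⟨Nat.pos_of_dvd_of_pos h1 (by omega), (Nat.le_of_dvd (by omega) h1).trans hd.2⟩, h1⟩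
    · rintro ⟨_, h1⟩
      exact ⟨h1, by omega⟩
  rw [sum_congr rfl e1, sum_comm]
  have e2 : ∀ g ∈ Icc 1 D, ∑ d ∈ Icc 1 D, (if g ∣ d then 1 / Real.sqrt g else 0) ≤
      D * (1 / ((g : ℝ) * Real.sqrt g)) := by
    intro g hg
    rw [mem_Icc] at hg
    have hg0 : (0 : ℝ) < g := by exact_mod_cast hg.1
    rw [← sum_filter, sum_const, nsmul_eq_mul]
    have hcard : ((Icc 1 D).filter (fun d => g ∣ d)).card = D / g := by
      have := Nat.Ioc_filter_dvd_card_eq_div D g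
      rw [← this]
      congr 1
    rw [hcard]
    have h1 : ((D / g : ℕ) : ℝ) ≤ (D : ℝ) / g := Nat.cast_div_le
    calc ((D / g : ℕ) : ℝ) * (1 / Real.sqrt g) ≤ (D : ℝ) / g * (1 / Real.sqrt g) :=
          mul_le_mul_of_nonneg_right h1 (by positivity)
      _ = D * (1 / ((g : ℝ) * Real.sqrt g)) := by field_simp
  refine (sum_le_sum e2).trans ?_
  rw [← mul_sum]
  have := mul_le_mul_of_nonneg_left (sum_g' D) (Nat.cast_nonneg (α := ℝ) D)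
  linarith

/-- windows: every `d` lies in at most `h` windows -/
theorem win_sum (f : ℕ → ℝ) (hf : ∀ d, 0 ≤ f d) (Y h : ℕ) :
    ∑ y ∈ range Y, ∑ d ∈ Ioc y (y + h), f d ≤ h * ∑ d ∈ Icc 1 (Y + h), f d := by
  have e1 : ∀ y ∈ range Y, ∑ d ∈ Ioc y (y + h), f d =
      ∑ d ∈ Icc 1 (Y + h), if y < d ∧ d ≤ y + h then f d else 0 := by
    intro y hy
    rw [mem_range] at hy
    rw [← sum_filter]
    apply sum_congr _ (fun _ _ => rfl)
    ext d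
    simp only [mem_Ioc, mem_filter, mem_Icc]
    omega
  rw [sum_congr rfl e1, sum_comm, mul_sum]
  apply sum_le_sum
  intro d _
  rw [← sum_filter, sum_const, nsmul_eq_mul]
  apply mul_le_mul_of_nonneg_right _ (hf d)
  have : ((range Y).filter (fun y => y < d ∧ d ≤ y + h)).card ≤ h := by
    calc _ ≤ (Ico (d - h) d).card := by
          apply card_le_card
          intro y hy
          simp only [mem_filter, mem_range, mem_Ico] at hy ⊢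
          omega
      _ ≤ h := by rw [Nat.card_Ico]; omega
  exact_mod_cast this

theorem sum_pow34 (Y : ℕ) : ∑ y ∈ range Y, ((y : ℝ) + 1) ^ (-(3 / 4) : ℝ) ≤
    4 * (Y : ℝ) ^ (1 / 4 : ℝ) := by
  induction Y with
  | zero => simp
  | succ n ih =>
    rw [sum_range_succ]
    have hx : (0 : ℝ) < (n : ℝ) + 1 := by positivity
    -- (n+1)^(-3/4) ≤ 4 ((n+1)^(1/4) - n^(1/4))
    have h1 : (n : ℝ) ^ (1 / 4 : ℝ) ≤ ((n : ℝ) + 1) ^ (1 / 4 : ℝ) -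
        1 / 4 * ((n : ℝ) + 1) ^ (-(3 / 4) : ℝ) := by
      have h2 : (n : ℝ) = ((n : ℝ) + 1) * (1 + (-(1 / ((n : ℝ) + 1)))) := by
        field_simp
        ring
      have h3 : (1 + (-(1 / ((n : ℝ) + 1)))) ^ (1 / 4 : ℝ) ≤ 1 + 1 / 4 * (-(1 / ((n : ℝ) + 1))) := by
        apply rpow_one_add_le_one_add_mul_self _ (by norm_num) (by norm_num)
        have : 1 / ((n : ℝ) + 1) ≤ 1 := by
          rw [div_le_one hx]
          have : (0 : ℝ) ≤ n := by positivity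
          linarith
        linarith
      have h4 : 0 ≤ 1 + (-(1 / ((n : ℝ) + 1))) := by
        have : 1 / ((n : ℝ) + 1) ≤ 1 := by
          rw [div_le_one hx]
          have : (0 : ℝ) ≤ n := by positivity
          linarith
        linarith
      calc (n : ℝ) ^ (1 / 4 : ℝ) = (((n : ℝ) + 1) * (1 + (-(1 / ((n : ℝ) + 1))))) ^ (1 / 4 : ℝ) := by
            rw [← h2]
        _ = ((n : ℝ) + 1) ^ (1 / 4 : ℝ) * (1 + (-(1 / ((n : ℝ) + 1)))) ^ (1 / 4 : ℝ) :=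
            Real.mul_rpow hx.le h4
        _ ≤ ((n : ℝ) + 1) ^ (1 / 4 : ℝ) * (1 + 1 / 4 * (-(1 / ((n : ℝ) + 1)))) :=
            mul_le_mul_of_nonneg_left h3 (by positivity)
        _ = _ := by
            have h5 : ((n : ℝ) + 1) ^ (-(3 / 4) : ℝ) =
                ((n : ℝ) + 1) ^ (1 / 4 : ℝ) * (1 / ((n : ℝ) + 1)) := by
              rw [show (-(3 / 4) : ℝ) = 1 / 4 - 1 by norm_num, Real.rpow_sub hx, Real.rpow_one]
              ring
            rw [h5]; ring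
    push_cast
    linarith

theorem h_le {Y h : ℕ} (hhY : h ^ 4 ≤ 16 * Y) : (h : ℝ) ≤ 2 * (Y : ℝ) ^ (1 / 4 : ℝ) := by
  have h1 : (h : ℝ) ^ 4 ≤ (2 * (Y : ℝ) ^ (1 / 4 : ℝ)) ^ 4 := by
    have e : (2 * (Y : ℝ) ^ (1 / 4 : ℝ)) ^ 4 = 16 * Y := by
      rw [mul_pow, ← Real.rpow_natCast ((Y : ℝ) ^ (1 / 4 : ℝ)) 4, ← Real.rpow_mul (by positivity)]
      norm_num
    rw [e]
    exact_mod_cast hhY
  exact le_of_pow_le_pow_left₀ (by norm_num) (by positivity) h1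

/-- the mean of `σ` over windows with a weight -/
theorem sg_win (Y h : ℕ) (hY : 1 ≤ Y) (hh : 1 ≤ h) (hhY : h ^ 4 ≤ 16 * Y) :
    ∑ y ∈ range Y, ((y : ℝ) + 1) ^ (-(1 / 8) : ℝ) * ∑ d ∈ Ioc y (y + h), sg d ≤
      24 * Y * (h : ℝ) ^ (5 / 6 : ℝ) := by
  have hYr : (1 : ℝ) ≤ Y := by exact_mod_cast hY
  have hhr : (1 : ℝ) ≤ h := by exact_mod_cast hh
  set s : ℕ → ℝ := fun y => ∑ d ∈ Ioc y (y + h), sg d with hs
  have hs0 : ∀ y, 0 ≤ s y := fun y => sum_nonneg fun d _ => sg_nonneg d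
  have hq := h_le hhY
  set Z := Nat.sqrt Y with hZ
  have hZ2 : Z * Z ≤ Y := Nat.sqrt_le Y
  have hZ3 : Y < (Z + 1) * (Z + 1) := Nat.lt_succ_sqrt Y
  have hZr : (Z : ℝ) ≤ (Y : ℝ) ^ (1 / 2 : ℝ) := by
    rw [← Real.sqrt_eq_rpow]
    apply Real.le_sqrt_of_sq_le
    rw [pow_two]
    exact_mod_cast hZ2
  have hZr3 : (Y : ℝ) ^ (1 / 2 : ℝ) ≤ (Z : ℝ) + 1 := by
    rw [← Real.sqrt_eq_rpow]
    apply Real.sqrt_le_iff.2
    refine ⟨by positivity, ?_⟩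
    rw [pow_two]
    exact_mod_cast hZ3.le
  have hY0 : (0 : ℝ) < Y := by linarith
  have w1 : ∀ y : ℕ, ((y : ℝ) + 1) ^ (-(1 / 8) : ℝ) ≤ 1 := by
    intro y
    apply Real.rpow_le_one_of_one_le_of_nonpos
    · have : (0 : ℝ) ≤ y := by positivity
      linarith
    · norm_num
  have w2 : ∀ y : ℕ, Z ≤ y → ((y : ℝ) + 1) ^ (-(1 / 8) : ℝ) ≤ (Y : ℝ) ^ (-(1 / 16) : ℝ) := by
    intro y hy
    have h1 : (Y : ℝ) ^ (1 / 2 : ℝ) ≤ (y : ℝ) + 1 := by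
      have : (Z : ℝ) ≤ y := by exact_mod_cast hy
      linarith
    calc ((y : ℝ) + 1) ^ (-(1 / 8) : ℝ) ≤ ((Y : ℝ) ^ (1 / 2 : ℝ)) ^ (-(1 / 8) : ℝ) :=
          Real.rpow_le_rpow_of_nonpos (by positivity) h1 (by norm_num)
      _ = (Y : ℝ) ^ (-(1 / 16) : ℝ) := by
          rw [← Real.rpow_mul hY0.le]; norm_num
  have hwin : ∀ Y' : ℕ, ∑ y ∈ range Y', s y ≤ h * (3 * ((Y' + h : ℕ) : ℝ)) := by
    intro Y'
    refine (win_sum sg sg_nonneg Y' h).trans ?_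
    exact mul_le_mul_of_nonneg_left (sum_sg _) (by positivity)
  have hsplit : ∑ y ∈ range Y, ((y : ℝ) + 1) ^ (-(1 / 8) : ℝ) * s y ≤
      ∑ y ∈ range Z, s y + (Y : ℝ) ^ (-(1 / 16) : ℝ) * ∑ y ∈ range Y, s y := by
    have hZY : Z ≤ Y := by
      rcases Nat.eq_zero_or_pos Z with h0 | h0
      · omega
      · nlinarith
    have e1 : ∑ y ∈ range Z, s y = ∑ y ∈ range Y, if y < Z then s y else 0 := by
      rw [← sum_filter]
      apply sum_congr _ (fun _ _ => rfl)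
      ext y
      simp only [mem_range, mem_filter]
      omega
    rw [e1, mul_sum, ← sum_add_distrib]
    apply sum_le_sum
    intro y _
    have hYn : 0 ≤ (Y : ℝ) ^ (-(1 / 16) : ℝ) := by positivity
    by_cases hy : y < Z
    · rw [if_pos hy]
      have a1 := mul_le_mul_of_nonneg_right (w1 y) (hs0 y)
      have a2 := mul_nonneg hYn (hs0 y)
      linarith
    · rw [if_neg hy, zero_add]
      exact mul_le_mul_of_nonneg_right (w2 y (by omega)) (hs0 y)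
  refine hsplit.trans ?_
  have hY14 : (Y : ℝ) ^ (1 / 4 : ℝ) ≤ (Y : ℝ) ^ (1 / 2 : ℝ) :=
    Real.rpow_le_rpow_of_exponent_le hYr (by norm_num)
  have hY12 : (Y : ℝ) ^ (1 / 2 : ℝ) ≤ (Y : ℝ) := by
    calc (Y : ℝ) ^ (1 / 2 : ℝ) ≤ (Y : ℝ) ^ (1 : ℝ) :=
          Real.rpow_le_rpow_of_exponent_le hYr (by norm_num)
      _ = Y := Real.rpow_one _
  have hY1516 : (Y : ℝ) ^ (1 / 2 : ℝ) ≤ (Y : ℝ) ^ (15 / 16 : ℝ) :=
    Real.rpow_le_rpow_of_exponent_le hYr (by norm_num)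
  have b1 : ∑ y ∈ range Z, s y ≤ 9 * h * (Y : ℝ) ^ (15 / 16 : ℝ) := by
    refine (hwin Z).trans ?_
    push_cast
    have : (Z : ℝ) + h ≤ 3 * (Y : ℝ) ^ (15 / 16 : ℝ) := by linarith
    nlinarith
  have b2 : (Y : ℝ) ^ (-(1 / 16) : ℝ) * ∑ y ∈ range Y, s y ≤
      9 * h * (Y : ℝ) ^ (15 / 16 : ℝ) := by
    have c1 : ∑ y ∈ range Y, s y ≤ 9 * h * Y := by
      refine (hwin Y).trans ?_
      push_cast
      have : (Y : ℝ) + h ≤ 3 * Y := by linarith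
      nlinarith
    calc (Y : ℝ) ^ (-(1 / 16) : ℝ) * ∑ y ∈ range Y, s y
        ≤ (Y : ℝ) ^ (-(1 / 16) : ℝ) * (9 * h * Y) :=
          mul_le_mul_of_nonneg_left c1 (by positivity)
      _ = 9 * h * ((Y : ℝ) ^ (-(1 / 16) : ℝ) * (Y : ℝ) ^ (1 : ℝ)) := by
          rw [Real.rpow_one]; ring
      _ = 9 * h * (Y : ℝ) ^ (15 / 16 : ℝ) := by
          rw [← Real.rpow_add hY0]; norm_num
  have b3 : (h : ℝ) * (Y : ℝ) ^ (15 / 16 : ℝ) ≤ 4 / 3 * (Y * (h : ℝ) ^ (5 / 6 : ℝ)) := by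
    have d1 : (h : ℝ) = (h : ℝ) ^ (5 / 6 : ℝ) * (h : ℝ) ^ (1 / 6 : ℝ) := by
      rw [← Real.rpow_add (by linarith)]; norm_num
    have d2 : (h : ℝ) ^ (1 / 6 : ℝ) ≤ 4 / 3 * (Y : ℝ) ^ (1 / 16 : ℝ) := by
      calc (h : ℝ) ^ (1 / 6 : ℝ) ≤ (2 * (Y : ℝ) ^ (1 / 4 : ℝ)) ^ (1 / 6 : ℝ) :=
            Real.rpow_le_rpow (by linarith) hq (by norm_num)
        _ = (2 : ℝ) ^ (1 / 6 : ℝ) * ((Y : ℝ) ^ (1 / 4 : ℝ)) ^ (1 / 6 : ℝ) :=
            Real.mul_rpow (by norm_num) (by positivity)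
        _ ≤ 4 / 3 * (Y : ℝ) ^ (1 / 16 : ℝ) := by
            apply mul_le_mul
            · have h64 : (2 : ℝ) ≤ (4 / 3 : ℝ) ^ (6 : ℝ) := by
                have : ((4 / 3 : ℝ) ^ (6 : ℝ)) = (4 / 3 : ℝ) ^ (6 : ℕ) := by
                  rw [← Real.rpow_natCast]; norm_num
                rw [this]; norm_num
              calc (2 : ℝ) ^ (1 / 6 : ℝ) ≤ ((4 / 3 : ℝ) ^ (6 : ℝ)) ^ (1 / 6 : ℝ) :=
                    Real.rpow_le_rpow (by norm_num) h64 (by norm_num)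
                _ = 4 / 3 := by
                    rw [← Real.rpow_mul (by norm_num)]; norm_num
            · rw [← Real.rpow_mul hY0.le]
              apply Real.rpow_le_rpow_of_exponent_le hYr
              norm_num
            · positivity
            · norm_num
    calc (h : ℝ) * (Y : ℝ) ^ (15 / 16 : ℝ)
        = (h : ℝ) ^ (5 / 6 : ℝ) * (h : ℝ) ^ (1 / 6 : ℝ) * (Y : ℝ) ^ (15 / 16 : ℝ) := by
          rw [← d1]
      _ ≤ (h : ℝ) ^ (5 / 6 : ℝ) * (4 / 3 * (Y : ℝ) ^ (1 / 16 : ℝ)) * (Y : ℝ) ^ (15 / 16 : ℝ) := by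
          apply mul_le_mul_of_nonneg_right _ (by positivity)
          exact mul_le_mul_of_nonneg_left d2 (by positivity)
      _ = 4 / 3 * (((Y : ℝ) ^ (1 / 16 : ℝ) * (Y : ℝ) ^ (15 / 16 : ℝ)) *
          (h : ℝ) ^ (5 / 6 : ℝ)) := by ring
      _ = _ := by
          rw [← Real.rpow_add hY0]; norm_num
  linarith

end

end Pool.Agent.Q122.FM
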