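import Pool.Agent.Q122.FM.CLSa

set_option autoImplicit false

/-! Project FM: job CLS, the passage to the limit. -/

namespace Pool.Agent.Q122.FM

open Finset Filter Topology MeasureTheory Pool.Agent.H306R2.RZ Pool.Agent.H306R2.RG

noncomputable section

theorem frz_step {A B : ℝ} (hA : 0 < A) (hAB : A ≤ B) :
    B ^ (1 / 4 : ℝ) - A ^ (1 / 4 : ℝ) ≤ (B - A) * A ^ (-(3 / 4) : ℝ) := by
  have hB : 0 < B := lt_of_lt_of_le hA hAB
  have h1 : (B / A) ^ (1 / 4 : ℝ) ≤ B / A := by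
    have hb : 1 ≤ B / A := (one_le_div hA).2 hAB
    calc (B / A) ^ (1 / 4 : ℝ) ≤ (B / A) ^ (1 : ℝ) :=
          Real.rpow_le_rpow_of_exponent_le hb (by norm_num)
      _ = B / A := Real.rpow_one _
  have e1 : B ^ (1 / 4 : ℝ) = A ^ (1 / 4 : ℝ) * (B / A) ^ (1 / 4 : ℝ) := by
    rw [← Real.mul_rpow hA.le (by positivity)]
    congr 1
    field_simp
  have e2 : A ^ (-(3 / 4) : ℝ) = A ^ (1 / 4 : ℝ) / A := by
    rw [show (-(3 / 4) : ℝ) = 1 / 4 - 1 by norm_num, Real.rpow_sub hA, Real.rpow_one]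
  have hA4 : 0 < A ^ (1 / 4 : ℝ) := by positivity
  calc B ^ (1 / 4 : ℝ) - A ^ (1 / 4 : ℝ)
      ≤ A ^ (1 / 4 : ℝ) * (B / A) - A ^ (1 / 4 : ℝ) := by
        rw [e1]
        have := mul_le_mul_of_nonneg_left h1 hA4.le
        linarith
    _ = (B - A) * A ^ (-(3 / 4) : ℝ) := by
        rw [e2]
        field_simp

theorem z_pow {x : ℝ} (hx : 0 < x) : (1 / x) ^ (-(1 / 4) : ℝ) = x ^ (1 / 4 : ℝ) := by
  rw [one_div, Real.inv_rpow hx.le, Real.rpow_neg hx.le, inv_inv]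

theorem T1_bound (r : ℕ) (hr : 1 ≤ r) (hr8 : r ≤ 8) (Y h : ℕ) (hY : 1 ≤ Y)
    (hhY : h ^ 4 ≤ 16 * Y) (c : ℕ) :
    ∑ y ∈ Ico 1 Y, ∑ d ∈ (Ioc y (y + h)).filter (fun d => d % 8 = c ∧ Squarefree d),
      ((1 / (r * (d : ℝ))) ^ (-(1 / 4) : ℝ) - (1 / (r * ((y : ℝ) + 1))) ^ (-(1 / 4) : ℝ)) ≤
      32 * Y := by
  have hYr : (1 : ℝ) ≤ Y := by exact_mod_cast hY
  have hr' : (1 : ℝ) ≤ r := by exact_mod_cast hr
  have hr8' : (r : ℝ) ≤ 8 := by exact_mod_cast hr8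
  have hr0 : (0 : ℝ) < r := by linarith
  have hr4 : (r : ℝ) ^ (1 / 4 : ℝ) ≤ 2 := by
    calc (r : ℝ) ^ (1 / 4 : ℝ) ≤ (16 : ℝ) ^ (1 / 4 : ℝ) :=
          Real.rpow_le_rpow hr0.le (by linarith) (by norm_num)
      _ = 2 := by
          rw [show (16 : ℝ) = 2 ^ (4 : ℝ) by
            rw [show (4 : ℝ) = ((4 : ℕ) : ℝ) by norm_num, Real.rpow_natCast]; norm_num]
          rw [← Real.rpow_mul (by norm_num)]; norm_num
  have h1 : ∀ y : ℕ, ∀ d ∈ (Ioc y (y + h)).filter (fun d => d % 8 = c ∧ Squarefree d),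
      ((1 / (r * (d : ℝ))) ^ (-(1 / 4) : ℝ) - (1 / (r * ((y : ℝ) + 1))) ^ (-(1 / 4) : ℝ)) ≤
      2 * h * ((y : ℝ) + 1) ^ (-(3 / 4) : ℝ) := by
    intro y d hd
    simp only [mem_filter, mem_Ioc] at hd
    have hd1 : (y : ℝ) + 1 ≤ d := by exact_mod_cast hd.1.1
    have hd2 : (d : ℝ) ≤ (y : ℝ) + h := by exact_mod_cast hd.1.2
    have hy0 : (0 : ℝ) ≤ y := by positivity
    have hd0 : (0 : ℝ) < d := by linarith
    rw [z_pow (by positivity), z_pow (by positivity)]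
    refine (frz_step (by positivity) (mul_le_mul_of_nonneg_left hd1 hr0.le)).trans ?_
    rw [Real.mul_rpow hr0.le (by positivity)]
    have e1 : (r : ℝ) * (r : ℝ) ^ (-(3 / 4) : ℝ) = (r : ℝ) ^ (1 / 4 : ℝ) := by
      nth_rewrite 1 [← Real.rpow_one (r : ℝ)]
      rw [← Real.rpow_add hr0]; norm_num
    calc (r * (d : ℝ) - r * ((y : ℝ) + 1)) * ((r : ℝ) ^ (-(3 / 4) : ℝ) *
          ((y : ℝ) + 1) ^ (-(3 / 4) : ℝ))
        = (r : ℝ) * (r : ℝ) ^ (-(3 / 4) : ℝ) * ((d : ℝ) - (y + 1)) *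
          ((y : ℝ) + 1) ^ (-(3 / 4) : ℝ) := by ring
      _ ≤ 2 * h * ((y : ℝ) + 1) ^ (-(3 / 4) : ℝ) := by
          rw [e1]
          apply mul_le_mul_of_nonneg_right _ (by positivity)
          apply mul_le_mul hr4 (by linarith) (by linarith) (by norm_num)
  have h2 : ∀ y ∈ Ico 1 Y, ∑ d ∈ (Ioc y (y + h)).filter (fun d => d % 8 = c ∧ Squarefree d),
      ((1 / (r * (d : ℝ))) ^ (-(1 / 4) : ℝ) - (1 / (r * ((y : ℝ) + 1))) ^ (-(1 / 4) : ℝ)) ≤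
      2 * (h : ℝ) ^ 2 * ((y : ℝ) + 1) ^ (-(3 / 4) : ℝ) := by
    intro y _
    refine (sum_le_sum (h1 y)).trans ?_
    rw [sum_const, nsmul_eq_mul]
    have hcard : (((Ioc y (y + h)).filter (fun d => d % 8 = c ∧ Squarefree d)).card : ℝ) ≤ h := by
      have : ((Ioc y (y + h)).filter (fun d => d % 8 = c ∧ Squarefree d)).card ≤ h := by
        refine (card_filter_le _ _).trans ?_
        rw [Nat.card_Ioc]; omega
      exact_mod_cast this
    have h3 : 0 ≤ 2 * h * ((y : ℝ) + 1) ^ (-(3 / 4) : ℝ) := by positivity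
    nlinarith
  refine (sum_le_sum h2).trans ?_
  rw [← mul_sum]
  have h3 : ∑ y ∈ Ico 1 Y, ((y : ℝ) + 1) ^ (-(3 / 4) : ℝ) ≤ 4 * (Y : ℝ) ^ (1 / 4 : ℝ) := by
    refine le_trans ?_ (sum_pow34 Y)
    apply Finset.sum_le_sum_of_subset_of_nonneg
    · intro y hy
      simp only [mem_Ico, mem_range] at hy ⊢
      exact hy.2
    · intro y _ _
      positivity
  have hq := h_le hhY
  have hh0 : (0 : ℝ) ≤ h := by positivity
  have hY4 : 0 ≤ (Y : ℝ) ^ (1 / 4 : ℝ) := by positivity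
  have e2 : ((Y : ℝ) ^ (1 / 4 : ℝ)) ^ 2 * (Y : ℝ) ^ (1 / 4 : ℝ) ≤ Y := by
    rw [← pow_succ, ← Real.rpow_natCast, ← Real.rpow_mul (by positivity)]
    calc (Y : ℝ) ^ ((1 / 4 : ℝ) * ((2 + 1 : ℕ) : ℝ)) ≤ (Y : ℝ) ^ (1 : ℝ) :=
          Real.rpow_le_rpow_of_exponent_le hYr (by norm_num)
      _ = Y := Real.rpow_one _
  have h4 : (h : ℝ) ^ 2 ≤ 4 * ((Y : ℝ) ^ (1 / 4 : ℝ)) ^ 2 := by nlinarith
  calc 2 * (h : ℝ) ^ 2 * ∑ y ∈ Ico 1 Y, ((y : ℝ) + 1) ^ (-(3 / 4) : ℝ)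
      ≤ 2 * (h : ℝ) ^ 2 * (4 * (Y : ℝ) ^ (1 / 4 : ℝ)) :=
        mul_le_mul_of_nonneg_left h3 (by positivity)
    _ ≤ 2 * (4 * ((Y : ℝ) ^ (1 / 4 : ℝ)) ^ 2) * (4 * (Y : ℝ) ^ (1 / 4 : ℝ)) :=
        mul_le_mul_of_nonneg_right (by linarith) (by positivity)
    _ = 32 * (((Y : ℝ) ^ (1 / 4 : ℝ)) ^ 2 * (Y : ℝ) ^ (1 / 4 : ℝ)) := by ring
    _ ≤ 32 * Y := by linarith

theorem r_ok {φ : FD} (hφ : Fam φ) : 1 ≤ φ.r ∧ φ.r ≤ 8 := (par_ok hφ).2.1

theorem cls1 (ns : S_NS) (sq : S_SQ) (rep : S_REP) (frz : S_FRZ) (φ : FD) (hφ : Fam φ) (c : ℕ)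
    (hc : c < 8) (hco : Odd c) (hcomp : ∀ d : ℕ, d % 8 = c → Squarefree d → d ≠ 1 → φ.A d) :
    ∃ C : ℝ, 0 < C ∧ ∀ Y h : ℕ, 3 ≤ Y → 1 ≤ h → h ^ 4 ≤ 16 * Y →
    ∑ y ∈ Ico 1 Y, |∑ d ∈ (Ioc y (y + h)).filter (fun d => d % 8 = c ∧ Squarefree d),
      (gm (1 / 2 + φ.a) / 2 * LLg φ d (1 / 2) - MQ (par φ) d (1 / (φ.r * ((y : ℝ) + 1))))| ≤
    C * Y * Er Y h := by
  obtain ⟨Cn, hCn, ns⟩ := ns
  obtain ⟨Cs, hCs, sq⟩ := sq
  obtain ⟨Cf, hCf, frz⟩ := frz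
  have hp := par_ok hφ
  obtain ⟨hr1, hr8⟩ := r_ok hφ
  have hr' : (1 : ℝ) ≤ φ.r := by exact_mod_cast hr1
  have hr0 : (0 : ℝ) < φ.r := by linarith
  refine ⟨32 * Cf + Cn + 24 * Cs, by positivity, ?_⟩
  intro Y h hY hh hhY
  obtain ⟨er1, er2, er3⟩ := Er_ge hY hh
  have hhY' : h ≤ Y := by
    by_contra hlt
    have h1 : Y ^ 4 < h ^ 4 := Nat.pow_lt_pow_left (by omega) (by norm_num)
    have h2 : 27 * Y ≤ Y ^ 4 := by
      calc 27 * Y = 3 ^ 3 * Y := by ring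
        _ ≤ Y ^ 3 * Y := Nat.mul_le_mul_right _ (Nat.pow_le_pow_left hY 3)
        _ = Y ^ 4 := by ring
    omega
  set wi : ℕ → Finset ℕ := fun y =>
    (Ioc y (y + h)).filter (fun d => d % 8 = c ∧ Squarefree d) with hwi
  set zy : ℕ → ℝ := fun y => 1 / (φ.r * ((y : ℝ) + 1)) with hzy
  have hzy0 : ∀ y, 0 < zy y := fun y => by simp only [hzy]; positivity
  have hzy1 : ∀ y, zy y ≤ 1 := by
    intro y
    simp only [hzy]
    rw [div_le_one (by positivity)]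
    have : (0 : ℝ) ≤ y := by positivity
    nlinarith
  have hmem : ∀ y, 1 ≤ y → ∀ d ∈ wi y, Odd d ∧ φ.A d ∧ Squarefree d ∧ y + 1 ≤ d := by
    intro y hy d hd
    simp only [hwi, mem_filter, mem_Ioc] at hd
    have hd2 : 2 ≤ d := by omega
    refine ⟨?_, hcomp d hd.2.1 hd.2.2 (by omega), hd.2.2, by omega⟩
    obtain ⟨k, hk⟩ := hco
    exact ⟨(d - 1) / 2, by omega⟩
  have sq' := fun (d : ℕ) (z : ℝ) (h1 : Odd d) (h2 : 0 < z) (h3 : z ≤ 1) =>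
    sq (par φ) hp d z h1 h2 h3
  choose! l hl using sq'
  set F : ℕ → ℕ → ℝ := fun N y => ∑ d ∈ wi y,
    ((EN (par φ) N d (1 / (φ.r * (d : ℝ))) + ES (par φ) N d (1 / (φ.r * (d : ℝ)))) -
      MQ (par φ) d (zy y)) with hF
  set G : ℕ → ℝ := fun N => Cf * (32 * Y) + Cn * Y * Er Y h +
    ∑ y ∈ Ico 1 Y, ∑ d ∈ wi y, |ES (par φ) N d (zy y) - MQ (par φ) d (zy y)| with hG
  have hFG : ∀ N, ∑ y ∈ Ico 1 Y, |F N y| ≤ G N := by
    intro N
    have h1 : ∀ y ∈ Ico 1 Y, |F N y| ≤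
        Cf * ∑ d ∈ wi y, ((1 / (φ.r * (d : ℝ))) ^ (-(1 / 4) : ℝ) -
          (1 / (φ.r * ((y : ℝ) + 1))) ^ (-(1 / 4) : ℝ)) +
        |∑ d ∈ wi y, EN (par φ) N d (zy y)| +
        ∑ d ∈ wi y, |ES (par φ) N d (zy y) - MQ (par φ) d (zy y)| := by
      intro y hy
      rw [mem_Ico] at hy
      have e1 : F N y = ∑ d ∈ wi y,
          ((EN (par φ) N d (1 / (φ.r * (d : ℝ))) + ES (par φ) N d (1 / (φ.r * (d : ℝ)))) -
            (EN (par φ) N d (zy y) + ES (par φ) N d (zy y))) +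
          ∑ d ∈ wi y, EN (par φ) N d (zy y) +
          ∑ d ∈ wi y, (ES (par φ) N d (zy y) - MQ (par φ) d (zy y)) := by
        simp only [hF]
        rw [← sum_add_distrib, ← sum_add_distrib]
        apply sum_congr rfl
        intro d _
        ring
      rw [e1]
      refine (abs_add_le _ _).trans (add_le_add ((abs_add_le _ _).trans (add_le_add ?_ le_rfl))
        (abs_sum_le_sum_abs _ _))
      refine (abs_sum_le_sum_abs _ _).trans ?_
      rw [mul_sum]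
      apply sum_le_sum
      intro d hd
      obtain ⟨_, _, _, hyd⟩ := hmem y hy.1 d hd
      have hyd' : (y : ℝ) + 1 ≤ d := by exact_mod_cast hyd
      have hy0 : (0 : ℝ) ≤ y := by positivity
      have hd0 : (0 : ℝ) < d := by linarith
      rw [abs_sub_comm]
      refine (frz (par φ) hp N d (zy y) (1 / (φ.r * (d : ℝ))) (by positivity) ?_ (hzy1 y)).1
      simp only [hzy]
      apply one_div_le_one_div_of_le (by positivity)
      exact mul_le_mul_of_nonneg_left hyd' hr0.le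
    refine (sum_le_sum h1).trans ?_
    rw [sum_add_distrib, sum_add_distrib, ← mul_sum]
    simp only [hG]
    have a1 := T1_bound φ.r hr1 hr8 Y h (by omega) hhY c
    have a2 := ns (par φ) hp c hc hco Y h N hY hh hhY'
    have a3 : ∑ y ∈ Ico 1 Y, |∑ d ∈ wi y, EN (par φ) N d (zy y)| ≤ Cn * Y * Er Y h := by
      refine le_trans ?_ a2
      apply Finset.sum_le_sum_of_subset_of_nonneg
      · intro y hy
        simp only [mem_Ico, mem_range] at hy ⊢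
        exact hy.2
      · intro y _ _
        exact abs_nonneg _
    have a4 := mul_le_mul_of_nonneg_left a1 hCf.le
    linarith
  have hlimF : Tendsto (fun N => ∑ y ∈ Ico 1 Y, |F N y|) atTop
      (𝓝 (∑ y ∈ Ico 1 Y, |∑ d ∈ wi y, (gm (1 / 2 + φ.a) / 2 * LLg φ d (1 / 2) -
        MQ (par φ) d (zy y))|)) := by
    apply tendsto_finsetSum
    intro y hy
    rw [mem_Ico] at hy
    apply Tendsto.abs
    apply tendsto_finsetSum
    intro d hd
    obtain ⟨_, hA, hs, _⟩ := hmem y hy.1 d hd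
    exact (rep φ hφ d hA hs).sub_const _
  have hlimG : Tendsto G atTop (𝓝 (Cf * (32 * Y) + Cn * Y * Er Y h +
      ∑ y ∈ Ico 1 Y, ∑ d ∈ wi y, |l d (zy y) - MQ (par φ) d (zy y)|)) := by
    apply Tendsto.const_add
    apply tendsto_finsetSum
    intro y hy
    rw [mem_Ico] at hy
    apply tendsto_finsetSum
    intro d hd
    obtain ⟨ho, _, _, _⟩ := hmem y hy.1 d hd
    exact ((hl d (zy y) ho (hzy0 y) (hzy1 y)).1.sub_const _).abs
  have h2 := le_of_tendsto_of_tendsto' hlimF hlimG hFG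
  refine h2.trans ?_
  have h3 : ∑ y ∈ Ico 1 Y, ∑ d ∈ wi y, |l d (zy y) - MQ (par φ) d (zy y)| ≤
      Cs * (24 * Y * (h : ℝ) ^ (5 / 6 : ℝ)) := by
    have b1 : ∀ y ∈ Ico 1 Y, ∑ d ∈ wi y, |l d (zy y) - MQ (par φ) d (zy y)| ≤
        Cs * (((y : ℝ) + 1) ^ (-(1 / 8) : ℝ) * ∑ d ∈ Ioc y (y + h), sg d) := by
      intro y hy
      rw [mem_Ico] at hy
      have hzb : zy y ^ (1 / 8 : ℝ) ≤ ((y : ℝ) + 1) ^ (-(1 / 8) : ℝ) := by
        have e1 : ((y : ℝ) + 1) ^ (-(1 / 8) : ℝ) = (1 / ((y : ℝ) + 1)) ^ (1 / 8 : ℝ) := by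
          rw [one_div ((y : ℝ) + 1), Real.inv_rpow (by positivity), Real.rpow_neg (by positivity)]
        rw [e1]
        apply Real.rpow_le_rpow (hzy0 y).le _ (by norm_num)
        simp only [hzy]
        apply one_div_le_one_div_of_le (by positivity)
        have : (0 : ℝ) ≤ (y : ℝ) + 1 := by positivity
        nlinarith
      calc ∑ d ∈ wi y, |l d (zy y) - MQ (par φ) d (zy y)|
          ≤ ∑ d ∈ wi y, Cs * ((y : ℝ) + 1) ^ (-(1 / 8) : ℝ) * sg d := by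
            apply sum_le_sum
            intro d hd
            obtain ⟨ho, _, _, _⟩ := hmem y hy.1 d hd
            refine (hl d (zy y) ho (hzy0 y) (hzy1 y)).2.trans ?_
            apply mul_le_mul_of_nonneg_right _ (sg_nonneg d)
            exact mul_le_mul_of_nonneg_left hzb hCs.le
        _ ≤ ∑ d ∈ Ioc y (y + h), Cs * ((y : ℝ) + 1) ^ (-(1 / 8) : ℝ) * sg d := by
            apply Finset.sum_le_sum_of_subset_of_nonneg (filter_subset _ _)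
            intro d _ _
            have := sg_nonneg d
            positivity
        _ = _ := by rw [← mul_sum]; ring
    refine (sum_le_sum b1).trans ?_
    rw [← mul_sum]
    apply mul_le_mul_of_nonneg_left _ hCs.le
    refine le_trans ?_ (sg_win Y h (by omega) hh hhY)
    apply Finset.sum_le_sum_of_subset_of_nonneg
    · intro y hy
      simp only [mem_Ico, mem_range] at hy ⊢
      exact hy.2
    · intro y _ _
      have : 0 ≤ ∑ d ∈ Ioc y (y + h), sg d := sum_nonneg fun d _ => sg_nonneg d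
      positivity
  have hY0 : (0 : ℝ) ≤ Y := by positivity
  have c1 : Cf * (32 * Y) ≤ 32 * Cf * Y * Er Y h := by
    have := mul_le_mul_of_nonneg_left er1 (show 0 ≤ 32 * Cf * Y by positivity)
    linarith
  have c2 : Cs * (24 * Y * (h : ℝ) ^ (5 / 6 : ℝ)) ≤ 24 * Cs * Y * Er Y h := by
    have := mul_le_mul_of_nonneg_left er2 (show 0 ≤ 24 * Cs * Y by positivity)
    linarith
  calc _ ≤ 32 * Cf * Y * Er Y h + Cn * Y * Er Y h + 24 * Cs * Y * Er Y h := by linarith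
    _ = _ := by ring

end

end Pool.Agent.Q122.FM
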