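import Pool.Agent.Q122.FM.Dec

set_option autoImplicit false

/-! Project FM: the sum over the non-squares, Moebius inversion. -/

namespace Pool.Agent.Q122.FM

open Finset Filter Topology MeasureTheory Pool.Agent.H306R2.RZ Pool.Agent.H306R2.RG

noncomputable section

theorem div_swap (N d : ℕ) (P : ℕ → Prop) [DecidablePred P] (hP : ∀ u, P u → u ≤ N)
    (F : ℕ → ℝ) (μ : ℕ → ℝ) :
    ∑ u ∈ (Icc 1 N).filter P, (∑ g ∈ u.divisors.filter (fun g => g ∣ d), μ g) * F u =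
      ∑ g ∈ (Icc 1 N).filter (fun g => g ∣ d), μ g *
        ∑ v ∈ (Icc 1 N).filter (fun v => P (g * v)), F (g * v) := by
  simp_rw [sum_mul, mul_sum]
  rw [Finset.sum_sigma', Finset.sum_sigma']
  apply Finset.sum_nbij' (fun x : (Σ _ : ℕ, ℕ) => (⟨x.2, x.1 / x.2⟩ : (Σ _ : ℕ, ℕ)))
    (fun x : (Σ _ : ℕ, ℕ) => (⟨x.1 * x.2, x.1⟩ : (Σ _ : ℕ, ℕ)))
  · rintro ⟨u, g⟩ hx
    simp only [mem_sigma, mem_filter, mem_Icc, Nat.mem_divisors] at hx ⊢
    obtain ⟨⟨⟨hu1, huN⟩, hPu⟩, ⟨hgu, hu0⟩, hgd⟩ := hx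
    obtain ⟨v, rfl⟩ := hgu
    have hg0 : 0 < g := Nat.pos_of_ne_zero (fun h => by subst h; simp at hu0)
    have hv0 : 0 < v := Nat.pos_of_ne_zero (fun h => by subst h; simp at hu0)
    rw [Nat.mul_div_cancel_left v hg0]
    refine ⟨⟨⟨hg0, le_trans (Nat.le_mul_of_pos_right g hv0) huN⟩, hgd⟩,
      ⟨hv0, le_trans (Nat.le_mul_of_pos_left v hg0) huN⟩, hPu⟩
  · rintro ⟨g, v⟩ hx
    simp only [mem_sigma, mem_filter, mem_Icc, Nat.mem_divisors] at hx ⊢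
    obtain ⟨⟨⟨hg1, hgN⟩, hgd⟩, ⟨hv1, hvN⟩, hPv⟩ := hx
    exact ⟨⟨⟨Nat.mul_pos hg1 hv1, hP _ hPv⟩, hPv⟩, ⟨⟨v, rfl⟩, by positivity⟩, hgd⟩
  · rintro ⟨u, g⟩ hx
    simp only [mem_sigma, mem_filter, mem_Icc, Nat.mem_divisors] at hx
    obtain ⟨_, ⟨hgu, hu0⟩, _⟩ := hx
    simp only [Nat.mul_div_cancel' hgu]
  · rintro ⟨g, v⟩ hx
    simp only [mem_sigma, mem_filter, mem_Icc, Nat.mem_divisors] at hx
    simp only [Nat.mul_div_cancel_left v (by omega : 0 < g)]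
  · rintro ⟨u, g⟩ hx
    simp only [mem_sigma, mem_filter, mem_Icc, Nat.mem_divisors] at hx
    obtain ⟨_, ⟨hgu, hu0⟩, _⟩ := hx
    simp only [Nat.mul_div_cancel' hgu]

/-- inner sum over `v` -/
def KG (k : ℕ → ℝ) (a N g s : ℕ) : ℝ :=
  ∑ v ∈ (Icc 1 N).filter (fun v => Odd (g * v) ∧ (g * v).Coprime a ∧ s * (g * v) ^ 2 ≤ N),
    k (s * (g * v) ^ 2)

/-- odd squarefree `3 ≤ s ≤ N` prime to `a` -/
def Sa (a N : ℕ) : Finset ℕ := (SS N).filter (fun s => s.Coprime a)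

theorem js_zero_of (e : ℤ) (d s a : ℕ) (had : a ∣ d) (hs : s ≠ 0) (hc : ¬ s.Coprime a) :
    js (e * (d : ℤ)) s = 0 := by
  have : NeZero s := ⟨hs⟩
  unfold js
  have h3 : jacobiSym (e * (d : ℤ)) s = 0 := by
    rw [jacobiSym.eq_zero_iff_not_coprime]
    intro h
    apply hc
    rw [Int.gcd_eq_natAbs, Int.natAbs_mul, Int.natAbs_natCast, Int.natAbs_natCast] at h
    have h1 : Nat.Coprime (e.natAbs * d) s := h
    exact (Nat.Coprime.coprime_dvd_left had (Nat.Coprime.coprime_mul_left h1)).symm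
  rw [h3]; simp

theorem N1_eq {e : ℤ} (he : e = 1 ∨ e = -1 ∨ e = 2 ∨ e = -2) (k : ℕ → ℝ) (N d a : ℕ)
    (had : a ∣ d) :
    N1 e k N d = ∑ g ∈ (Icc 1 N).filter (fun g => g ∣ d),
      ((ArithmeticFunction.moebius g : ℤ) : ℝ) *
        ∑ s ∈ Sa a N, js (e * (d : ℤ)) s * KG k a N g s := by
  unfold N1
  rw [sum_decomp N (fun n => js (e * (d : ℤ)) n * k n)]
  have h1 : ∀ s ∈ SS N, ∑ u ∈ (Icc 1 N).filter (fun u => Odd u ∧ s * u ^ 2 ≤ N),
      js (e * (d : ℤ)) (s * u ^ 2) * k (s * u ^ 2) =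
      js (e * (d : ℤ)) s * ∑ g ∈ (Icc 1 N).filter (fun g => g ∣ d),
        ((ArithmeticFunction.moebius g : ℤ) : ℝ) * KG k a N g s := by
    intro s hs
    simp only [SS, mem_filter, mem_Icc] at hs
    have hs0 : s ≠ 0 := by omega
    have h2 : ∑ u ∈ (Icc 1 N).filter (fun u => Odd u ∧ s * u ^ 2 ≤ N),
      js (e * (d : ℤ)) (s * u ^ 2) * k (s * u ^ 2) =
      js (e * (d : ℤ)) s *
      ∑ u ∈ (Icc 1 N).filter (fun u => Odd u ∧ u.Coprime a ∧ s * u ^ 2 ≤ N),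
        (∑ g ∈ u.divisors.filter (fun g => g ∣ d), ((ArithmeticFunction.moebius g : ℤ) : ℝ)) *
          k (s * u ^ 2) := by
      rw [mul_sum]
      have hsub : (Icc 1 N).filter (fun u => Odd u ∧ u.Coprime a ∧ s * u ^ 2 ≤ N) ⊆
          (Icc 1 N).filter (fun u => Odd u ∧ s * u ^ 2 ≤ N) := by
        intro u hu
        simp only [mem_filter] at hu ⊢
        exact ⟨hu.1, hu.2.1, hu.2.2.2⟩
      rw [← Finset.sum_subset hsub]
      · apply sum_congr rfl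
        intro u hu
        simp only [mem_filter, mem_Icc] at hu
        rw [js_sq he d s u hu.2.1 hs0, cop_sum u d (by omega)]
        ring
      · intro u hu hu'
        simp only [mem_filter, mem_Icc] at hu hu'
        rw [js_sq he d s u hu.2.1 hs0, if_neg, mul_zero, zero_mul]
        intro hc
        exact hu' ⟨hu.1, hu.2.1, Nat.Coprime.coprime_dvd_right had hc, hu.2.2⟩
    rw [h2]
    congr 1
    rw [div_swap N d (fun u => Odd u ∧ u.Coprime a ∧ s * u ^ 2 ≤ N) _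
      (fun u => k (s * u ^ 2)) (fun g => ((ArithmeticFunction.moebius g : ℤ) : ℝ))]
    · rfl
    · intro u hu
      have h3 : u ≤ u ^ 2 := Nat.le_self_pow (by norm_num) u
      have h4 : u ^ 2 ≤ s * u ^ 2 := Nat.le_mul_of_pos_left _ (Nat.pos_of_ne_zero hs0)
      omega
  rw [sum_congr rfl h1]
  have h5 : ∑ s ∈ SS N, js (e * (d : ℤ)) s * ∑ g ∈ (Icc 1 N).filter (fun g => g ∣ d),
        ((ArithmeticFunction.moebius g : ℤ) : ℝ) * KG k a N g s =
      ∑ s ∈ Sa a N, js (e * (d : ℤ)) s * ∑ g ∈ (Icc 1 N).filter (fun g => g ∣ d),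
        ((ArithmeticFunction.moebius g : ℤ) : ℝ) * KG k a N g s := by
    unfold Sa
    symm
    apply Finset.sum_subset (filter_subset _ _)
    intro s hs hs'
    have hs0 : s ≠ 0 := by
      simp only [SS, mem_filter, mem_Icc] at hs
      omega
    rw [js_zero_of e d s a had hs0 (fun hc => hs' (mem_filter.2 ⟨hs, hc⟩)), zero_mul]
  rw [h5]
  simp_rw [mul_sum]
  rw [Finset.sum_comm]
  apply sum_congr rfl
  intro g _
  apply sum_congr rfl
  intro s _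
  ring

/-- `(e d | s)` for `d = a² g (8 j + c)` -/
theorem js_split (e : ℤ) (a g s : ℕ) (j c : ℤ) (hs : s ≠ 0) (hc : s.Coprime a) :
    js (e * ((a : ℤ) ^ 2 * g * (8 * j + c))) s = js (e * g) s * js (8 * j + c) s := by
  have : NeZero s := ⟨hs⟩
  unfold js
  rw [show e * ((a : ℤ) ^ 2 * g * (8 * j + c)) = (a : ℤ) ^ 2 * ((e * g) * (8 * j + c)) by ring,
    jacobiSym.mul_left, jacobiSym.mul_left]
  have h1 : jacobiSym ((a : ℤ) ^ 2) s = 1 := by
    apply jacobiSym.sq_one'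
    have : Nat.Coprime a s := hc.symm
    exact_mod_cast this
  rw [h1, one_mul]
  push_cast
  ring

end

end Pool.Agent.Q122.FM
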