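import Pool.Agent.Q122.FM.FINa

set_option autoImplicit false

/-! Project FM: the final theorem. -/

namespace Pool.Agent.Q122.FM

open Finset Filter Topology MeasureTheory Pool.Agent.H306R2.RZ Pool.Agent.H306R2.RG

noncomputable section

theorem rpow76 {l l' : ℝ} (hl : 1 ≤ l) (hl0 : 0 ≤ l') (h : l' ≤ 2 * l) :
    l' ^ (7 / 6 : ℝ) ≤ 4 * l ^ (7 / 6 : ℝ) := by
  calc l' ^ (7 / 6 : ℝ) ≤ (2 * l) ^ (7 / 6 : ℝ) :=
        Real.rpow_le_rpow (by linarith) h (by norm_num)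
    _ = (2 : ℝ) ^ (7 / 6 : ℝ) * l ^ (7 / 6 : ℝ) := Real.mul_rpow (by norm_num) (by linarith)
    _ ≤ 4 * l ^ (7 / 6 : ℝ) := by
        apply mul_le_mul_of_nonneg_right _ (by positivity)
        calc (2 : ℝ) ^ (7 / 6 : ℝ) ≤ (2 : ℝ) ^ (2 : ℝ) :=
              Real.rpow_le_rpow_of_exponent_le (by norm_num) (by norm_num)
          _ = 4 := by
              rw [show (2 : ℝ) = ((2 : ℕ) : ℝ) by norm_num, Real.rpow_natCast]; norm_num

/-- the right side without the constant -/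
def GG (X H : ℕ) : ℝ :=
  X * H * (Real.log X ^ (7 / 6 : ℝ) * Real.log (Real.log X) /
        (min (H : ℝ) ((X : ℝ) ^ (1 / 4 : ℝ))) ^ (1 / 6 : ℝ))

theorem min_pos' {X H : ℕ} (hX : 3 ≤ X) (hH : 1 ≤ H) :
    0 < min (H : ℝ) ((X : ℝ) ^ (1 / 4 : ℝ)) := by
  apply lt_min
  · exact_mod_cast hH
  · have : (0 : ℝ) < X := by
      have : (3 : ℝ) ≤ X := by exact_mod_cast hX
      linarith
    positivity

theorem q_ge {X H : ℕ} (hX : 3 ≤ X) (hH : 1 ≤ H) :
    (H : ℝ) ^ (5 / 6 : ℝ) ≤ H / (min (H : ℝ) ((X : ℝ) ^ (1 / 4 : ℝ))) ^ (1 / 6 : ℝ) := by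
  have hm := min_pos' hX hH
  have hH0 : (0 : ℝ) < H := by exact_mod_cast hH
  rw [le_div_iff₀ (by positivity)]
  calc (H : ℝ) ^ (5 / 6 : ℝ) * (min (H : ℝ) ((X : ℝ) ^ (1 / 4 : ℝ))) ^ (1 / 6 : ℝ)
      ≤ (H : ℝ) ^ (5 / 6 : ℝ) * (H : ℝ) ^ (1 / 6 : ℝ) := by
        apply mul_le_mul_of_nonneg_left _ (by positivity)
        exact Real.rpow_le_rpow hm.le (min_le_left _ _) (by norm_num)
    _ = H := by
        rw [← Real.rpow_add hH0]; norm_num

theorem GG_ge {X H : ℕ} (hX : 3 ≤ X) (hH : 1 ≤ H) :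
    X * ((H : ℝ) ^ (5 / 6 : ℝ) * Real.log X ^ (7 / 6 : ℝ) * Real.log (Real.log X)) ≤ GG X H := by
  have h1 := q_ge hX hH
  have hl1 := one_le_log hX
  have hk := kp_pos
  have hk2 := kp_le hX
  have e1 : GG X H = X * (H / (min (H : ℝ) ((X : ℝ) ^ (1 / 4 : ℝ))) ^ (1 / 6 : ℝ) *
      Real.log X ^ (7 / 6 : ℝ) * Real.log (Real.log X)) := by
    unfold GG
    ring
  rw [e1]
  apply mul_le_mul_of_nonneg_left _ (by positivity)
  apply mul_le_mul_of_nonneg_right _ (by linarith)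
  apply mul_le_mul_of_nonneg_right h1 (by positivity)

theorem GG_kp {X H : ℕ} (hX : 3 ≤ X) (hH : 1 ≤ H) : kp ≤ GG X H := by
  refine le_trans ?_ (GG_ge hX hH)
  have hl1 := one_le_log hX
  have hk := kp_pos
  have hk2 := kp_le hX
  have hX1 : (1 : ℝ) ≤ X := by
    have : (3 : ℝ) ≤ X := by exact_mod_cast hX
    linarith
  have h1 : (1 : ℝ) ≤ (H : ℝ) ^ (5 / 6 : ℝ) := Real.one_le_rpow (by exact_mod_cast hH)
    (by norm_num)
  have h2 : (1 : ℝ) ≤ Real.log X ^ (7 / 6 : ℝ) := Real.one_le_rpow hl1 (by norm_num)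
  have h3 : (1 : ℝ) ≤ (H : ℝ) ^ (5 / 6 : ℝ) * Real.log X ^ (7 / 6 : ℝ) :=
    one_le_mul_of_one_le_of_one_le h1 h2
  have h4 : kp ≤ (H : ℝ) ^ (5 / 6 : ℝ) * Real.log X ^ (7 / 6 : ℝ) * Real.log (Real.log X) := by
    calc kp ≤ Real.log (Real.log X) := hk2
      _ ≤ _ := le_mul_of_one_le_left (by linarith) h3
  calc kp ≤ (H : ℝ) ^ (5 / 6 : ℝ) * Real.log X ^ (7 / 6 : ℝ) * Real.log (Real.log X) := h4
    _ ≤ _ := le_mul_of_one_le_left (by linarith) hX1

theorem big_X {X : ℕ} (hX : 9 ^ 8 ≤ X) :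
    Real.log (2 * X) + 1 ≤ (X : ℝ) ^ (1 / 4 : ℝ) := by
  have hX' : (9 : ℝ) ^ 8 ≤ X := by exact_mod_cast hX
  have hX0 : (0 : ℝ) < X := by linarith [show (0 : ℝ) < 9 ^ 8 by norm_num]
  set y : ℝ := (X : ℝ) ^ (1 / 8 : ℝ) with hy
  have hy0 : 0 < y := by positivity
  have hy9 : 9 ≤ y := by
    have : ((9 : ℝ) ^ 8) ^ (1 / 8 : ℝ) ≤ y := Real.rpow_le_rpow (by norm_num) hX' (by norm_num)
    rwa [← Real.rpow_natCast, ← Real.rpow_mul (by norm_num),
      show (((8 : ℕ) : ℝ) * (1 / 8)) = 1 by norm_num, Real.rpow_one] at this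
  have e1 : (X : ℝ) ^ (1 / 4 : ℝ) = y * y := by
    rw [hy, ← Real.rpow_add hX0]; norm_num
  have e2 : Real.log X ≤ 8 * y := by
    have := Real.log_le_rpow_div hX0.le (by norm_num : (0 : ℝ) < 1 / 8)
    linarith
  rw [Real.log_mul (by norm_num) hX0.ne', e1]
  have := Real.log_two_lt_d9
  nlinarith

theorem big_ex : ∃ X0 : ℕ, ∀ X : ℕ, X0 ≤ X →
    Real.log (2 * X) + 1 ≤ (X : ℝ) ^ (1 / 4 : ℝ) := ⟨9 ^ 8, fun _ hX => big_X hX⟩

theorem t_FIN (med : S_MED) (fdd : S_FDD) : S_FIN := by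
  refine ⟨fdd.1, ?_⟩
  obtain ⟨C0, hC0, med⟩ := med
  have hk := kp_pos
  set K : ℝ := 5 / kp + 2 with hK
  have hK0 : 0 < K := by positivity
  obtain ⟨X0, hbig⟩ : ∃ X0 : ℕ, ∀ X : ℕ, X0 ≤ X →
      Real.log (2 * X) + 1 ≤ (X : ℝ) ^ (1 / 4 : ℝ) := big_ex
  -- constants for small X
  set Bf : ℤ → ℕ → ℕ → ℝ := fun ε X H => ∑ x ∈ Icc 1 X, |W ε x H - MT ε x H| with hBf
  have hB0 : ∀ ε X H, 0 ≤ Bf ε X H := fun ε X H => sum_nonneg fun x _ => abs_nonneg _
  set C3 : ℝ := ∑ X ∈ range X0, ∑ H ∈ range X0, (Bf 1 X H + Bf (-1) X H) with hC3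
  have hC30 : 0 ≤ C3 := sum_nonneg fun X _ => sum_nonneg fun H _ => add_nonneg (hB0 _ _ _)
    (hB0 _ _ _)
  have hsmall : ∀ ε : ℤ, (ε = 1 ∨ ε = -1) → ∀ X H : ℕ, X < X0 → H < X0 →
      Bf ε X H ≤ C3 := by
    intro ε hε X H hX hH
    have e1 : Bf ε X H ≤ Bf 1 X H + Bf (-1) X H := by
      rcases hε with rfl | rfl
      · linarith [hB0 (-1) X H]
      · linarith [hB0 1 X H]
    have e2 : Bf 1 X H + Bf (-1) X H ≤ ∑ H ∈ range X0, (Bf 1 X H + Bf (-1) X H) :=
      single_le_sum (f := fun H => Bf 1 X H + Bf (-1) X H)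
        (fun H _ => add_nonneg (hB0 _ _ _) (hB0 _ _ _)) (mem_range.2 hH)
    have e3 : ∑ H ∈ range X0, (Bf 1 X H + Bf (-1) X H) ≤ C3 :=
      single_le_sum (f := fun X => ∑ H ∈ range X0, (Bf 1 X H + Bf (-1) X H))
        (fun X _ => sum_nonneg fun H _ => add_nonneg (hB0 _ _ _) (hB0 _ _ _)) (mem_range.2 hX)
    linarith
  set C4 : ℝ := 16 * C0 * K * (1 / kp + 1) with hC4
  have hC40 : 0 < C4 := by positivity
  refine ⟨C0 * K + C4 + C3 / kp, by positivity, ?_⟩
  intro ε hε X H hX hH hHX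
  have hl1 := one_le_log hX
  have hH1 : 1 ≤ H := by
    have : (1 : ℝ) ≤ H := by linarith
    exact_mod_cast this
  have hkG := GG_kp hX hH1
  have hG0 : 0 < GG X H := by linarith
  have hgoal : C0 * K * GG X H + C4 * GG X H + C3 / kp * GG X H =
      (C0 * K + C4 + C3 / kp) * X * H * (Real.log X ^ (7 / 6 : ℝ) * Real.log (Real.log X) /
        (min (H : ℝ) ((X : ℝ) ^ (1 / 4 : ℝ))) ^ (1 / 6 : ℝ)) := by
    unfold GG
    ring
  rw [← hgoal]
  have n1 : 0 ≤ C0 * K * GG X H := by positivity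
  have n2 : 0 ≤ C4 * GG X H := by positivity
  have n3 : 0 ≤ C3 / kp * GG X H := by positivity
  by_cases hA : H ^ 4 ≤ 16 * X
  · -- medium length
    have h1 := med ε hε X H hX hH hA
    have h2 := Er_le hX hH
    have h3 := GG_ge hX hH1
    have h4 : C0 * X * Er X H ≤ C0 * K * GG X H := by
      calc C0 * X * Er X H ≤ C0 * X * (K *
            ((H : ℝ) ^ (5 / 6 : ℝ) * Real.log X ^ (7 / 6 : ℝ) * Real.log (Real.log X))) :=
            mul_le_mul_of_nonneg_left h2 (by positivity)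
        _ = C0 * K * (X *
            ((H : ℝ) ^ (5 / 6 : ℝ) * Real.log X ^ (7 / 6 : ℝ) * Real.log (Real.log X))) := by ring
        _ ≤ C0 * K * GG X H := mul_le_mul_of_nonneg_left h3 (by positivity)
    linarith
  · by_cases hX0 : X0 ≤ X
    · -- long windows
      have hXb := hbig X hX0
      have hX1 : (1 : ℝ) ≤ X := by
        have : (3 : ℝ) ≤ X := by exact_mod_cast hX
        linarith
      have hXp : (0 : ℝ) < X := by linarith
      set h0 := ⌊(X : ℝ) ^ (1 / 4 : ℝ)⌋₊ with hh0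
      have a1 : (h0 : ℝ) ≤ (X : ℝ) ^ (1 / 4 : ℝ) := Nat.floor_le (by positivity)
      have a2 : (X : ℝ) ^ (1 / 4 : ℝ) < h0 + 1 := Nat.lt_floor_add_one _
      have a3 : Real.log (2 * X) ≤ h0 := by linarith
      have hlog2 : Real.log (2 * (X : ℝ)) = Real.log 2 + Real.log X :=
        Real.log_mul (by norm_num) hXp.ne'
      have hl2 := Real.log_two_lt_d9
      have hl2' := Real.log_two_gt_d9
      have a4 : (1 : ℝ) ≤ h0 := by linarith
      have a4' : 1 ≤ h0 := by exact_mod_cast a4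
      have a5 : h0 ^ 4 ≤ X := by
        have : (h0 : ℝ) ^ 4 ≤ ((X : ℝ) ^ (1 / 4 : ℝ)) ^ 4 :=
          pow_le_pow_left₀ (by linarith) a1 4
        rw [← Real.rpow_natCast ((X : ℝ) ^ (1 / 4 : ℝ)), ← Real.rpow_mul hXp.le,
          show ((1 / 4 : ℝ) * ((4 : ℕ) : ℝ)) = 1 by norm_num, Real.rpow_one] at this
        exact_mod_cast this
      have hh0p : (0 : ℝ) < h0 := by linarith
      set l := Real.log (X : ℝ) with hl
      set B : ℝ := 8 * C0 * K * (1 / kp + 1) * X * (h0 : ℝ) ^ (-(1 / 6) : ℝ) *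
        (l ^ (7 / 6 : ℝ) * Real.log l) with hBdef
      have hll : kp ≤ Real.log l := kp_le hX
      have hlong := long_win ε X h0 a4' B (by
        intro H' b1 b2
        have b3 : H' ^ 4 ≤ 16 * (2 * X) := by
          calc H' ^ 4 ≤ (2 * h0) ^ 4 := Nat.pow_le_pow_left (by omega) 4
            _ = 16 * h0 ^ 4 := by ring
            _ ≤ 16 * (2 * X) := by omega
        have b4 : Real.log ((2 * X : ℕ) : ℝ) ≤ H' := by
          push_cast
          have : (h0 : ℝ) ≤ H' := by exact_mod_cast b1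
          linarith
        have b5 := med ε hε (2 * X) H' (by omega) b4 b3
        have b6 := Er_le (by omega : 3 ≤ 2 * X) b4
        have b7 : (1 : ℝ) ≤ H' := by
          have : 1 ≤ H' := a4'.trans b1
          exact_mod_cast this
        have b7' : (0 : ℝ) < H' := by linarith
        have c1 : (H' : ℝ) ^ (5 / 6 : ℝ) ≤ H' * (h0 : ℝ) ^ (-(1 / 6) : ℝ) := by
          calc (H' : ℝ) ^ (5 / 6 : ℝ) = H' * (H' : ℝ) ^ (-(1 / 6) : ℝ) := by
                have : (H' : ℝ) ^ (5 / 6 : ℝ) = (H' : ℝ) ^ ((1 : ℝ) + -(1 / 6)) := by norm_num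
                rw [this, Real.rpow_add b7', Real.rpow_one]
            _ ≤ H' * (h0 : ℝ) ^ (-(1 / 6) : ℝ) := by
                apply mul_le_mul_of_nonneg_left _ b7'.le
                apply Real.rpow_le_rpow_of_nonpos hh0p (by exact_mod_cast b1) (by norm_num)
        have c2 : Real.log ((2 * X : ℕ) : ℝ) ≤ 2 * l := by
          push_cast
          linarith
        have c3 : Real.log ((2 * X : ℕ) : ℝ) ^ (7 / 6 : ℝ) ≤ 4 * l ^ (7 / 6 : ℝ) :=
          rpow76 hl1 (by push_cast; linarith) c2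
        have c4 : Real.log (Real.log ((2 * X : ℕ) : ℝ)) ≤ (1 / kp + 1) * Real.log l := by
          have d1 : Real.log (Real.log ((2 * X : ℕ) : ℝ)) ≤ Real.log (2 * l) := by
            apply Real.log_le_log
            · push_cast; linarith
            · exact c2
          rw [Real.log_mul (by norm_num) (by linarith)] at d1
          have d2 : Real.log 2 ≤ 1 / kp * Real.log l := by
            rw [div_mul_eq_mul_div, one_mul, le_div_iff₀ hk]
            nlinarith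
          linarith
        have c5 : 0 ≤ Real.log (Real.log ((2 * X : ℕ) : ℝ)) := by
          have := kp_le (by omega : 3 ≤ 2 * X)
          linarith
        have c6 : (H' : ℝ) ^ (5 / 6 : ℝ) * Real.log ((2 * X : ℕ) : ℝ) ^ (7 / 6 : ℝ) *
            Real.log (Real.log ((2 * X : ℕ) : ℝ)) ≤
            H' * (h0 : ℝ) ^ (-(1 / 6) : ℝ) * (4 * l ^ (7 / 6 : ℝ)) *
              ((1 / kp + 1) * Real.log l) := by
          have c7 : 0 ≤ Real.log ((2 * X : ℕ) : ℝ) ^ (7 / 6 : ℝ) := by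
            apply Real.rpow_nonneg
            push_cast; linarith
          apply mul_le_mul _ c4 c5 (by positivity)
          apply mul_le_mul c1 c3 c7 (by positivity)
        calc ∑ x ∈ Icc 1 (2 * X), |EE ε x H'| ≤ C0 * ((2 * X : ℕ) : ℝ) * Er (2 * X) H' := b5
          _ ≤ C0 * ((2 * X : ℕ) : ℝ) * (K * ((H' : ℝ) ^ (5 / 6 : ℝ) *
              Real.log ((2 * X : ℕ) : ℝ) ^ (7 / 6 : ℝ) *
              Real.log (Real.log ((2 * X : ℕ) : ℝ)))) :=
              mul_le_mul_of_nonneg_left b6 (by positivity)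
          _ ≤ C0 * ((2 * X : ℕ) : ℝ) * (K * (H' * (h0 : ℝ) ^ (-(1 / 6) : ℝ) *
              (4 * l ^ (7 / 6 : ℝ)) * ((1 / kp + 1) * Real.log l))) := by
              apply mul_le_mul_of_nonneg_left _ (by positivity)
              exact mul_le_mul_of_nonneg_left c6 hK0.le
          _ = B * H' := by
              rw [hBdef]
              push_cast
              ring)
      have hHh0 : h0 ≤ H := by
        by_contra hlt
        have : H ^ 4 < h0 ^ 4 := Nat.pow_lt_pow_left (by omega) (by norm_num)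
        omega
      have g1 := hlong H hHh0 0 (by omega)
      have g2 : ∑ x ∈ Icc 1 X, |W ε x H - MT ε x H| ≤ B * H := g1
      have hm := min_pos' hX hH1
      set m := min (H : ℝ) ((X : ℝ) ^ (1 / 4 : ℝ)) with hmdef
      have g3 : (h0 : ℝ) ^ (-(1 / 6) : ℝ) ≤ 2 * (1 / m ^ (1 / 6 : ℝ)) := by
        have d1 : m ≤ 2 * h0 := by
          have : m ≤ (X : ℝ) ^ (1 / 4 : ℝ) := min_le_right _ _
          linarith
        have d2 : m ^ (1 / 6 : ℝ) ≤ 2 * (h0 : ℝ) ^ (1 / 6 : ℝ) := by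
          calc m ^ (1 / 6 : ℝ) ≤ (2 * (h0 : ℝ)) ^ (1 / 6 : ℝ) :=
                Real.rpow_le_rpow hm.le d1 (by norm_num)
            _ = (2 : ℝ) ^ (1 / 6 : ℝ) * (h0 : ℝ) ^ (1 / 6 : ℝ) :=
                Real.mul_rpow (by norm_num) hh0p.le
            _ ≤ (2 : ℝ) ^ (1 : ℝ) * (h0 : ℝ) ^ (1 / 6 : ℝ) := by
                apply mul_le_mul_of_nonneg_right _ (by positivity)
                exact Real.rpow_le_rpow_of_exponent_le (by norm_num) (by norm_num)
            _ = 2 * (h0 : ℝ) ^ (1 / 6 : ℝ) := by rw [Real.rpow_one]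
        rw [Real.rpow_neg hh0p.le, ← one_div, mul_one_div, div_le_div_iff₀ (by positivity)
          (by positivity)]
        linarith
      have g4 : B * H ≤ C4 * GG X H := by
        have d0 : 0 ≤ l ^ (7 / 6 : ℝ) * Real.log l := by
          apply mul_nonneg (by positivity); linarith
        calc B * H = 8 * C0 * K * (1 / kp + 1) * X * H * (l ^ (7 / 6 : ℝ) * Real.log l) *
              (h0 : ℝ) ^ (-(1 / 6) : ℝ) := by rw [hBdef]; ring
          _ ≤ 8 * C0 * K * (1 / kp + 1) * X * H * (l ^ (7 / 6 : ℝ) * Real.log l) *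
              (2 * (1 / m ^ (1 / 6 : ℝ))) := mul_le_mul_of_nonneg_left g3 (by positivity)
          _ = C4 * GG X H := by
              rw [hC4]
              unfold GG
              rw [← hmdef, ← hl]
              ring
      linarith
    · -- small X
      have hX0' : X < X0 := by omega
      have h1 := hsmall ε hε X H hX0' (by omega)
      have h2 : C3 ≤ C3 / kp * GG X H := by
        rw [div_mul_eq_mul_div, le_div_iff₀ hk]
        exact mul_le_mul_of_nonneg_left hkG hC30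
      have h3 : ∑ x ∈ Icc 1 X, |W ε x H - MT ε x H| ≤ C3 := h1
      linarith

end

end Pool.Agent.Q122.FM
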