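import Pool.Agent.Q122.FM.MED

set_option autoImplicit false

/-! Project FM: preparations for the final theorem. -/

namespace Pool.Agent.Q122.FM

open Finset Filter Topology MeasureTheory Pool.Agent.H306R2.RZ Pool.Agent.H306R2.RG

noncomputable section

/-- `log log 3` -/
def kp : ℝ := Real.log (Real.log 3)

theorem log3_gt : 1 < Real.log 3 := by
  rw [Real.lt_log_iff_exp_lt (by norm_num)]
  exact Real.exp_one_lt_d9.trans (by norm_num)

theorem kp_pos : 0 < kp := Real.log_pos log3_gt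

theorem kp_le {X : ℕ} (hX : 3 ≤ X) : kp ≤ Real.log (Real.log X) := by
  unfold kp
  have h3 := log3_gt
  apply Real.log_le_log (by linarith)
  apply Real.log_le_log (by norm_num)
  exact_mod_cast hX

theorem Er_le {X H : ℕ} (hX : 3 ≤ X) (hH : Real.log X ≤ H) :
    Er X H ≤ (5 / kp + 2) *
      ((H : ℝ) ^ (5 / 6 : ℝ) * Real.log X ^ (7 / 6 : ℝ) * Real.log (Real.log X)) := by
  have hk := kp_pos
  have hk2 := kp_le hX
  have hl1 := one_le_log hX
  set l := Real.log (X : ℝ) with hl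
  have hH1 : (1 : ℝ) ≤ H := by linarith
  have hl0 : 0 < l := by linarith
  have hH0 : (0 : ℝ) < H := by linarith
  have hEr : Er X H = (H : ℝ) ^ (1 / 2 : ℝ) * l ^ (3 / 2 : ℝ) * (1 + Real.log (H * l)) +
      (H : ℝ) ^ (5 / 6 : ℝ) * l ^ (7 / 6 : ℝ) := rfl
  set y : ℝ := H / l with hy
  have hy1 : 1 ≤ y := by rw [hy, le_div_iff₀ hl0]; linarith
  have hy0 : 0 < y := by linarith
  have hHy : (H : ℝ) = y * l := by rw [hy]; field_simp
  have e1 : (H : ℝ) ^ (1 / 2 : ℝ) * l ^ (3 / 2 : ℝ) =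
      (H : ℝ) ^ (5 / 6 : ℝ) * l ^ (7 / 6 : ℝ) * y ^ (-(1 / 3) : ℝ) := by
    rw [hHy, Real.mul_rpow hy0.le hl0.le, Real.mul_rpow hy0.le hl0.le]
    have a1 : y ^ (1 / 2 : ℝ) = y ^ (5 / 6 : ℝ) * y ^ (-(1 / 3) : ℝ) := by
      rw [← Real.rpow_add hy0]; norm_num
    have a2 : l ^ (1 / 2 : ℝ) * l ^ (3 / 2 : ℝ) = l ^ (5 / 6 : ℝ) * l ^ (7 / 6 : ℝ) := by
      rw [← Real.rpow_add hl0, ← Real.rpow_add hl0]; norm_num
    calc y ^ (1 / 2 : ℝ) * l ^ (1 / 2 : ℝ) * l ^ (3 / 2 : ℝ)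
        = y ^ (1 / 2 : ℝ) * (l ^ (1 / 2 : ℝ) * l ^ (3 / 2 : ℝ)) := by ring
      _ = y ^ (5 / 6 : ℝ) * l ^ (5 / 6 : ℝ) * l ^ (7 / 6 : ℝ) * y ^ (-(1 / 3) : ℝ) := by
          rw [a2, a1]; ring
  have e2 : Real.log (H * l) = Real.log y + 2 * Real.log l := by
    rw [hHy, Real.log_mul (by positivity) hl0.ne', Real.log_mul hy0.ne' hl0.ne']
    ring
  have e3 : y ^ (-(1 / 3) : ℝ) ≤ 1 := Real.rpow_le_one_of_one_le_of_nonpos hy1 (by norm_num)
  have e4 : Real.log y ≤ 3 * y ^ (1 / 3 : ℝ) := by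
    have := Real.log_le_rpow_div hy0.le (by norm_num : (0 : ℝ) < 1 / 3)
    linarith
  have e5 : y ^ (-(1 / 3) : ℝ) * y ^ (1 / 3 : ℝ) = 1 := by
    rw [← Real.rpow_add hy0]; norm_num
  have hll : 0 ≤ Real.log l := Real.log_nonneg hl1
  have e6 : y ^ (-(1 / 3) : ℝ) * (1 + Real.log (H * l)) ≤ 4 + 2 * Real.log l := by
    rw [e2]
    have b0 : 0 ≤ y ^ (-(1 / 3) : ℝ) := by positivity
    have b1 : y ^ (-(1 / 3) : ℝ) * Real.log y ≤ 3 := by
      calc y ^ (-(1 / 3) : ℝ) * Real.log y ≤ y ^ (-(1 / 3) : ℝ) * (3 * y ^ (1 / 3 : ℝ)) :=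
            mul_le_mul_of_nonneg_left e4 b0
        _ = 3 * (y ^ (-(1 / 3) : ℝ) * y ^ (1 / 3 : ℝ)) := by ring
        _ = 3 := by rw [e5]; ring
    have b2 : y ^ (-(1 / 3) : ℝ) * (1 + 2 * Real.log l) ≤ 1 * (1 + 2 * Real.log l) :=
      mul_le_mul_of_nonneg_right e3 (by linarith)
    linarith
  have hP : 0 ≤ (H : ℝ) ^ (5 / 6 : ℝ) * l ^ (7 / 6 : ℝ) := by positivity
  have e7 : Er X H ≤ (H : ℝ) ^ (5 / 6 : ℝ) * l ^ (7 / 6 : ℝ) * (5 + 2 * Real.log l) := by
    rw [hEr, e1]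
    have := mul_le_mul_of_nonneg_left e6 hP
    linarith
  refine e7.trans ?_
  have e8 : 5 + 2 * Real.log l ≤ (5 / kp + 2) * Real.log l := by
    have : 5 ≤ 5 / kp * Real.log l := by
      rw [div_mul_eq_mul_div, le_div_iff₀ hk]
      linarith
    linarith
  have := mul_le_mul_of_nonneg_left e8 hP
  linarith

/-- the error in a window -/
def EE (ε : ℤ) (x H : ℕ) : ℝ := W ε x H - MT ε x H

theorem W_add (ε : ℤ) (x H K : ℕ) : W ε x (H + K) = W ε x H + W ε (x + H) K := by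
  unfold W
  rw [← Finset.sum_union]
  · congr 1
    ext n
    simp only [mem_union, mem_Ioc]
    omega
  · rw [Finset.disjoint_left]
    intro n hn
    simp only [mem_Ioc] at hn ⊢
    omega

theorem MT_add (ε : ℤ) (x H K : ℕ) (hx : 1 ≤ x) :
    MT ε x (H + K) = MT ε x H + MT ε (x + H) K := by
  unfold MT
  have hx' : (1 : ℝ) ≤ x := by exact_mod_cast hx
  have hint : ∀ u v : ℝ, 1 ≤ u → u ≤ v → IntervalIntegrable
      (fun t : ℝ => Q1 (if ε = 1 then 0 else 1) (Real.log t)) volume u v := by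
    intro u v hu huv
    apply ContinuousOn.intervalIntegrable
    unfold Q1
    have : ContinuousOn Real.log (Set.uIcc u v) := by
      apply Real.continuousOn_log.mono
      intro t ht
      rw [Set.uIcc_of_le huv] at ht
      simp only [Set.mem_compl_iff, Set.mem_singleton_iff]
      intro h
      rw [h] at ht
      linarith [ht.1]
    fun_prop
  have hH0 : (0 : ℝ) ≤ H := by positivity
  have hK0 : (0 : ℝ) ≤ K := by positivity
  rw [← mul_add]
  congr 1
  push_cast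
  rw [← add_assoc]
  symm
  apply intervalIntegral.integral_add_adjacent_intervals
  · exact hint _ _ hx' (by linarith)
  · exact hint _ _ (by linarith) (by linarith)

theorem EE_add (ε : ℤ) (x H K : ℕ) (hx : 1 ≤ x) :
    EE ε x (H + K) = EE ε x H + EE ε (x + H) K := by
  unfold EE
  rw [W_add, MT_add ε x H K hx]
  ring

theorem long_win (ε : ℤ) (X h0 : ℕ) (h01 : 1 ≤ h0) (B : ℝ)
    (hB : ∀ H : ℕ, h0 ≤ H → H < 2 * h0 → ∑ x ∈ Icc 1 (2 * X), |EE ε x H| ≤ B * H) :
    ∀ H : ℕ, h0 ≤ H → ∀ s : ℕ, s + H ≤ X → ∑ x ∈ Icc 1 X, |EE ε (x + s) H| ≤ B * H := by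
  have base : ∀ H : ℕ, h0 ≤ H → H < 2 * h0 → ∀ s : ℕ, s + H ≤ X →
      ∑ x ∈ Icc 1 X, |EE ε (x + s) H| ≤ B * H := by
    intro H h1 h2 s hs
    refine le_trans ?_ (hB H h1 h2)
    have hinj : Set.InjOn (fun x : ℕ => x + s) (Icc 1 X : Finset ℕ) := by
      intro x _ y _ hxy
      exact Nat.add_right_cancel hxy
    rw [← sum_image (f := fun x => |EE ε x H|) (g := fun x : ℕ => x + s) hinj]
    apply Finset.sum_le_sum_of_subset_of_nonneg
    · intro y hy
      simp only [mem_image, mem_Icc] at hy ⊢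
      obtain ⟨x, hx, rfl⟩ := hy
      omega
    · intro y _ _
      exact abs_nonneg _
  intro H
  induction H using Nat.strong_induction_on with
  | _ H ih =>
    intro h1 s hs
    by_cases h2 : H < 2 * h0
    · exact base H h1 h2 s hs
    · have h3 : H = h0 + (H - h0) := by omega
      have e1 : ∀ x ∈ Icc 1 X, |EE ε (x + s) H| ≤
          |EE ε (x + s) h0| + |EE ε (x + (s + h0)) (H - h0)| := by
        intro x hx
        rw [mem_Icc] at hx
        have : EE ε (x + s) H = EE ε (x + s) h0 + EE ε (x + s + h0) (H - h0) := by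
          conv_lhs => rw [h3]
          exact EE_add ε (x + s) h0 (H - h0) (by omega)
        rw [this, ← add_assoc]
        exact abs_add_le _ _
      refine (sum_le_sum e1).trans ?_
      rw [sum_add_distrib]
      have a1 := base h0 le_rfl (by omega) s (by omega)
      have a2 := ih (H - h0) (by omega) (by omega) (s + h0) (by omega)
      have a3 : ((H - h0 : ℕ) : ℝ) = H - h0 := by
        rw [Nat.cast_sub h1]
      rw [a3] at a2
      linarith

end

end Pool.Agent.Q122.FM
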