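import Pool.Agent.Q122.FM.LS1

set_option autoImplicit false

/-! Project FM: job LS1. -/

namespace Pool.Agent.Q122.FM

open Finset Filter Topology MeasureTheory Pool.Agent.H306R2.RZ Pool.Agent.H306R2.RG

noncomputable section

theorem odd_sq_mod (g : ℕ) (hg : Odd g) : g * g ≡ 1 [MOD 8] := by
  have h : g % 8 = 1 ∨ g % 8 = 3 ∨ g % 8 = 5 ∨ g % 8 = 7 := by
    obtain ⟨k, hk⟩ := hg
    omega
  unfold Nat.ModEq
  rw [Nat.mul_mod]
  rcases h with h | h | h | h <;> rw [h]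

theorem class_iff (a g c d : ℕ) (ha : Odd a) (hg : Odd g) (hc : c < 8) (hag : g.Coprime a) :
    ((a ^ 2 ∣ d ∧ d % 8 = c) ∧ g ∣ d) ↔ d % (8 * a ^ 2 * g) = a ^ 2 * g * ((c * g) % 8) := by
  have hA : a ^ 2 ≡ 1 [MOD 8] := by rw [pow_two]; exact odd_sq_mod a ha
  have hG := odd_sq_mod g hg
  have ha0 : 0 < a := ha.pos
  have hg0 : 0 < g := hg.pos
  have hpos : 0 < a ^ 2 * g := by positivity
  constructor
  · rintro ⟨⟨h1, h2⟩, h3⟩
    have hco : Nat.Coprime (a ^ 2) g := (Nat.Coprime.pow_left 2 hag.symm)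
    obtain ⟨b, rfl⟩ := Nat.Coprime.mul_dvd_of_dvd_of_dvd hco h1 h3
    have h4 : b % 8 = (c * g) % 8 := by
      have e1 : a ^ 2 * g * b ≡ c [MOD 8] := by
        unfold Nat.ModEq
        rw [h2, Nat.mod_eq_of_lt hc]
      have e2 : a ^ 2 * g * b ≡ 1 * g * b [MOD 8] := (hA.mul_right g).mul_right b
      have e3 : g * b ≡ c [MOD 8] := by
        rw [one_mul] at e2
        exact e2.symm.trans e1
      have e4 : g * (g * b) ≡ g * c [MOD 8] := e3.mul_left g
      have e5 : g * (g * b) ≡ b [MOD 8] := by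
        have := hG.mul_right b
        rw [one_mul, mul_assoc] at this
        exact this
      have e6 := e5.symm.trans e4
      rw [mul_comm g c] at e6
      exact e6
    rw [show 8 * a ^ 2 * g = a ^ 2 * g * 8 by ring, Nat.mul_mod_mul_left, h4]
  · intro h
    have h1 : d = 8 * a ^ 2 * g * (d / (8 * a ^ 2 * g)) + a ^ 2 * g * ((c * g) % 8) := by
      rw [← h]; exact (Nat.div_add_mod d _).symm
    set Dd := d / (8 * a ^ 2 * g)
    have h2 : d = a ^ 2 * (g * (8 * Dd + (c * g) % 8)) := by rw [h1]; ring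
    have h3 : d = g * (a ^ 2 * (8 * Dd + (c * g) % 8)) := by rw [h1]; ring
    refine ⟨⟨⟨_, h2⟩, ?_⟩, ⟨_, h3⟩⟩
    have e1 : d ≡ c [MOD 8] := by
      rw [h2]
      have f1 : 8 * Dd + (c * g) % 8 ≡ c * g [MOD 8] := by
        unfold Nat.ModEq
        omega
      have f2 : a ^ 2 * (g * (8 * Dd + (c * g) % 8)) ≡ 1 * (g * (c * g)) [MOD 8] :=
        hA.mul (f1.mul_left g)
      have f3 : 1 * (g * (c * g)) ≡ c [MOD 8] := by
        have := hG.mul_left c
        rw [mul_one] at this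
        rw [show 1 * (g * (c * g)) = c * (g * g) by ring]
        exact this
      exact f2.trans f3
    unfold Nat.ModEq at e1
    rw [Nat.mod_eq_of_lt hc] at e1
    exact e1

theorem exp_bd {w : ℝ} (hw : 0 < w) (g : ℕ) (hg : 1 ≤ g) (A : ℝ) (hA : 0 ≤ A) :
    (A / (8 * g) + 2 + (1 / (Real.sqrt w * (g : ℝ) ^ 2)) ^ 2) *
      Real.exp (-(w * (g : ℝ) ^ 4 / 2)) ≤
      9 * (A + 1 / w) / g * Real.exp (-(w / 4)) := by
  have hg' : (1 : ℝ) ≤ g := by exact_mod_cast hg
  have hg0 : (0 : ℝ) < g := by linarith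
  have hg4 : (g : ℝ) ≤ (g : ℝ) ^ 4 := by
    calc (g : ℝ) = (g : ℝ) ^ 1 := (pow_one _).symm
      _ ≤ (g : ℝ) ^ 4 := pow_le_pow_right₀ hg' (by norm_num)
  have hsw2 : Real.sqrt w ^ 2 = w := Real.sq_sqrt hw.le
  set E := Real.exp (-(w * (g : ℝ) ^ 4 / 2)) with hE
  set E4 := Real.exp (-(w / 4)) with hE4
  have hE40 : 0 < E4 := Real.exp_pos _
  have hE0 : 0 < E := Real.exp_pos _
  have h1 : E ≤ E4 := by
    apply Real.exp_le_exp.2
    nlinarith
  have h2 : E ≤ 4 / (w * g) * E4 := by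
    have e1 : E = Real.exp (-(w * (g : ℝ) ^ 4 / 4)) * Real.exp (-(w * (g : ℝ) ^ 4 / 4)) := by
      rw [← Real.exp_add, hE]; congr 1; ring
    have e2 : Real.exp (-(w * (g : ℝ) ^ 4 / 4)) ≤ E4 := by
      apply Real.exp_le_exp.2
      nlinarith
    have e3 : Real.exp (-(w * (g : ℝ) ^ 4 / 4)) ≤ 4 / (w * g) := by
      have x0 : 0 < w * (g : ℝ) ^ 4 / 4 := by positivity
      have e4 : Real.exp (-(w * (g : ℝ) ^ 4 / 4)) ≤ 1 / (w * (g : ℝ) ^ 4 / 4) := by
        rw [Real.exp_neg, ← one_div]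
        apply one_div_le_one_div_of_le x0
        have := Real.add_one_le_exp (w * (g : ℝ) ^ 4 / 4)
        linarith
      refine e4.trans ?_
      rw [div_le_div_iff₀ (by positivity) (by positivity)]
      nlinarith
    rw [e1]
    exact mul_le_mul e3 e2 (Real.exp_pos _).le (by positivity)
  have h3 : (1 / (Real.sqrt w * (g : ℝ) ^ 2)) ^ 2 ≤ 1 / (w * g) := by
    rw [div_pow, mul_pow, hsw2, one_pow]
    apply one_div_le_one_div_of_le (by positivity)
    apply mul_le_mul_of_nonneg_left _ hw.le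
    calc (g : ℝ) ≤ (g : ℝ) ^ 4 := hg4
      _ = ((g : ℝ) ^ 2) ^ 2 := by ring
  have h4 : A / (8 * g) ≤ A / g := by
    apply div_le_div_of_nonneg_left hA hg0
    linarith
  calc (A / (8 * g) + 2 + (1 / (Real.sqrt w * (g : ℝ) ^ 2)) ^ 2) * E
      = A / (8 * g) * E + 2 * E + (1 / (Real.sqrt w * (g : ℝ) ^ 2)) ^ 2 * E := by ring
    _ ≤ A / g * E4 + 2 * (4 / (w * g) * E4) + 1 / (w * g) * E4 := by
        have a1 : A / (8 * g) * E ≤ A / g * E4 :=
          mul_le_mul h4 h1 hE0.le (by positivity)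
        have a2 : (1 / (Real.sqrt w * (g : ℝ) ^ 2)) ^ 2 * E ≤ 1 / (w * g) * E4 :=
          mul_le_mul h3 h1 hE0.le (by positivity)
        linarith
    _ = (A + 9 / w) / g * E4 := by field_simp; ring
    _ ≤ 9 * (A + 1 / w) / g * E4 := by
        apply mul_le_mul_of_nonneg_right _ hE40.le
        apply div_le_div_of_nonneg_right _ hg0.le
        have : 9 * (A + 1 / w) = 9 * A + 9 / w := by ring
        linarith

theorem log_bd {w : ℝ} (hw : 0 < w) (g : ℕ) (hg : 1 ≤ g) :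
    1 + Real.log (1 + 1 / (Real.sqrt w * (g : ℝ) ^ 2)) ≤ 2 * (1 + Real.log (1 + 1 / w)) := by
  have hg' : (1 : ℝ) ≤ g := by exact_mod_cast hg
  have hsw : 0 < Real.sqrt w := Real.sqrt_pos.2 hw
  have hsw2 : Real.sqrt w ^ 2 = w := Real.sq_sqrt hw.le
  have h0 : 0 ≤ Real.log (1 + 1 / w) := Real.log_nonneg (by
    have : 0 < 1 / w := by positivity
    linarith)
  have h1 : 1 / (Real.sqrt w * (g : ℝ) ^ 2) ≤ 1 / Real.sqrt w := by
    apply one_div_le_one_div_of_le hsw
    exact le_mul_of_one_le_right hsw.le (one_le_pow₀ hg')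
  rcases le_total w 1 with h | h
  · have h2 : 1 / Real.sqrt w ≤ 1 / w := by
      apply one_div_le_one_div_of_le hw
      calc w = Real.sqrt w ^ 2 := hsw2.symm
        _ ≤ Real.sqrt w := by
          rw [pow_two]
          exact mul_le_of_le_one_left hsw.le (Real.sqrt_le_one.2 h)
    have h3 : Real.log (1 + 1 / (Real.sqrt w * (g : ℝ) ^ 2)) ≤ Real.log (1 + 1 / w) := by
      apply Real.log_le_log (by positivity)
      linarith
    linarith
  · have h2 : 1 / Real.sqrt w ≤ 1 := by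
      rw [div_le_one hsw]
      exact Real.one_le_sqrt.2 h
    have h3 : Real.log (1 + 1 / (Real.sqrt w * (g : ℝ) ^ 2)) ≤ Real.log 2 := by
      apply Real.log_le_log (by positivity)
      linarith
    have h4 : Real.log 2 ≤ 1 := by
      have := Real.log_le_sub_one_of_pos (show (0 : ℝ) < 2 by norm_num)
      linarith
    linarith

end

end Pool.Agent.Q122.FM
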