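import Pool.Agent.Q122.FM.MEDc

set_option autoImplicit false

/-! Project FM: job MED. -/

namespace Pool.Agent.Q122.FM

open Finset Filter Topology MeasureTheory Pool.Agent.H306R2.RZ Pool.Agent.H306R2.RG

noncomputable section

open Classical in
/-- the decomposition of the window sum -/
theorem W_eq (fdd : S_FDD) (ε : ℤ) (hε : ε = 1 ∨ ε = -1) (Cl8 Cl4 Cl1 Cl5 : Finset ℕ)
    (h8 : ∀ d : ℕ, 1 ≤ d → Squarefree d → ((F8 ε).A d ↔ d % 8 ∈ Cl8))
    (h4 : ∀ d : ℕ, 1 ≤ d → Squarefree d → ((F4 ε).A d ↔ d % 8 ∈ Cl4))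
    (h1 : ∀ d : ℕ, 2 ≤ d → Squarefree d → ((F1 ε 1).A d ↔ d % 8 ∈ Cl1))
    (h5 : ∀ d : ℕ, 2 ≤ d → Squarefree d → ((F1 ε 5).A d ↔ d % 8 ∈ Cl5))
    (x H : ℕ) (hx : 1 ≤ x) :
    W ε x H = ∑ c ∈ Cl8, TT (F8 ε) c (x / 8) ((x + H) / 8 - x / 8) +
      ∑ c ∈ Cl4, TT (F4 ε) c (x / 4) ((x + H) / 4 - x / 4) +
      ∑ c ∈ Cl1, TT (F1 ε 1) c (x / 1) ((x + H) / 1 - x / 1) +
      ∑ c ∈ Cl5, TT (F1 ε 5) c (x / 1) ((x + H) / 1 - x / 1) := by
  have e0 : W ε x H = ∑ n ∈ Ioc x (x + H),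
      ((if 8 ∣ n ∧ (F8 ε).A (n / 8) ∧ Squarefree (n / 8) then
        LLg (F8 ε) (n / 8) (1 / 2) else 0) +
      (if 4 ∣ n ∧ (F4 ε).A (n / 4) ∧ Squarefree (n / 4) then
        LLg (F4 ε) (n / 4) (1 / 2) else 0) +
      (if (F1 ε 1).A n ∧ Squarefree n then LLg (F1 ε 1) n (1 / 2) else 0) +
      (if (F1 ε 5).A n ∧ Squarefree n then LLg (F1 ε 5) n (1 / 2) else 0)) := by
    unfold W
    apply sum_congr rfl
    intro n hn
    rw [mem_Ioc] at hn
    exact fdd.2 ε hε n (by omega)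
  rw [e0, sum_add_distrib, sum_add_distrib, sum_add_distrib]
  have a8 := sum_dvd 8 (by norm_num) (fun d => (F8 ε).A d ∧ Squarefree d)
    (fun d => LLg (F8 ε) d (1 / 2)) x H
  have a4 := sum_dvd 4 (by norm_num) (fun d => (F4 ε).A d ∧ Squarefree d)
    (fun d => LLg (F4 ε) d (1 / 2)) x H
  have le8 : x / 8 ≤ (x + H) / 8 := Nat.div_le_div_right (Nat.le_add_right _ _)
  have le4 : x / 4 ≤ (x + H) / 4 := Nat.div_le_div_right (Nat.le_add_right _ _)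
  have b8 := fam_split (F8 ε) Cl8 (x / 8) ((x + H) / 8 - x / 8)
    (fun d hd hs => h8 d (by omega) hs)
  have b4 := fam_split (F4 ε) Cl4 (x / 4) ((x + H) / 4 - x / 4)
    (fun d hd hs => h4 d (by omega) hs)
  have b1 := fam_split (F1 ε 1) Cl1 x H (fun d hd hs => h1 d (by omega) hs)
  have b5 := fam_split (F1 ε 5) Cl5 x H (fun d hd hs => h5 d (by omega) hs)
  rw [Nat.add_sub_cancel' le8] at b8
  rw [Nat.add_sub_cancel' le4] at b4
  rw [Nat.div_one, Nat.div_one, Nat.add_sub_cancel_left, ← b8, ← b4, ← b1, ← b5]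
  congr 1
  congr 1
  congr 1

theorem med_gen (cls : S_CLS) (con : S_CON) (fdd : S_FDD) (ε : ℤ) (hε : ε = 1 ∨ ε = -1)
    (Cl8 Cl4 Cl1 Cl5 : Finset ℕ)
    (hc : ∀ c ∈ Cl8 ∪ Cl4 ∪ Cl1 ∪ Cl5, c < 8 ∧ Odd c)
    (k8 : Cl8.card = 4) (k4 : Cl4.card = 2) (k1 : Cl1.card = 1) (k5 : Cl5.card = 1)
    (h8 : ∀ d : ℕ, 1 ≤ d → Squarefree d → ((F8 ε).A d ↔ d % 8 ∈ Cl8))
    (h4 : ∀ d : ℕ, 1 ≤ d → Squarefree d → ((F4 ε).A d ↔ d % 8 ∈ Cl4))
    (h1 : ∀ d : ℕ, 2 ≤ d → Squarefree d → ((F1 ε 1).A d ↔ d % 8 ∈ Cl1))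
    (h5 : ∀ d : ℕ, 2 ≤ d → Squarefree d → ((F1 ε 5).A d ↔ d % 8 ∈ Cl5)) :
    ∃ C : ℝ, 0 < C ∧ ∀ X H : ℕ, 16 ≤ X → 1 ≤ H → H ^ 4 ≤ 16 * X →
      ∑ x ∈ Icc 1 X, |W ε x H - MT ε x H| ≤ C * X * Er X H := by
  have f8 : Fam (F8 ε) := ⟨ε, hε, Or.inl rfl⟩
  have f4 : Fam (F4 ε) := ⟨ε, hε, Or.inr (Or.inl rfl)⟩
  have f1 : Fam (F1 ε 1) := ⟨ε, hε, Or.inr (Or.inr (Or.inl rfl))⟩
  have f5 : Fam (F1 ε 5) := ⟨ε, hε, Or.inr (Or.inr (Or.inr rfl))⟩
  obtain ⟨K8, hK8, q8⟩ := fam_bd cls (F8 ε) f8 (Or.inr (Or.inr rfl)) Cl8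
    (fun c h => hc c (by simp [h])) (fun d hd hs => h8 d (by omega) hs)
  obtain ⟨K4, hK4, q4⟩ := fam_bd cls (F4 ε) f4 (Or.inr (Or.inl rfl)) Cl4
    (fun c h => hc c (by simp [h])) (fun d hd hs => h4 d (by omega) hs)
  obtain ⟨K1, hK1, q1⟩ := fam_bd cls (F1 ε 1) f1 (Or.inl rfl) Cl1
    (fun c h => hc c (by simp [h])) h1
  obtain ⟨K5, hK5, q5⟩ := fam_bd cls (F1 ε 5) f5 (Or.inl rfl) Cl5
    (fun c h => hc c (by simp [h])) h5
  obtain ⟨K0, hK0, q0⟩ := MT_bd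
  refine ⟨K8 + K4 + K1 + K5 + 8 * K0, by positivity, ?_⟩
  intro X H hX hH hHX
  have hX3 : 3 ≤ X := by omega
  obtain ⟨er1, er2, er3⟩ := Er_ge hX3 hH
  have g8 := q8 X H hX hH hHX
  have g4 := q4 X H hX hH hHX
  have g1 := q1 X H hX hH hHX
  have g5 := q5 X H hX hH hHX
  rw [k8] at g8
  rw [k4] at g4
  rw [k1] at g1
  rw [k5] at g5
  set a : ℕ := if ε = 1 then 0 else 1 with ha
  set m8 : ℕ → ℝ := fun x => ((4 : ℕ) : ℝ) * (Po / 8 * ((H : ℝ) / ((8 : ℕ) : ℝ)) *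
    MM 0 a (Real.log x)) with hm8
  set m4 : ℕ → ℝ := fun x => ((2 : ℕ) : ℝ) * (Po / 8 * ((H : ℝ) / ((4 : ℕ) : ℝ)) *
    MM 0 a (Real.log x)) with hm4
  set m1 : ℕ → ℝ := fun x => ((1 : ℕ) : ℝ) * (Po / 8 * ((H : ℝ) / ((1 : ℕ) : ℝ)) *
    MM 1 a (Real.log x)) with hm1
  set m5 : ℕ → ℝ := fun x => ((1 : ℕ) : ℝ) * (Po / 8 * ((H : ℝ) / ((1 : ℕ) : ℝ)) *
    MM (-1) a (Real.log x)) with hm5
  have hmain : ∀ x : ℕ, m8 x + m4 x + m1 x + m5 x =
      3 / Real.pi ^ 2 * H * Q1 a (Real.log x) := by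
    intro x
    have := con (Real.log x) a
    have e1 : 3 / Real.pi ^ 2 * H * Q1 a (Real.log x) =
        H * (3 / Real.pi ^ 2 * Q1 a (Real.log x)) := by ring
    rw [e1, ← this]
    simp only [hm8, hm4, hm1, hm5, MM]
    push_cast
    ring
  set s8 : ℕ → ℝ := fun x => ∑ c ∈ Cl8, TT (F8 ε) c (x / 8) ((x + H) / 8 - x / 8) with hs8
  set s4 : ℕ → ℝ := fun x => ∑ c ∈ Cl4, TT (F4 ε) c (x / 4) ((x + H) / 4 - x / 4) with hs4
  set s1 : ℕ → ℝ := fun x => ∑ c ∈ Cl1, TT (F1 ε 1) c (x / 1) ((x + H) / 1 - x / 1) with hs1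
  set s5 : ℕ → ℝ := fun x => ∑ c ∈ Cl5, TT (F1 ε 5) c (x / 1) ((x + H) / 1 - x / 1) with hs5
  have G8 : ∑ x ∈ Icc 1 X, |s8 x - m8 x| ≤ K8 * X * Er X H := g8
  have G4 : ∑ x ∈ Icc 1 X, |s4 x - m4 x| ≤ K4 * X * Er X H := g4
  have G1 : ∑ x ∈ Icc 1 X, |s1 x - m1 x| ≤ K1 * X * Er X H := g1
  have G5 : ∑ x ∈ Icc 1 X, |s5 x - m5 x| ≤ K5 * X * Er X H := g5
  have G0 : ∑ x ∈ Icc 1 X, |MT ε x H - 3 / Real.pi ^ 2 * H * Q1 a (Real.log x)| ≤
      8 * K0 * X * Er X H := by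
    have e1 : ∀ x ∈ Icc 1 X, |MT ε x H - 3 / Real.pi ^ 2 * H * Q1 a (Real.log x)| ≤
        K0 * (H ^ 2 / x) := by
      intro x hx
      rw [mem_Icc] at hx
      exact q0 ε x H hx.1
    refine (sum_le_sum e1).trans ?_
    rw [← mul_sum]
    have e2 := (sum_main hX3 hHX).2
    have e3 : Real.log X ≤ Er X H := by
      have hs : 1 ≤ Real.sqrt H := by
        rw [Real.one_le_sqrt]; exact_mod_cast hH
      have hl : 0 ≤ Real.log X := by linarith [one_le_log hX3]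
      nlinarith
    calc K0 * ∑ x ∈ Icc 1 X, ((H : ℝ) ^ 2 / x) ≤ K0 * (8 * (X * Real.log X)) :=
          mul_le_mul_of_nonneg_left e2 hK0.le
      _ = 8 * K0 * X * Real.log X := by ring
      _ ≤ 8 * K0 * X * Er X H := mul_le_mul_of_nonneg_left e3 (by positivity)
  have e1 : ∀ x ∈ Icc 1 X, |W ε x H - MT ε x H| ≤
      |s8 x - m8 x| + |s4 x - m4 x| + |s1 x - m1 x| + |s5 x - m5 x| +
        |MT ε x H - 3 / Real.pi ^ 2 * H * Q1 a (Real.log x)| := by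
    intro x hx
    rw [mem_Icc] at hx
    have hW := W_eq fdd ε hε Cl8 Cl4 Cl1 Cl5 h8 h4 h1 h5 x H hx.1
    have hW' : W ε x H = s8 x + s4 x + s1 x + s5 x := hW
    have e2 : W ε x H - MT ε x H = (s8 x - m8 x) + (s4 x - m4 x) + (s1 x - m1 x) +
        (s5 x - m5 x) - (MT ε x H - 3 / Real.pi ^ 2 * H * Q1 a (Real.log x)) := by
      rw [hW', ← hmain x]
      ring
    rw [e2]
    refine (abs_sub _ _).trans ?_
    apply add_le_add _ le_rfl
    refine (abs_add_le _ _).trans ?_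
    apply add_le_add _ le_rfl
    refine (abs_add_le _ _).trans ?_
    apply add_le_add _ le_rfl
    exact abs_add_le _ _
  refine (sum_le_sum e1).trans ?_
  rw [sum_add_distrib, sum_add_distrib, sum_add_distrib, sum_add_distrib]
  calc _ ≤ K8 * X * Er X H + K4 * X * Er X H + K1 * X * Er X H + K5 * X * Er X H +
        8 * K0 * X * Er X H := by linarith
    _ = _ := by ring

theorem not_sq_nat {d : ℕ} (hd : 2 ≤ d) (hs : Squarefree d) : ¬ IsSquare (1 * (d : ℤ)) := by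
  rw [one_mul]
  intro h
  have h1 : IsSquare d := by
    rwa [Int.isSquare_natCast_iff] at h
  obtain ⟨m, hm⟩ := h1
  have h2 : IsUnit m := hs m ⟨1, by rw [hm]; ring⟩
  rw [Nat.isUnit_iff] at h2
  rw [h2] at hm
  omega

theorem not_sq_neg {d : ℕ} (hd : 2 ≤ d) : ¬ IsSquare (-1 * (d : ℤ)) := by
  intro h
  have := h.nonneg
  omega

theorem t_MED (cls : S_CLS) (con : S_CON) (fdd : S_FDD) : S_MED := by
  obtain ⟨C1, hC1, h1⟩ := med_gen cls con fdd 1 (Or.inl rfl) {1, 3, 5, 7} {3, 7} {1} {5}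
    (by decide) (by decide) (by decide) (by decide) (by decide)
    (by
      intro d hd hs
      simp only [F8, mem_insert, mem_singleton]
      rw [Nat.odd_iff]
      omega)
    (by
      intro d hd hs
      simp only [F4, mem_insert, mem_singleton]
      omega)
    (by
      intro d hd hs
      simp only [F1, mem_singleton]
      have := not_sq_nat hd hs
      simp only [this, not_false_eq_true, and_true]
      omega)
    (by
      intro d hd hs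
      simp only [F1, mem_singleton]
      have := not_sq_nat hd hs
      simp only [this, not_false_eq_true, and_true]
      omega)
  obtain ⟨C2, hC2, h2⟩ := med_gen cls con fdd (-1) (Or.inr rfl) {1, 3, 5, 7} {1, 5} {7} {3}
    (by decide) (by decide) (by decide) (by decide) (by decide)
    (by
      intro d hd hs
      simp only [F8, mem_insert, mem_singleton]
      rw [Nat.odd_iff]
      omega)
    (by
      intro d hd hs
      simp only [F4, mem_insert, mem_singleton]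
      omega)
    (by
      intro d hd hs
      simp only [F1, mem_singleton]
      have := not_sq_neg hd
      simp only [this, not_false_eq_true, and_true]
      omega)
    (by
      intro d hd hs
      simp only [F1, mem_singleton]
      have := not_sq_neg hd
      simp only [this, not_false_eq_true, and_true]
      omega)
  -- small X
  set B : ℤ → ℕ → ℕ → ℝ := fun ε X H => ∑ x ∈ Icc 1 X, |W ε x H - MT ε x H| with hB
  have hB0 : ∀ ε X H, 0 ≤ B ε X H := fun ε X H => sum_nonneg fun x _ => abs_nonneg _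
  set C3 : ℝ := ∑ X ∈ range 16, ∑ H ∈ range 4, (B 1 X H + B (-1) X H) with hC3
  have hC30 : 0 ≤ C3 := sum_nonneg fun X _ => sum_nonneg fun H _ => add_nonneg (hB0 _ _ _)
    (hB0 _ _ _)
  have hsmall : ∀ ε : ℤ, (ε = 1 ∨ ε = -1) → ∀ X H : ℕ, X < 16 → H < 4 → B ε X H ≤ C3 := by
    intro ε hε X H hX hH
    have e1 : B ε X H ≤ B 1 X H + B (-1) X H := by
      rcases hε with rfl | rfl
      · linarith [hB0 (-1) X H]
      · linarith [hB0 1 X H]
    have e2 : B 1 X H + B (-1) X H ≤ ∑ H ∈ range 4, (B 1 X H + B (-1) X H) :=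
      single_le_sum (f := fun H => B 1 X H + B (-1) X H)
        (fun H _ => add_nonneg (hB0 _ _ _) (hB0 _ _ _)) (mem_range.2 hH)
    have e3 : ∑ H ∈ range 4, (B 1 X H + B (-1) X H) ≤ C3 :=
      single_le_sum (f := fun X => ∑ H ∈ range 4, (B 1 X H + B (-1) X H))
        (fun X _ => sum_nonneg fun H _ => add_nonneg (hB0 _ _ _) (hB0 _ _ _)) (mem_range.2 hX)
    linarith
  refine ⟨C1 + C2 + C3, by positivity, ?_⟩
  intro ε hε X H hX hH hHX
  have hH1 : 1 ≤ H := by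
    have h1 := one_le_log hX
    have : (1 : ℝ) ≤ H := by linarith
    exact_mod_cast this
  obtain ⟨er1, er2, er3⟩ := Er_ge hX hH1
  have hX0 : (3 : ℝ) ≤ X := by exact_mod_cast hX
  have hXE : 1 ≤ (X : ℝ) * Er X H := by nlinarith
  have hXE0 : 0 ≤ (X : ℝ) * Er X H := by linarith
  by_cases hX16 : 16 ≤ X
  · rcases hε with rfl | rfl
    · refine (h1 X H hX16 hH1 hHX).trans ?_
      nlinarith
    · refine (h2 X H hX16 hH1 hHX).trans ?_
      nlinarith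
  · have hH4 : H < 4 := by
      by_contra hlt
      have : 4 ^ 4 ≤ H ^ 4 := Nat.pow_le_pow_left (by omega) 4
      omega
    refine (hsmall ε hε X H (by omega) hH4).trans ?_
    nlinarith

end

end Pool.Agent.Q122.FM
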