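import Pool.Agent.Q122.FM.CLS

set_option autoImplicit false

/-! Project FM: preparations for the job MED. -/

namespace Pool.Agent.Q122.FM

open Finset Filter Topology MeasureTheory Pool.Agent.H306R2.RZ Pool.Agent.H306R2.RG

noncomputable section

theorem Er_mono {X Y H h : ℕ} (hX : 3 ≤ X) (hY : 3 ≤ Y) (hh : 1 ≤ h) (hhH : h ≤ H)
    (hYX : Y ≤ 2 * X) : Er Y h ≤ 6 * Er X H := by
  have hlX := one_le_log hX
  have hlY := one_le_log hY
  have hh' : (1 : ℝ) ≤ h := by exact_mod_cast hh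
  have hH' : (h : ℝ) ≤ H := by exact_mod_cast hhH
  have hX0 : (0 : ℝ) < X := by
    have : (3 : ℝ) ≤ X := by exact_mod_cast hX
    linarith
  have hlog : Real.log Y ≤ 2 * Real.log X := by
    have h1 : Real.log Y ≤ Real.log (2 * X) := by
      apply Real.log_le_log
      · have : (3 : ℝ) ≤ Y := by exact_mod_cast hY
        linarith
      · exact_mod_cast hYX
    rw [Real.log_mul (by norm_num) hX0.ne'] at h1
    have := Real.log_two_lt_d9
    linarith
  set l := Real.log (X : ℝ) with hl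
  set l' := Real.log (Y : ℝ) with hl'
  have e1 : (h : ℝ) ^ (1 / 2 : ℝ) ≤ (H : ℝ) ^ (1 / 2 : ℝ) :=
    Real.rpow_le_rpow (by linarith) hH' (by norm_num)
  have e2 : l' ^ (3 / 2 : ℝ) ≤ 3 * l ^ (3 / 2 : ℝ) := by
    calc l' ^ (3 / 2 : ℝ) ≤ (2 * l) ^ (3 / 2 : ℝ) :=
          Real.rpow_le_rpow (by linarith) hlog (by norm_num)
      _ = (2 : ℝ) ^ (3 / 2 : ℝ) * l ^ (3 / 2 : ℝ) := Real.mul_rpow (by norm_num) (by linarith)
      _ ≤ 3 * l ^ (3 / 2 : ℝ) := by
          apply mul_le_mul_of_nonneg_right _ (by positivity)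
          have : (2 : ℝ) ^ (3 / 2 : ℝ) = 2 * Real.sqrt 2 := by
            rw [show (3 / 2 : ℝ) = 1 + 1 / 2 by norm_num, Real.rpow_add (by norm_num),
              Real.rpow_one, ← Real.sqrt_eq_rpow]
          rw [this]
          have := Real.sqrt_two_lt_three_halves
          linarith
  have e3 : 1 + Real.log (h * l') ≤ 2 * (1 + Real.log (H * l)) := by
    have f1 : Real.log (h * l') ≤ Real.log (2 * (H * l)) := by
      apply Real.log_le_log (by positivity)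
      nlinarith
    have f0 : Real.log (2 * ((H : ℝ) * l)) = Real.log 2 + Real.log ((H : ℝ) * l) :=
      Real.log_mul two_ne_zero (by nlinarith)
    rw [f0] at f1
    have f2 := Real.log_two_lt_d9
    have f3 : 0 ≤ Real.log (H * l) := Real.log_nonneg (by nlinarith)
    linarith
  have e4 : (h : ℝ) ^ (5 / 6 : ℝ) ≤ (H : ℝ) ^ (5 / 6 : ℝ) :=
    Real.rpow_le_rpow (by linarith) hH' (by norm_num)
  have e5 : l' ^ (7 / 6 : ℝ) ≤ 4 * l ^ (7 / 6 : ℝ) := by
    calc l' ^ (7 / 6 : ℝ) ≤ (2 * l) ^ (7 / 6 : ℝ) :=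
          Real.rpow_le_rpow (by linarith) hlog (by norm_num)
      _ = (2 : ℝ) ^ (7 / 6 : ℝ) * l ^ (7 / 6 : ℝ) := Real.mul_rpow (by norm_num) (by linarith)
      _ ≤ 4 * l ^ (7 / 6 : ℝ) := by
          apply mul_le_mul_of_nonneg_right _ (by positivity)
          calc (2 : ℝ) ^ (7 / 6 : ℝ) ≤ (2 : ℝ) ^ (2 : ℝ) :=
                Real.rpow_le_rpow_of_exponent_le (by norm_num) (by norm_num)
            _ = 4 := by
                rw [show (2 : ℝ) = ((2 : ℕ) : ℝ) by norm_num, Real.rpow_natCast]; norm_num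
  have hlog0 : 0 ≤ Real.log (h * l') := Real.log_nonneg (by nlinarith)
  have hlog0' : 0 ≤ Real.log (H * l) := Real.log_nonneg (by nlinarith)
  have hEr : Er Y h = (h : ℝ) ^ (1 / 2 : ℝ) * l' ^ (3 / 2 : ℝ) * (1 + Real.log (h * l')) +
      (h : ℝ) ^ (5 / 6 : ℝ) * l' ^ (7 / 6 : ℝ) := rfl
  have hEr' : Er X H = (H : ℝ) ^ (1 / 2 : ℝ) * l ^ (3 / 2 : ℝ) * (1 + Real.log (H * l)) +
      (H : ℝ) ^ (5 / 6 : ℝ) * l ^ (7 / 6 : ℝ) := rfl
  have g1 : (h : ℝ) ^ (1 / 2 : ℝ) * l' ^ (3 / 2 : ℝ) * (1 + Real.log (h * l')) ≤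
      (H : ℝ) ^ (1 / 2 : ℝ) * (3 * l ^ (3 / 2 : ℝ)) * (2 * (1 + Real.log (H * l))) := by
    apply mul_le_mul (mul_le_mul e1 e2 (by positivity) (by positivity)) e3 (by positivity)
      (by positivity)
  have g2 : (h : ℝ) ^ (5 / 6 : ℝ) * l' ^ (7 / 6 : ℝ) ≤
      (H : ℝ) ^ (5 / 6 : ℝ) * (4 * l ^ (7 / 6 : ℝ)) :=
    mul_le_mul e4 e5 (by positivity) (by positivity)
  have g3 : 0 ≤ (H : ℝ) ^ (5 / 6 : ℝ) * l ^ (7 / 6 : ℝ) := by positivity
  rw [hEr, hEr']
  linarith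

/-- change of variables `n = r d` -/
theorem sum_dvd (r : ℕ) (hr : 1 ≤ r) (P : ℕ → Prop) [DecidablePred P] (f : ℕ → ℝ) (x H : ℕ) :
    ∑ n ∈ Ioc x (x + H), (if r ∣ n ∧ P (n / r) then f (n / r) else 0) =
      ∑ d ∈ Ioc (x / r) ((x + H) / r), (if P d then f d else 0) := by
  have e1 : ∑ n ∈ Ioc x (x + H), (if r ∣ n ∧ P (n / r) then f (n / r) else 0) =
      ∑ n ∈ (Ioc x (x + H)).filter (fun n => r ∣ n), (if P (n / r) then f (n / r) else 0) := by
    rw [sum_filter]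
    apply sum_congr rfl
    intro n _
    by_cases h : r ∣ n <;> simp [h]
  rw [e1]
  apply sum_nbij' (fun n => n / r) (fun d => r * d)
  · intro n hn
    simp only [mem_filter, mem_Ioc] at hn ⊢
    obtain ⟨⟨h1, h2⟩, d, rfl⟩ := hn
    rw [Nat.mul_div_cancel_left d hr]
    constructor
    · rw [Nat.div_lt_iff_lt_mul hr, mul_comm]; exact h1
    · rw [Nat.le_div_iff_mul_le hr, mul_comm]; exact h2
  · intro d hd
    simp only [mem_filter, mem_Ioc] at hd ⊢
    refine ⟨⟨?_, ?_⟩, Dvd.intro _ rfl⟩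
    · have := (Nat.div_lt_iff_lt_mul hr).1 hd.1
      rw [mul_comm]; exact this
    · have := (Nat.le_div_iff_mul_le hr).1 hd.2
      rw [mul_comm]; exact this
  · intro n hn
    simp only [mem_filter] at hn
    exact Nat.mul_div_cancel' hn.2
  · intro d _
    exact Nat.mul_div_cancel_left d hr
  · intro n _
    rfl

/-- sum over one class of one family -/
def TT (φ : FD) (c y h : ℕ) : ℝ :=
  ∑ d ∈ (Ioc y (y + h)).filter (fun d => d % 8 = c ∧ Squarefree d), LLg φ d (1 / 2)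

open Classical in
/-- splitting of a family in classes -/
theorem fam_split (φ : FD) (Cl : Finset ℕ) (y h : ℕ)
    (hA : ∀ d, y < d → Squarefree d → (φ.A d ↔ d % 8 ∈ Cl)) :
    ∑ d ∈ Ioc y (y + h), (if φ.A d ∧ Squarefree d then LLg φ d (1 / 2) else 0) =
      ∑ c ∈ Cl, TT φ c y h := by
  unfold TT
  simp_rw [sum_filter]
  rw [sum_comm]
  apply sum_congr rfl
  intro d hd
  rw [mem_Ioc] at hd
  by_cases hs : Squarefree d
  · have h1 := hA d hd.1 hs
    by_cases h2 : d % 8 ∈ Cl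
    · rw [if_pos ⟨h1.2 h2, hs⟩, sum_eq_single (d % 8)]
      · rw [if_pos ⟨rfl, hs⟩]
      · intro c _ hc
        rw [if_neg (fun h => hc h.1.symm)]
      · intro h; exact absurd h2 h
    · rw [if_neg (fun h => h2 (h1.1 h.1))]
      symm
      apply sum_eq_zero
      intro c hc
      rw [if_neg]
      rintro ⟨h3, _⟩
      exact h2 (h3 ▸ hc)
  · rw [if_neg (fun h => hs h.2)]
    symm
    apply sum_eq_zero
    intro c _
    rw [if_neg (fun h => hs h.2)]

/-- the sum over `x` of a function of `(x/r, (x+H)/r - x/r)` -/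
theorem sum_x (r : ℕ) (hr : 1 ≤ r) (X H : ℕ) (f : ℕ → ℕ → ℝ) (hf : ∀ y h, 0 ≤ f y h) :
    ∑ x ∈ Icc 1 X, f (x / r) ((x + H) / r - x / r) ≤
      ∑ t ∈ range r, ∑ y ∈ range (X / r + 1), f y ((t + H) / r) := by
  rw [Finset.sum_sigma']
  have e1 : ∀ x ∈ Icc 1 X, f (x / r) ((x + H) / r - x / r) =
      f (x / r) ((x % r + H) / r) := by
    intro x _
    congr 1
    have h1 : x + H = r * (x / r) + (x % r + H) := by
      have := Nat.div_add_mod x r
      omega
    have h3 : (x + H) / r = x / r + (x % r + H) / r := by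
      conv_lhs => rw [h1]
      exact Nat.mul_add_div hr _ _
    rw [h3, Nat.add_sub_cancel_left]
  rw [sum_congr rfl e1]
  set g : (Σ _ : ℕ, ℕ) → ℝ := fun p => f p.2 ((p.1 + H) / r) with hg
  have e2 : ∀ x ∈ Icc 1 X, f (x / r) ((x % r + H) / r) =
      g ((fun x => (⟨x % r, x / r⟩ : (Σ _ : ℕ, ℕ))) x) := fun x _ => rfl
  rw [sum_congr rfl e2]
  have hinj : Set.InjOn (fun x => (⟨x % r, x / r⟩ : (Σ _ : ℕ, ℕ))) (Icc 1 X : Finset ℕ) := by
    intro x _ x' _ hxx
    simp only [Sigma.mk.injEq, heq_eq_eq] at hxx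
    have h1 := Nat.div_add_mod x r
    have h2 := Nat.div_add_mod x' r
    rw [← h1, ← h2, hxx.1, hxx.2]
  rw [← sum_image (f := g) hinj]
  apply Finset.sum_le_sum_of_subset_of_nonneg
  · intro p hp
    simp only [mem_image, mem_Icc, mem_sigma, mem_range] at hp ⊢
    obtain ⟨x, hx, rfl⟩ := hp
    refine ⟨Nat.mod_lt _ hr, ?_⟩
    have := Nat.div_le_div_right (c := r) hx.2
    simp only
    omega
  · intro p _ _
    exact hf _ _

theorem win_ok {r X H k : ℕ} (hr : r = 1 ∨ r = 4 ∨ r = 8) (hk : 1 ≤ k)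
    (hH : H ^ 4 ≤ 16 * X) (hkH : r * k ≤ H + (r - 1)) : k ^ 4 ≤ 16 * (X / r + 1) := by
  obtain ⟨m, rfl⟩ : ∃ m, k = m + 1 := ⟨k - 1, by omega⟩
  have hr1 : 1 ≤ r := by omega
  have h1 : r * m + 1 ≤ H := by
    have : r * (m + 1) = r * m + r := by ring
    omega
  have h2 : (r * m + 1) ^ 4 ≤ 16 * X := (Nat.pow_le_pow_left h1 4).trans hH
  have h3 : X < r * (X / r + 1) := by
    have := Nat.lt_mul_div_succ X hr1
    exact this
  rcases Nat.eq_zero_or_pos m with rfl | hm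
  · have : 1 ≤ X / r + 1 := Nat.le_add_left 1 _
    simp only [zero_add, one_pow]
    exact this.trans (Nat.le_mul_of_pos_left _ (by norm_num))
  · have h4 : r * (m + 1) ^ 4 ≤ (r * m + 1) ^ 4 := by
      rcases hr with rfl | rfl | rfl
      · simp
      · calc 4 * (m + 1) ^ 4 ≤ 16 * (m + 1) ^ 4 := by omega
          _ = (2 * (m + 1)) ^ 4 := by ring
          _ ≤ (4 * m + 1) ^ 4 := Nat.pow_le_pow_left (by omega) 4
      · calc 8 * (m + 1) ^ 4 ≤ 16 * (m + 1) ^ 4 := by omega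
          _ = (2 * (m + 1)) ^ 4 := by ring
          _ ≤ (8 * m + 1) ^ 4 := Nat.pow_le_pow_left (by omega) 4
    have h5 : r * (m + 1) ^ 4 < r * (16 * (X / r + 1)) := by
      calc r * (m + 1) ^ 4 ≤ 16 * X := h4.trans h2
        _ < 16 * (r * (X / r + 1)) := by omega
        _ = r * (16 * (X / r + 1)) := by ring
    exact (Nat.lt_of_mul_lt_mul_left h5).le

end

end Pool.Agent.Q122.FM
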