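import Pool.Agent.Q122.FM.MEDa

set_option autoImplicit false

/-! Project FM: main terms for the job MED. -/

namespace Pool.Agent.Q122.FM

open Finset Filter Topology MeasureTheory Pool.Agent.H306R2.RZ Pool.Agent.H306R2.RG

noncomputable section

/-- the main term of a family as a function of `log x` -/
def MM (η : ℝ) (a : ℕ) (u : ℝ) : ℝ :=
  S0 η * ((u + lam a) / 4 + Real.eulerMascheroniConstant + Real.log 2 + Lo) -
    Real.log 2 / 2 * S1 η

theorem Mn_eq (φ : FD) (y h : ℕ) :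
    Mn φ y h = Po / 8 * h * MM φ.η φ.a (Real.log (φ.r * ((y : ℝ) + 1))) := rfl

theorem MM_bd (η : ℝ) (a : ℕ) (u : ℝ) :
    |MM η a u| ≤ (|S0 η| * (1 + |lam a| / 4 + |Real.eulerMascheroniConstant| + |Real.log 2| +
      |Lo|) + |Real.log 2 / 2 * S1 η|) * (1 + |u|) := by
  unfold MM
  have h1 : |(u + lam a) / 4 + Real.eulerMascheroniConstant + Real.log 2 + Lo| ≤
      (1 + |lam a| / 4 + |Real.eulerMascheroniConstant| + |Real.log 2| + |Lo|) * (1 + |u|) := by
    have c1 := abs_add_le ((u + lam a) / 4 + Real.eulerMascheroniConstant + Real.log 2) Lo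
    have c2 := abs_add_le ((u + lam a) / 4 + Real.eulerMascheroniConstant) (Real.log 2)
    have c3 := abs_add_le ((u + lam a) / 4) Real.eulerMascheroniConstant
    have c4 : |(u + lam a) / 4| ≤ |u| / 4 + |lam a| / 4 := by
      rw [abs_div, abs_of_pos (by norm_num : (0 : ℝ) < 4)]
      have := abs_add_le u (lam a)
      linarith
    have c5 : 0 ≤ |lam a| / 4 + |Real.eulerMascheroniConstant| + |Real.log 2| + |Lo| := by
      positivity
    have c6 : 0 ≤ |u| := abs_nonneg u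
    nlinarith
  calc |S0 η * ((u + lam a) / 4 + Real.eulerMascheroniConstant + Real.log 2 + Lo) -
    Real.log 2 / 2 * S1 η| ≤ |S0 η * ((u + lam a) / 4 + Real.eulerMascheroniConstant +
      Real.log 2 + Lo)| + |Real.log 2 / 2 * S1 η| := abs_sub _ _
    _ ≤ |S0 η| * ((1 + |lam a| / 4 + |Real.eulerMascheroniConstant| + |Real.log 2| + |Lo|) *
          (1 + |u|)) + |Real.log 2 / 2 * S1 η| * (1 + |u|) := by
        rw [abs_mul (S0 η)]
        apply add_le_add
        · exact mul_le_mul_of_nonneg_left h1 (abs_nonneg _)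
        · exact le_mul_of_one_le_right (abs_nonneg _) (by linarith [abs_nonneg u])
    _ = _ := by ring

/-- rounding of the quotients -/
theorem round_bd {r x H : ℕ} (hr : 1 ≤ r) (hr8 : r ≤ 8) (hx : 1 ≤ x) :
    |((((x + H) / r - x / r : ℕ) : ℝ)) - (H : ℝ) / r| ≤ 1 ∧
    0 ≤ Real.log (r * (((x / r : ℕ) : ℝ) + 1)) - Real.log x ∧
    Real.log (r * (((x / r : ℕ) : ℝ) + 1)) - Real.log x ≤ 8 / x := by
  have hr' : (1 : ℝ) ≤ r := by exact_mod_cast hr
  have hr8' : (r : ℝ) ≤ 8 := by exact_mod_cast hr8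
  have hx' : (1 : ℝ) ≤ x := by exact_mod_cast hx
  have a1 : r * (x / r) ≤ x := Nat.mul_div_le x r
  have a2 : x < r * (x / r + 1) := Nat.lt_mul_div_succ x hr
  have a3 : r * ((x + H) / r) ≤ x + H := Nat.mul_div_le _ r
  have a4 : x + H < r * ((x + H) / r + 1) := Nat.lt_mul_div_succ _ hr
  have a5 : x / r ≤ (x + H) / r := Nat.div_le_div_right (Nat.le_add_right _ _)
  set q1 := x / r with hq1
  set q2 := (x + H) / r with hq2
  have b1 : (r : ℝ) * q1 ≤ x := by exact_mod_cast a1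
  have b2 : (x : ℝ) < r * ((q1 : ℝ) + 1) := by exact_mod_cast a2
  have b3 : (r : ℝ) * q2 ≤ x + H := by exact_mod_cast a3
  have b4 : (x : ℝ) + H < r * ((q2 : ℝ) + 1) := by exact_mod_cast a4
  have hr0 : (0 : ℝ) < r := by linarith
  refine ⟨?_, ?_, ?_⟩
  · rw [Nat.cast_sub a5, abs_le]
    constructor
    · have : (H : ℝ) / r ≤ (q2 : ℝ) - q1 + 1 := by
        rw [div_le_iff₀ hr0]; nlinarith
      linarith
    · have : (q2 : ℝ) - q1 - 1 ≤ (H : ℝ) / r := by
        rw [le_div_iff₀ hr0]; nlinarith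
      linarith
  · have := Real.log_le_log (by linarith) b2.le
    linarith
  · have h0 : 0 < r * ((q1 : ℝ) + 1) := by linarith
    have h1 : Real.log (r * ((q1 : ℝ) + 1)) - Real.log x =
        Real.log (r * ((q1 : ℝ) + 1) / x) := by
      rw [Real.log_div h0.ne' (by linarith)]
    rw [h1]
    have h2 := Real.log_le_sub_one_of_pos (div_pos h0 (by linarith : (0 : ℝ) < x))
    have h3 : r * ((q1 : ℝ) + 1) / x - 1 ≤ 8 / x := by
      rw [div_sub_one (by linarith)]
      apply div_le_div_of_nonneg_right _ (by linarith)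
      nlinarith
    linarith

theorem Mn_bd (φ : FD) (hr : 1 ≤ φ.r) (hr8 : φ.r ≤ 8) :
    ∃ C : ℝ, 0 < C ∧ ∀ x H : ℕ, 1 ≤ x →
      |Mn φ (x / φ.r) ((x + H) / φ.r - x / φ.r) -
        Po / 8 * ((H : ℝ) / φ.r) * MM φ.η φ.a (Real.log x)| ≤
      C * (1 + Real.log x + H / x) := by
  set K : ℝ := |S0 φ.η| * (1 + |lam φ.a| / 4 + |Real.eulerMascheroniConstant| + |Real.log 2| +
      |Lo|) + |Real.log 2 / 2 * S1 φ.η| with hK
  have hK0 : 0 ≤ K := by positivity
  refine ⟨|Po| / 8 * (9 * K + 2 * |S0 φ.η|) + 1, by positivity, ?_⟩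
  intro x H hx
  obtain ⟨r1, r2, r3⟩ := round_bd (H := H) hr hr8 hx
  have hx' : (1 : ℝ) ≤ x := by exact_mod_cast hx
  have hr' : (1 : ℝ) ≤ φ.r := by exact_mod_cast hr
  have hlog : 0 ≤ Real.log x := Real.log_nonneg hx'
  set h := (x + H) / φ.r - x / φ.r with hh
  rw [Mn_eq]
  set u := Real.log (φ.r * (((x / φ.r : ℕ) : ℝ) + 1)) with hu
  have e1 : Po / 8 * h * MM φ.η φ.a u - Po / 8 * ((H : ℝ) / φ.r) * MM φ.η φ.a (Real.log x) =
      Po / 8 * (((h : ℝ) - (H : ℝ) / φ.r) * MM φ.η φ.a u +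
        (H : ℝ) / φ.r * (S0 φ.η * ((u - Real.log x) / 4))) := by
    unfold MM
    ring
  rw [e1, abs_mul, abs_div, abs_of_pos (by norm_num : (0 : ℝ) < 8)]
  have h8 : 8 / (x : ℝ) ≤ 8 := by
    rw [div_le_iff₀ (by linarith)]; linarith
  have hu1 : |u| ≤ Real.log x + 8 := by
    rw [abs_of_nonneg (by linarith)]; linarith
  have e2 : |((h : ℝ) - (H : ℝ) / φ.r) * MM φ.η φ.a u| ≤ 9 * K * (1 + Real.log x) := by
    rw [abs_mul]
    calc |(h : ℝ) - (H : ℝ) / φ.r| * |MM φ.η φ.a u| ≤ 1 * (K * (1 + |u|)) :=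
          mul_le_mul r1 (MM_bd _ _ _) (abs_nonneg _) (by norm_num)
      _ ≤ 9 * K * (1 + Real.log x) := by nlinarith
  have e3 : |(H : ℝ) / φ.r * (S0 φ.η * ((u - Real.log x) / 4))| ≤ 2 * |S0 φ.η| * (H / x) := by
    rw [abs_mul, abs_mul, abs_of_nonneg (by positivity : 0 ≤ (H : ℝ) / φ.r),
      abs_of_nonneg (by linarith : 0 ≤ (u - Real.log x) / 4)]
    have f1 : (H : ℝ) / φ.r ≤ H := by
      rw [div_le_iff₀ (by linarith)]
      have : (0 : ℝ) ≤ H := by positivity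
      nlinarith
    have f2 : (u - Real.log x) / 4 ≤ 2 / x := by
      have : (8 : ℝ) / x = 4 * (2 / x) := by ring
      linarith
    calc (H : ℝ) / φ.r * (|S0 φ.η| * ((u - Real.log x) / 4)) ≤
          H * (|S0 φ.η| * (2 / x)) := by
          apply mul_le_mul f1 _ (by apply mul_nonneg (abs_nonneg _); linarith) (by positivity)
          exact mul_le_mul_of_nonneg_left f2 (abs_nonneg _)
      _ = 2 * |S0 φ.η| * (H / x) := by ring
  have e4 := abs_add_le (((h : ℝ) - (H : ℝ) / φ.r) * MM φ.η φ.a u)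
    ((H : ℝ) / φ.r * (S0 φ.η * ((u - Real.log x) / 4)))
  have hHx : 0 ≤ (H : ℝ) / x := by positivity
  have e5 : |((h : ℝ) - (H : ℝ) / φ.r) * MM φ.η φ.a u +
        (H : ℝ) / φ.r * (S0 φ.η * ((u - Real.log x) / 4))| ≤
      (9 * K + 2 * |S0 φ.η|) * (1 + Real.log x + H / x) := by
    have g1 : 0 ≤ 9 * K * (H / x) := by positivity
    have g2 : 0 ≤ 2 * |S0 φ.η| * (1 + Real.log x) := by positivity
    nlinarith
  calc |Po| / 8 * |((h : ℝ) - (H : ℝ) / φ.r) * MM φ.η φ.a u +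
        (H : ℝ) / φ.r * (S0 φ.η * ((u - Real.log x) / 4))|
      ≤ |Po| / 8 * ((9 * K + 2 * |S0 φ.η|) * (1 + Real.log x + H / x)) :=
        mul_le_mul_of_nonneg_left e5 (by positivity)
    _ ≤ _ := by
        have : 0 ≤ 1 + Real.log x + H / x := by positivity
        nlinarith

theorem MT_bd : ∃ C : ℝ, 0 < C ∧ ∀ (ε : ℤ) (x H : ℕ), 1 ≤ x →
    |MT ε x H - 3 / Real.pi ^ 2 * H * Q1 (if ε = 1 then 0 else 1) (Real.log x)| ≤
      C * (H ^ 2 / x) := by
  refine ⟨3 / Real.pi ^ 2 * (|P1| / 2) + 1, by positivity, ?_⟩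
  intro ε x H hx
  have hx' : (1 : ℝ) ≤ x := by exact_mod_cast hx
  set a : ℕ := if ε = 1 then 0 else 1 with ha
  have hH0 : (0 : ℝ) ≤ H := by positivity
  have hcont : ContinuousOn (fun t : ℝ => Q1 a (Real.log t)) (Set.uIcc (x : ℝ) (x + H)) := by
    unfold Q1
    have : ContinuousOn Real.log (Set.uIcc (x : ℝ) (x + H)) := by
      apply Real.continuousOn_log.mono
      intro t ht
      rw [Set.uIcc_of_le (by linarith)] at ht
      simp only [Set.mem_compl_iff, Set.mem_singleton_iff]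
      intro h
      rw [h] at ht
      linarith [ht.1]
    fun_prop
  have hint : IntervalIntegrable (fun t : ℝ => Q1 a (Real.log t)) volume (x : ℝ) (x + H) :=
    hcont.intervalIntegrable
  have e1 : MT ε x H - 3 / Real.pi ^ 2 * H * Q1 a (Real.log x) =
      3 / Real.pi ^ 2 * ∫ t in (x : ℝ)..((x : ℝ) + H),
        (Q1 a (Real.log t) - Q1 a (Real.log x)) := by
    rw [intervalIntegral.integral_sub hint (by simp), intervalIntegral.integral_const]
    unfold MT
    rw [← ha, smul_eq_mul]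
    ring
  rw [e1, abs_mul, abs_of_pos (by positivity : 0 < 3 / Real.pi ^ 2)]
  have e2 : ‖∫ t in (x : ℝ)..((x : ℝ) + H), (Q1 a (Real.log t) - Q1 a (Real.log x))‖ ≤
      |P1| / 2 * (H / x) * |(x : ℝ) + H - x| := by
    apply intervalIntegral.norm_integral_le_of_norm_le_const
    intro t ht
    rw [Set.uIoc_of_le (by linarith)] at ht
    have f1 : Q1 a (Real.log t) - Q1 a (Real.log x) = P1 / 2 * (Real.log t - Real.log x) := by
      unfold Q1; ring
    rw [f1, Real.norm_eq_abs, abs_mul, abs_div, abs_of_pos (by norm_num : (0 : ℝ) < 2)]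
    apply mul_le_mul_of_nonneg_left _ (by positivity)
    have ht0 : 0 < t := by linarith [ht.1]
    have f2 : Real.log t - Real.log x = Real.log (t / x) := by
      rw [Real.log_div ht0.ne' (by linarith)]
    have f3 : 0 ≤ Real.log t - Real.log x := by
      have := Real.log_le_log (by linarith) ht.1.le
      linarith
    rw [abs_of_nonneg f3, f2]
    have f4 := Real.log_le_sub_one_of_pos (div_pos ht0 (by linarith : (0 : ℝ) < x))
    have f5 : t / x - 1 ≤ H / x := by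
      rw [div_sub_one (by linarith)]
      apply div_le_div_of_nonneg_right _ (by linarith)
      linarith [ht.2]
    linarith
  rw [Real.norm_eq_abs] at e2
  have e3 : |(x : ℝ) + H - x| = H := by
    rw [add_sub_cancel_left, abs_of_nonneg hH0]
  rw [e3] at e2
  have e4 : |P1| / 2 * (H / x) * H = |P1| / 2 * ((H : ℝ) ^ 2 / x) := by ring
  rw [e4] at e2
  have e5 := mul_le_mul_of_nonneg_left e2 (by positivity : 0 ≤ 3 / Real.pi ^ 2)
  refine e5.trans ?_
  have : 0 ≤ (H : ℝ) ^ 2 / x := by positivity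
  nlinarith

theorem sum_main {X H : ℕ} (hX : 3 ≤ X) (hH : H ^ 4 ≤ 16 * X) :
    ∑ x ∈ Icc 1 X, (1 + Real.log x + H / x) ≤ 8 * (X * Real.log X) ∧
    ∑ x ∈ Icc 1 X, ((H : ℝ) ^ 2 / x) ≤ 8 * (X * Real.log X) := by
  have hl1 := one_le_log hX
  have hXr : (3 : ℝ) ≤ X := by exact_mod_cast hX
  have hq := h_le hH
  have hH2 : (H : ℝ) ^ 2 ≤ 4 * X := by
    have h0 : (0 : ℝ) ≤ (X : ℝ) ^ (1 / 4 : ℝ) := by positivity
    have h1 : (H : ℝ) ^ 2 ≤ (2 * (X : ℝ) ^ (1 / 4 : ℝ)) ^ 2 := pow_le_pow_left₀ (by positivity) hq 2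
    have h2 : ((X : ℝ) ^ (1 / 4 : ℝ)) ^ 2 ≤ X := by
      rw [← Real.rpow_natCast, ← Real.rpow_mul (by positivity)]
      calc (X : ℝ) ^ ((1 / 4 : ℝ) * ((2 : ℕ) : ℝ)) ≤ (X : ℝ) ^ (1 : ℝ) :=
            Real.rpow_le_rpow_of_exponent_le (by linarith) (by norm_num)
        _ = X := Real.rpow_one _
    rw [mul_pow] at h1
    linarith
  have hH1 : (H : ℝ) ≤ 2 * X := by
    calc (H : ℝ) ≤ 2 * (X : ℝ) ^ (1 / 4 : ℝ) := hq
      _ ≤ 2 * (X : ℝ) ^ (1 : ℝ) := by
          apply mul_le_mul_of_nonneg_left _ (by norm_num)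
          exact Real.rpow_le_rpow_of_exponent_le (by linarith) (by norm_num)
      _ = 2 * X := by rw [Real.rpow_one]
  have hs := harm_le X
  have hs' : ∑ a ∈ Icc 1 X, (1 : ℝ) / a ≤ 2 * Real.log X := by linarith
  have hs0 : 0 ≤ ∑ a ∈ Icc 1 X, (1 : ℝ) / a := sum_nonneg fun a _ => by positivity
  constructor
  · rw [sum_add_distrib]
    have h1 : ∑ x ∈ Icc 1 X, (1 + Real.log x) ≤ X * (1 + Real.log X) := by
      calc ∑ x ∈ Icc 1 X, (1 + Real.log x) ≤ ∑ x ∈ Icc 1 X, (1 + Real.log X) := by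
            apply sum_le_sum
            intro x hx
            rw [mem_Icc] at hx
            have : Real.log x ≤ Real.log X :=
              Real.log_le_log (by exact_mod_cast hx.1) (by exact_mod_cast hx.2)
            linarith
        _ = X * (1 + Real.log X) := by
            rw [sum_const, nsmul_eq_mul, Nat.card_Icc]; simp
    have h2 : ∑ x ∈ Icc 1 X, (H : ℝ) / x = H * ∑ x ∈ Icc 1 X, (1 : ℝ) / x := by
      rw [mul_sum]
      apply sum_congr rfl
      intro x _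
      ring
    rw [h2]
    have h3 : (H : ℝ) * ∑ x ∈ Icc 1 X, (1 : ℝ) / x ≤ (2 * X) * (2 * Real.log X) :=
      mul_le_mul hH1 hs' hs0 (by positivity)
    nlinarith
  · have h2 : ∑ x ∈ Icc 1 X, (H : ℝ) ^ 2 / x = H ^ 2 * ∑ x ∈ Icc 1 X, (1 : ℝ) / x := by
      rw [mul_sum]
      apply sum_congr rfl
      intro x _
      ring
    rw [h2]
    have h3 : (H : ℝ) ^ 2 * ∑ x ∈ Icc 1 X, (1 : ℝ) / x ≤ (4 * X) * (2 * Real.log X) :=
      mul_le_mul hH2 hs' hs0 (by positivity)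
    nlinarith

end

end Pool.Agent.Q122.FM
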