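import Pool.Agent.Q122.FM.MEDb

set_option autoImplicit false

/-! Project FM: one class and one family, for the job MED. -/

namespace Pool.Agent.Q122.FM

open Finset Filter Topology MeasureTheory Pool.Agent.H306R2.RZ Pool.Agent.H306R2.RG

noncomputable section

theorem TT_zero (φ : FD) (c y : ℕ) : TT φ c y 0 = 0 := by
  unfold TT
  simp

theorem Mn_zero (φ : FD) (y : ℕ) : Mn φ y 0 = 0 := by
  unfold Mn
  simp

theorem cl_bd (cls : S_CLS) (φ : FD) (hφ : Fam φ) (hr : φ.r = 1 ∨ φ.r = 4 ∨ φ.r = 8) (c : ℕ)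
    (hc : c < 8) (hco : Odd c)
    (hcomp : ∀ d : ℕ, d % 8 = c → Squarefree d → d ≠ 1 → φ.A d) :
    ∃ C : ℝ, 0 < C ∧ ∀ X H : ℕ, 16 ≤ X → 1 ≤ H → H ^ 4 ≤ 16 * X →
      ∑ x ∈ Icc 1 X, |TT φ c (x / φ.r) ((x + H) / φ.r - x / φ.r) -
        Po / 8 * ((H : ℝ) / φ.r) * MM φ.η φ.a (Real.log x)| ≤ C * X * Er X H := by
  obtain ⟨hr1, hr8⟩ := r_ok hφ
  obtain ⟨C0, hC0, h0⟩ := cls φ hφ c hc hco hcomp
  obtain ⟨C1, hC1, h1⟩ := Mn_bd φ hr1 hr8
  refine ⟨12 * C0 + 8 * C1, by positivity, ?_⟩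
  intro X H hX hH hHX
  have hX3 : 3 ≤ X := by omega
  obtain ⟨er1, er2, er3⟩ := Er_ge hX3 hH
  have hXr : (16 : ℝ) ≤ X := by exact_mod_cast hX
  set r := φ.r with hrdef
  -- first part
  have p1 : ∑ x ∈ Icc 1 X, |TT φ c (x / r) ((x + H) / r - x / r) -
      Mn φ (x / r) ((x + H) / r - x / r)| ≤ 12 * C0 * X * Er X H := by
    refine (sum_x r hr1 X H (fun y h => |TT φ c y h - Mn φ y h|)
      (fun y h => abs_nonneg _)).trans ?_
    have e1 : ∀ t ∈ range r, ∑ y ∈ range (X / r + 1),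
        |TT φ c y ((t + H) / r) - Mn φ y ((t + H) / r)| ≤
        C0 * ((X / r + 1 : ℕ) : ℝ) * (6 * Er X H) := by
      intro t ht
      rw [mem_range] at ht
      rcases Nat.eq_zero_or_pos ((t + H) / r) with h00 | hpos
      · rw [h00]
        have : ∀ y ∈ range (X / r + 1), |TT φ c y 0 - Mn φ y 0| = 0 := by
          intro y _
          rw [TT_zero, Mn_zero, sub_zero, abs_zero]
        rw [sum_eq_zero this]
        positivity
      · set k := (t + H) / r with hk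
        have hk1 : r * k ≤ t + H := Nat.mul_div_le _ r
        have hY3 : 3 ≤ X / r + 1 := by
          have : 2 ≤ X / r := by
            rw [Nat.le_div_iff_mul_le hr1]
            omega
          omega
        have hk4 : k ^ 4 ≤ 16 * (X / r + 1) := win_ok hr hpos hHX (by omega)
        have hkH : k ≤ H := by
          by_contra hlt
          have : r * (H + 1) ≤ r * k := Nat.mul_le_mul_left r (by omega)
          have h2 : r * (H + 1) = r * H + r := by ring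
          have h3 : 1 * H ≤ r * H := Nat.mul_le_mul_right H hr1
          omega
        have hYX : X / r + 1 ≤ 2 * X := by
          have := Nat.div_le_self X r
          omega
        have hE := Er_mono hX3 hY3 hpos hkH hYX
        have hb := h0 (X / r + 1) k hY3 hpos hk4
        refine le_trans hb ?_
        apply mul_le_mul_of_nonneg_left hE
        positivity
    refine (sum_le_sum e1).trans ?_
    rw [sum_const, card_range, nsmul_eq_mul]
    have e2 : (r : ℝ) * ((X / r + 1 : ℕ) : ℝ) ≤ 2 * X := by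
      have : r * (X / r + 1) ≤ 2 * X := by
        have h1 := Nat.mul_div_le X r
        have h2 : r * (X / r + 1) = r * (X / r) + r := by ring
        omega
      exact_mod_cast this
    have e3 : (r : ℝ) * (C0 * ((X / r + 1 : ℕ) : ℝ) * (6 * Er X H)) =
        (r : ℝ) * ((X / r + 1 : ℕ) : ℝ) * (6 * C0 * Er X H) := by ring
    rw [e3]
    calc (r : ℝ) * ((X / r + 1 : ℕ) : ℝ) * (6 * C0 * Er X H) ≤ 2 * X * (6 * C0 * Er X H) :=
          mul_le_mul_of_nonneg_right e2 (by positivity)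
      _ = 12 * C0 * X * Er X H := by ring
  -- second part
  have p2 : ∑ x ∈ Icc 1 X, |Mn φ (x / r) ((x + H) / r - x / r) -
      Po / 8 * ((H : ℝ) / r) * MM φ.η φ.a (Real.log x)| ≤ 8 * C1 * X * Er X H := by
    have e1 : ∀ x ∈ Icc 1 X, |Mn φ (x / r) ((x + H) / r - x / r) -
        Po / 8 * ((H : ℝ) / r) * MM φ.η φ.a (Real.log x)| ≤
        C1 * (1 + Real.log x + H / x) := by
      intro x hx
      rw [mem_Icc] at hx
      exact h1 x H hx.1
    refine (sum_le_sum e1).trans ?_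
    rw [← mul_sum]
    have e2 := (sum_main hX3 hHX).1
    have e3 : Real.log X ≤ Er X H := by
      have hs : 1 ≤ Real.sqrt H := by
        rw [Real.one_le_sqrt]; exact_mod_cast hH
      have hl : 0 ≤ Real.log X := by linarith [one_le_log hX3]
      nlinarith
    calc C1 * ∑ x ∈ Icc 1 X, (1 + Real.log x + H / x) ≤ C1 * (8 * (X * Real.log X)) :=
          mul_le_mul_of_nonneg_left e2 hC1.le
      _ = 8 * C1 * X * Real.log X := by ring
      _ ≤ 8 * C1 * X * Er X H := mul_le_mul_of_nonneg_left e3 (by positivity)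
  have e1 : ∀ x ∈ Icc 1 X, |TT φ c (x / r) ((x + H) / r - x / r) -
        Po / 8 * ((H : ℝ) / r) * MM φ.η φ.a (Real.log x)| ≤
      |TT φ c (x / r) ((x + H) / r - x / r) - Mn φ (x / r) ((x + H) / r - x / r)| +
      |Mn φ (x / r) ((x + H) / r - x / r) -
        Po / 8 * ((H : ℝ) / r) * MM φ.η φ.a (Real.log x)| := fun x _ => abs_sub_le _ _ _
  refine (sum_le_sum e1).trans ?_
  rw [sum_add_distrib]
  calc _ ≤ 12 * C0 * X * Er X H + 8 * C1 * X * Er X H := add_le_add p1 p2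
    _ = _ := by ring

theorem fam_bd (cls : S_CLS) (φ : FD) (hφ : Fam φ) (hr : φ.r = 1 ∨ φ.r = 4 ∨ φ.r = 8)
    (Cl : Finset ℕ) (hCl : ∀ c ∈ Cl, c < 8 ∧ Odd c)
    (hA : ∀ d : ℕ, 2 ≤ d → Squarefree d → (φ.A d ↔ d % 8 ∈ Cl)) :
    ∃ C : ℝ, 0 < C ∧ ∀ X H : ℕ, 16 ≤ X → 1 ≤ H → H ^ 4 ≤ 16 * X →
      ∑ x ∈ Icc 1 X, |∑ c ∈ Cl, TT φ c (x / φ.r) ((x + H) / φ.r - x / φ.r) -
        Cl.card * (Po / 8 * ((H : ℝ) / φ.r) * MM φ.η φ.a (Real.log x))| ≤ C * X * Er X H := by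
  have hex : ∀ c : ℕ, c ∈ Cl → ∃ C : ℝ, 0 < C ∧ ∀ X H : ℕ, 16 ≤ X → 1 ≤ H → H ^ 4 ≤ 16 * X →
      ∑ x ∈ Icc 1 X, |TT φ c (x / φ.r) ((x + H) / φ.r - x / φ.r) -
        Po / 8 * ((H : ℝ) / φ.r) * MM φ.η φ.a (Real.log x)| ≤ C * X * Er X H := by
    intro c hc
    apply cl_bd cls φ hφ hr c (hCl c hc).1 (hCl c hc).2
    intro d hd hs hd1
    have hd0 : d ≠ 0 := hs.ne_zero
    rw [hA d (by omega) hs, hd]
    exact hc
  choose! Cf hCf hb using hex
  have hC0 : 0 ≤ ∑ c ∈ Cl, Cf c := sum_nonneg fun c hc => (hCf c hc).le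
  refine ⟨∑ c ∈ Cl, Cf c + 1, by linarith, ?_⟩
  intro X H hX hH hHX
  obtain ⟨er1, er2, er3⟩ := Er_ge (by omega : 3 ≤ X) hH
  have e1 : ∀ x ∈ Icc 1 X, |∑ c ∈ Cl, TT φ c (x / φ.r) ((x + H) / φ.r - x / φ.r) -
        Cl.card * (Po / 8 * ((H : ℝ) / φ.r) * MM φ.η φ.a (Real.log x))| ≤
      ∑ c ∈ Cl, |TT φ c (x / φ.r) ((x + H) / φ.r - x / φ.r) -
        Po / 8 * ((H : ℝ) / φ.r) * MM φ.η φ.a (Real.log x)| := by
    intro x _
    have e2 : ∑ c ∈ Cl, TT φ c (x / φ.r) ((x + H) / φ.r - x / φ.r) -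
        Cl.card * (Po / 8 * ((H : ℝ) / φ.r) * MM φ.η φ.a (Real.log x)) =
        ∑ c ∈ Cl, (TT φ c (x / φ.r) ((x + H) / φ.r - x / φ.r) -
        Po / 8 * ((H : ℝ) / φ.r) * MM φ.η φ.a (Real.log x)) := by
      rw [sum_sub_distrib, sum_const, nsmul_eq_mul]
    rw [e2]
    exact abs_sum_le_sum_abs _ _
  refine (sum_le_sum e1).trans ?_
  rw [sum_comm]
  calc _ ≤ ∑ c ∈ Cl, Cf c * X * Er X H := sum_le_sum fun c hc => hb c hc X H hX hH hHX
    _ = (∑ c ∈ Cl, Cf c) * X * Er X H := by rw [sum_mul, sum_mul]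
    _ ≤ (∑ c ∈ Cl, Cf c + 1) * X * Er X H := by
        have : 0 ≤ (X : ℝ) * Er X H := by positivity
        nlinarith

end

end Pool.Agent.Q122.FM
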