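import Mathlib
import Pool.Agent.H306R2.RG.Defs
import Pool.Agent.Helper112.LS

set_option autoImplicit false

/-!
# Project FM (helper122): the first moment of quadratic Dirichlet L-functions in short intervals
-/

namespace Pool.Agent.Q122.FM

open Finset Filter Topology MeasureTheory Pool.Agent.H306R2.RZ Pool.Agent.H306R2.RG
open Pool.Agent.Helper112 (ee)

noncomputable section

/-! ### the objects of the theorem -/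

/-- `(D/2)` for a fundamental discriminant `D` -/
def kr2 (D : ℤ) : ℤ := if D % 8 = 1 then 1 else if D % 8 = 5 then -1 else 0

/-- the Kronecker symbol `(D/n)`, `n ≥ 1`, for a fundamental discriminant `D` -/
def kron (D : ℤ) (n : ℕ) : ℤ :=
  kr2 D ^ (n.factorization 2) * jacobiSym D (n / 2 ^ (n.factorization 2))

/-- fundamental discriminants -/
def IsFund (D : ℤ) : Prop :=
  (D % 4 = 1 ∧ Squarefree D) ∨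
    ∃ m : ℤ, D = 4 * m ∧ (m % 4 = 2 ∨ m % 4 = 3) ∧ Squarefree m

/-- `L(1/2, χ_D)`, the limit of the partial sums -/
def LHalf (D : ℤ) : ℝ :=
  limUnder atTop (fun N : ℕ => ∑ n ∈ Icc 1 N, (kron D n : ℝ) / Real.sqrt n)

open Classical in
/-- sum of `L(1/2, χ_D)` over the fundamental discriminants `D = ε n`, `x < n ≤ x + H` -/
def W (ε : ℤ) (x H : ℕ) : ℝ :=
  ∑ n ∈ Ioc x (x + H), if IsFund (ε * n) then LHalf (ε * n) else 0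

/-- `Γ'/Γ ((1/2 + a)/2) - log π` -/
def lam (a : ℕ) : ℝ :=
  deriv Real.Gamma ((1 / 2 + (a : ℝ)) / 2) / Real.Gamma ((1 / 2 + (a : ℝ)) / 2) -
    Real.log Real.pi

/-- `∏_p (1 - 1/(p(p+1)))` -/
def P1 : ℝ := ∏' p : Nat.Primes, (1 - 1 / (((p : ℕ) : ℝ) * (((p : ℕ) : ℝ) + 1)))

/-- `∑_p log p/(p² + p - 1)` -/
def Lp : ℝ := ∑' p : Nat.Primes,
  Real.log ((p : ℕ) : ℝ) / (((p : ℕ) : ℝ) ^ 2 + ((p : ℕ) : ℝ) - 1)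

/-- the polynomial `Q_±(1,x)` of the conjecture; `a = 0` for `+`, `a = 1` for `-` -/
def Q1 (a : ℕ) (x : ℝ) : ℝ :=
  P1 * ((x + lam a) / 2 + 2 * Real.eulerMascheroniConstant + 2 * Lp)

/-- the main term -/
def MT (ε : ℤ) (x H : ℕ) : ℝ :=
  3 / Real.pi ^ 2 * ∫ t in (x : ℝ)..((x : ℝ) + H), Q1 (if ε = 1 then 0 else 1) (Real.log t)

/-! ### parameters, kernels -/

/-- parameters of a family of real characters -/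
structure Par where
  e : ℤ
  r : ℕ
  a : ℕ
  η : ℝ

/-- the admissible parameters -/
def Par.ok (p : Par) : Prop :=
  (p.e = 1 ∨ p.e = -1 ∨ p.e = 2 ∨ p.e = -2) ∧ (1 ≤ p.r ∧ p.r ≤ 8) ∧ (p.a = 0 ∨ p.a = 1) ∧
    (p.η = 0 ∨ p.η = 1 ∨ p.η = -1)

/-- parameters of a family of the library -/
def par (φ : FD) : Par := ⟨φ.e, φ.r, φ.a, φ.η⟩

/-- `κ(z) = z^{-1/8} e^{-z}` -/
def kap (z : ℝ) : ℝ := z ^ (-(1 / 8) : ℝ) * Real.exp (-z)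

/-- the kernel with the powers of two -/
def kw (p : Par) (I : ℕ) (w : ℝ) (n : ℕ) : ℝ :=
  ∑ i ∈ range I, p.η ^ i * (((2 : ℝ) ^ i * n) ^ p.a * w ^ ((p.a : ℝ) / 2) *
    Real.exp (-(Real.pi * ((2 : ℝ) ^ i * n) ^ 2 * w)))

/-- sum over the odd non-squares `n ≤ N` -/
def N1 (e : ℤ) (k : ℕ → ℝ) (N d : ℕ) : ℝ :=
  ∑ n ∈ (Icc 1 N).filter (fun n => Odd n ∧ ¬ IsSquare n), js (e * (d : ℤ)) n * k n

/-- incomplete Gamma function `∫_v^∞ t^{a/2-3/4} e^{-πt} dt` -/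
def IG (a : ℕ) (v : ℝ) : ℝ :=
  ∫ t in Set.Ioi v, t ^ ((a : ℝ) / 2 - 3 / 4) * Real.exp (-(Real.pi * t))

/-- the part of the non-squares in the truncated formula for `L(1/2, χ)` -/
def EN (p : Par) (N d : ℕ) (z : ℝ) : ℝ :=
  ∑ i ∈ range N, ∑ n ∈ (Icc 1 N).filter (fun n => Odd n ∧ ¬ IsSquare n),
    p.η ^ i * js (p.e * (d : ℤ)) n / Real.sqrt ((2 : ℝ) ^ i * n) *
      IG p.a (((2 : ℝ) ^ i * n) ^ 2 * z)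

/-- the part of the squares -/
def ES (p : Par) (N d : ℕ) (z : ℝ) : ℝ :=
  ∑ i ∈ range N, ∑ n ∈ (Icc 1 N).filter (fun n => Odd n ∧ IsSquare n),
    p.η ^ i * js (p.e * (d : ℤ)) n / Real.sqrt ((2 : ℝ) ^ i * n) *
      IG p.a (((2 : ℝ) ^ i * n) ^ 2 * z)

/-- `1_{d squarefree} - ∑_{a ≤ A, a² | d} μ(a)` -/
def RA (A d : ℕ) : ℝ :=
  (if Squarefree d then 1 else 0) -
    ∑ a ∈ (Icc 1 A).filter (fun a => a ^ 2 ∣ d), ((ArithmeticFunction.moebius a : ℤ) : ℝ)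

/-- the error function -/
def Er (Y h : ℕ) : ℝ :=
  (h : ℝ) ^ (1 / 2 : ℝ) * Real.log Y ^ (3 / 2 : ℝ) * (1 + Real.log (h * Real.log Y)) +
    (h : ℝ) ^ (5 / 6 : ℝ) * Real.log Y ^ (7 / 6 : ℝ)

/-- `∑ (η/√2)^i` and `∑ i (η/√2)^i` -/
def S0 (η : ℝ) : ℝ := 1 / (1 - η / Real.sqrt 2)
def S1 (η : ℝ) : ℝ := η / Real.sqrt 2 / (1 - η / Real.sqrt 2) ^ 2

/-- `∑_{q | d} log q/(q-1)` -/
def Lam (d : ℕ) : ℝ := ∑ q ∈ d.primeFactors, Real.log q / ((q : ℝ) - 1)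

/-- main term of the squares -/
def MQ (p : Par) (d : ℕ) (z : ℝ) : ℝ :=
  gm (1 / 2 + p.a) / 2 * ((d.totient : ℝ) / d) *
    (S0 p.η * ((Real.log (1 / z) + lam p.a) / 4 + Real.eulerMascheroniConstant + Real.log 2 +
      Lam d) - Real.log 2 / 2 * S1 p.η)

/-- `∏_{p>2} (1 - 2/p² + 1/p³)` -/
def Po : ℝ := ∏' p : Nat.Primes, if (p : ℕ) = 2 then 1 else
  (1 - 2 / ((p : ℕ) : ℝ) ^ 2 + 1 / ((p : ℕ) : ℝ) ^ 3)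

/-- `∑_{p>2} log p/(p² + p - 1)` -/
def Lo : ℝ := ∑' p : Nat.Primes, if (p : ℕ) = 2 then 0 else
  Real.log ((p : ℕ) : ℝ) / (((p : ℕ) : ℝ) ^ 2 + ((p : ℕ) : ℝ) - 1)

/-! ### the statements -/

/-- LSD: the large sieve inequality in its dual form -/
def S_LSD : Prop := ∀ (F N : ℕ) (u0 : ℤ) (c : ℕ → ℕ → ℂ),
  ∑ u ∈ Ico u0 (u0 + N), ‖∑ s ∈ Icc 1 F, ∑ r ∈ (range s).filter (fun r => r.Coprime s),
      c s r * ee ((u : ℝ) * r / s)‖ ^ 2 ≤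
    6 * (N + (F : ℝ) ^ 2) * ∑ s ∈ Icc 1 F, ∑ r ∈ (range s).filter (fun r => r.Coprime s),
      ‖c s r‖ ^ 2

/-- BLK: the large sieve for real characters in windows -/
def S_BLK : Prop := ∀ (F U m : ℕ) (u0 c : ℤ) (S : Finset ℕ) (K : ℕ → ℝ),
  (∀ s ∈ S, Odd s ∧ Squarefree s ∧ 3 ≤ s ∧ s ≤ F) →
  ∑ u ∈ Ico u0 (u0 + U), (∑ j ∈ Ioc u (u + m), ∑ s ∈ S, K s * js (8 * j + c) s) ^ 2 ≤
    12 * (U + (F : ℝ) ^ 2) * m * ∑ s ∈ S, K s ^ 2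

/-- LS3: the same with weights -/
def S_LS3 : Prop := ∀ (Q : ℝ) (U m : ℕ) (u0 c : ℤ) (S : Finset ℕ) (K : ℕ → ℝ), 0 < Q →
  (∀ s ∈ S, Odd s ∧ Squarefree s ∧ 3 ≤ s) →
  ∑ u ∈ Ico u0 (u0 + U), (∑ j ∈ Ioc u (u + m), ∑ s ∈ S, K s * js (8 * j + c) s) ^ 2 ≤
    200 * (U + Q ^ 2) * m * ∑ s ∈ S, (max 1 ((s : ℝ) / Q)) ^ 3 * K s ^ 2

/-- HW: windows in a residue class -/
def S_HW : Prop := ∀ (q c0 Y h : ℕ) (g : ℤ → ℝ), c0 < q →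
  ∑ t ∈ range q, (t + h) / q = h ∧
  ∑ y ∈ range Y, (∑ d ∈ (Ioc y (y + h)).filter (fun d => d % q = c0), g d) ^ 2 ≤
    ∑ t ∈ range q, ∑ u ∈ Ico (-1 : ℤ) (-1 + ((Y / q + 2 : ℕ) : ℤ)),
      (∑ j ∈ Ioc u (u + (((t + h) / q : ℕ) : ℤ)), g (q * j + c0)) ^ 2

/-- KS: sums of the kernel -/
def S_KS : Prop := ∃ C : ℝ, 0 < C ∧ ∀ (z : ℝ) (V : ℕ), 0 < z →
  ∑ v ∈ Icc 1 V, kap (z * (v : ℝ) ^ 4) ≤ C * z ^ (-(1 / 4) : ℝ) * Real.exp (-(z / 2))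

/-- WS: the weighted sum of the large sieve -/
def S_WS : Prop := ∃ C : ℝ, 0 < C ∧ ∀ (Q : ℝ) (M : ℕ), 0 < Q →
  ∑ s ∈ Icc 1 M, 1 / (s : ℝ) * (max 1 ((s : ℝ) / Q)) ^ 3 * Real.exp (-((s : ℝ) / Q) ^ 2) ≤
    C * (1 + Real.log (1 + Q)) * Real.exp (-(1 / (2 * Q ^ 2)))

/-- LS1: the mean square of the non-squares in windows, for one `w` -/
def S_LS1 : Prop := ∃ C : ℝ, 0 < C ∧ ∀ (w : ℝ), 0 < w → ∀ k : ℕ → ℝ,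
  (∀ n : ℕ, 1 ≤ n → |k n| ≤ kap ((n : ℝ) ^ 2 * w)) →
  ∀ e : ℤ, (e = 1 ∨ e = -1 ∨ e = 2 ∨ e = -2) → ∀ c : ℕ, c < 8 → Odd c → ∀ a : ℕ, Odd a →
  ∀ Y h N : ℕ,
  ∑ y ∈ range Y, (∑ d ∈ (Ioc y (y + h)).filter (fun d => a ^ 2 ∣ d ∧ d % 8 = c),
      N1 e k N d) ^ 2 ≤
    C * h * ((Y : ℝ) / a ^ 2 + 1 / w) * w ^ (-(1 / 2) : ℝ) * (1 + Real.log (1 + 1 / w)) *
      Real.exp (-(w / 4))

/-- IGF: the incomplete Gamma function as an integral over `w` -/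
def S_IGF : Prop := ∀ a : ℕ, (a = 0 ∨ a = 1) → ∀ (m z : ℝ), 1 ≤ m → 0 < z →
  IntegrableOn (fun w : ℝ => w ^ (-(3 / 4) : ℝ) * (m ^ a * w ^ ((a : ℝ) / 2) *
    Real.exp (-(Real.pi * m ^ 2 * w)))) (Set.Ioi z) ∧
  1 / Real.sqrt m * IG a (m ^ 2 * z) = ∫ w in Set.Ioi z, w ^ (-(3 / 4) : ℝ) *
    (m ^ a * w ^ ((a : ℝ) / 2) * Real.exp (-(Real.pi * m ^ 2 * w)))

/-- KER: the kernel -/
def S_KER : Prop :=
  (∃ C : ℝ, 1 ≤ C ∧ ∀ p : Par, p.ok → ∀ (I n : ℕ) (w : ℝ), 1 ≤ n → 0 < w →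
    |kw p I w n| ≤ C * kap ((n : ℝ) ^ 2 * w)) ∧
  (∀ p : Par, p.ok → ∀ (N d : ℕ) (z : ℝ), 0 < z →
    IntegrableOn (fun w : ℝ => w ^ (-(3 / 4) : ℝ) * N1 p.e (kw p N w) N d) (Set.Ioi z) ∧
    EN p N d z = ∫ w in Set.Ioi z, w ^ (-(3 / 4) : ℝ) * N1 p.e (kw p N w) N d)

/-- J1: non-squares, `d` divisible by `a²`, in the mean -/
def S_J1 : Prop := ∃ C : ℝ, 0 < C ∧ ∀ p : Par, p.ok → ∀ c : ℕ, c < 8 → Odd c → ∀ a : ℕ, Odd a →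
  ∀ Y h N : ℕ, 3 ≤ Y → 1 ≤ h →
  ∑ y ∈ range Y, |∑ d ∈ (Ioc y (y + h)).filter (fun d => a ^ 2 ∣ d ∧ d % 8 = c),
      EN p N d (1 / (p.r * ((y : ℝ) + 1)))| ≤
    C * (Real.sqrt h * Y * Real.sqrt (Real.log Y) * (Real.log Y / a + 1))

/-- RA: the tail of the sum for the squarefree numbers -/
def S_RA : Prop := ∀ A D : ℕ, 1 ≤ A → ∑ d ∈ Icc 1 D, RA A d ^ 2 ≤ 16 * D / A

/-- J2 -/
def S_J2 : Prop := ∃ C : ℝ, 0 < C ∧ ∀ p : Par, p.ok → ∀ c : ℕ, c < 8 → Odd c →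
  ∀ A Y h N : ℕ, 1 ≤ A → 3 ≤ Y → 1 ≤ h → h ≤ Y →
  ∑ y ∈ range Y, ∑ d ∈ (Ioc y (y + h)).filter (fun d => d % 8 = c),
      |RA A d| * |EN p N d (1 / (p.r * ((y : ℝ) + 1)))| ≤
    C * (h * Y * Real.log Y ^ (3 / 2 : ℝ) / Real.sqrt A)

/-- NS: the non-squares -/
def S_NS : Prop := ∃ C : ℝ, 0 < C ∧ ∀ p : Par, p.ok → ∀ c : ℕ, c < 8 → Odd c →
  ∀ Y h N : ℕ, 3 ≤ Y → 1 ≤ h → h ≤ Y →
  ∑ y ∈ range Y, |∑ d ∈ (Ioc y (y + h)).filter (fun d => d % 8 = c ∧ Squarefree d),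
      EN p N d (1 / (p.r * ((y : ℝ) + 1)))| ≤ C * Y * Er Y h

/-- LMI: two integrals -/
def S_LMI : Prop := ∀ a : ℕ, (a = 0 ∨ a = 1) →
  IntegrableOn (fun t : ℝ => t ^ ((a : ℝ) / 2 - 3 / 4) * Real.exp (-(Real.pi * t)))
    (Set.Ioi 0) ∧
  IntegrableOn (fun t : ℝ => t ^ ((a : ℝ) / 2 - 3 / 4) * Real.exp (-(Real.pi * t)) * Real.log t)
    (Set.Ioi 0) ∧
  ∫ t in Set.Ioi (0 : ℝ), t ^ ((a : ℝ) / 2 - 3 / 4) * Real.exp (-(Real.pi * t)) =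
    gm (1 / 2 + a) ∧
  ∫ t in Set.Ioi (0 : ℝ), t ^ ((a : ℝ) / 2 - 3 / 4) * Real.exp (-(Real.pi * t)) * Real.log t =
    gm (1 / 2 + a) * lam a

/-- `∑_{v ≤ V, (v,m) = 1} 1/v` -/
def Hm (m : ℕ) (V : ℝ) : ℝ :=
  ∑ v ∈ (Icc 1 ⌊V⌋₊).filter (fun v => v.Coprime m), 1 / (v : ℝ)

/-- SQH: the harmonic sum with a coprimality condition -/
def S_SQH : Prop := ∃ C : ℝ, 0 < C ∧ ∀ (m : ℕ) (V : ℝ), 1 ≤ m → 0 < V →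
  |Hm m V - (m.totient : ℝ) / m * (Real.log V + Real.eulerMascheroniConstant + Lam m)| ≤
    C * V ^ (-(1 / 2) : ℝ) * ∑ g ∈ m.divisors, 1 / Real.sqrt g

/-- SQ: the squares -/
def S_SQ : Prop := ∃ C : ℝ, 0 < C ∧ ∀ p : Par, p.ok → ∀ (d : ℕ) (z : ℝ), Odd d → 0 < z → z ≤ 1 →
  ∃ l : ℝ, Tendsto (fun N : ℕ => ES p N d z) atTop (𝓝 l) ∧
    |l - MQ p d z| ≤ C * z ^ (1 / 8 : ℝ) * ∑ g ∈ d.divisors, 1 / Real.sqrt g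

/-- REP: the formula for `L(1/2, χ)` -/
def S_REP : Prop := ∀ φ : FD, Fam φ → ∀ d : ℕ, φ.A d → Squarefree d →
  Tendsto (fun N : ℕ => EN (par φ) N d (1 / (φ.r * (d : ℝ))) +
      ES (par φ) N d (1 / (φ.r * (d : ℝ)))) atTop
    (𝓝 (gm (1 / 2 + φ.a) / 2 * LLg φ d (1 / 2)))

/-- FRZ: change of the length -/
def S_FRZ : Prop := ∃ C : ℝ, 0 < C ∧ ∀ p : Par, p.ok → ∀ (N d : ℕ) (z z' : ℝ),
  0 < z' → z' ≤ z → z ≤ 1 →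
  |(EN p N d z + ES p N d z) - (EN p N d z' + ES p N d z')| ≤
    C * (z' ^ (-(1 / 4) : ℝ) - z ^ (-(1 / 4) : ℝ)) ∧
  |EN p N d z + ES p N d z| ≤ C * z ^ (-(1 / 4) : ℝ)

/-- WA1: the squarefree numbers with the weight `φ(d)/d` in windows -/
def S_WA1 : Prop := ∃ C : ℝ, 0 < C ∧ ∀ c : ℕ, c < 8 → Odd c → ∀ Y h : ℕ, 1 ≤ h → h ≤ Y →
  ∑ y ∈ range Y, |∑ d ∈ (Ioc y (y + h)).filter (fun d => d % 8 = c ∧ Squarefree d),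
      (d.totient : ℝ) / d - Po / 8 * h| ≤ C * Y * Real.sqrt h

/-- WA2: the same with the weight `φ(d)/d ∑_{q | d} log q/(q-1)` -/
def S_WA2 : Prop := ∃ C : ℝ, 0 < C ∧ ∀ c : ℕ, c < 8 → Odd c → ∀ Y h : ℕ, 1 ≤ h → h ≤ Y →
  ∑ y ∈ range Y, |∑ d ∈ (Ioc y (y + h)).filter (fun d => d % 8 = c ∧ Squarefree d),
      (d.totient : ℝ) / d * Lam d - Po * Lo / 8 * h| ≤ C * Y * Real.sqrt h * (1 + Real.log h)

/-- CLS: one residue class of one family -/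
def S_CLS : Prop := ∀ φ : FD, Fam φ → ∀ c : ℕ, c < 8 → Odd c →
  (∀ d : ℕ, d % 8 = c → Squarefree d → d ≠ 1 → φ.A d) →
  ∃ C : ℝ, 0 < C ∧ ∀ Y h : ℕ, 3 ≤ Y → 1 ≤ h → h ^ 4 ≤ 16 * Y →
  ∑ y ∈ range Y, |∑ d ∈ (Ioc y (y + h)).filter (fun d => d % 8 = c ∧ Squarefree d),
      LLg φ d (1 / 2) -
      Po / 8 * h * (S0 φ.η * ((Real.log (φ.r * ((y : ℝ) + 1)) + lam φ.a) / 4 +
        Real.eulerMascheroniConstant + Real.log 2 + Lo) - Real.log 2 / 2 * S1 φ.η)| ≤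
    C * Y * Er Y h

/-- CON: the constants -/
def S_CON : Prop := ∀ (x : ℝ) (a : ℕ),
  (1 / 8 : ℝ) * (Po * (S0 0 * ((x + lam a) / 4 + Real.eulerMascheroniConstant + Real.log 2 + Lo) -
      Real.log 2 / 2 * S1 0)) +
  1 / 8 * (Po * (S0 1 * ((x + lam a) / 4 + Real.eulerMascheroniConstant + Real.log 2 + Lo) -
      Real.log 2 / 2 * S1 1)) +
  1 / 8 * (Po * (S0 (-1) * ((x + lam a) / 4 + Real.eulerMascheroniConstant + Real.log 2 + Lo) -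
      Real.log 2 / 2 * S1 (-1))) = 3 / Real.pi ^ 2 * Q1 a x

/-- LIM: the partial sums of `L(σ, χ)` -/
def S_LIM : Prop := ∀ (q : ℕ) [NeZero q] (χ : DirichletCharacter ℂ q), χ ≠ 1 → ∀ σ : ℝ, 0 < σ →
  Tendsto (fun N : ℕ => ∑ n ∈ Icc 1 N, χ (n : ZMod q) * (((n : ℝ) ^ (-σ) : ℝ) : ℂ)) atTop
    (𝓝 (DirichletCharacter.LFunction χ (σ : ℂ)))

open Classical in
/-- FDD: fundamental discriminants and the families -/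
def S_FDD : Prop :=
  (∀ D : ℤ, IsFund D → D ≠ 1 →
    Tendsto (fun N : ℕ => ∑ n ∈ Icc 1 N, (kron D n : ℝ) / Real.sqrt n) atTop (𝓝 (LHalf D))) ∧
  ∀ ε : ℤ, (ε = 1 ∨ ε = -1) → ∀ n : ℕ, 2 ≤ n →
    (if IsFund (ε * n) then LHalf (ε * n) else 0) =
      (if 8 ∣ n ∧ (F8 ε).A (n / 8) ∧ Squarefree (n / 8) then LLg (F8 ε) (n / 8) (1 / 2) else 0) +
      (if 4 ∣ n ∧ (F4 ε).A (n / 4) ∧ Squarefree (n / 4) then LLg (F4 ε) (n / 4) (1 / 2) else 0) +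
      (if (F1 ε 1).A n ∧ Squarefree n then LLg (F1 ε 1) n (1 / 2) else 0) +
      (if (F1 ε 5).A n ∧ Squarefree n then LLg (F1 ε 5) n (1 / 2) else 0)

/-- MED: windows of medium length -/
def S_MED : Prop := ∃ C : ℝ, 0 < C ∧ ∀ ε : ℤ, (ε = 1 ∨ ε = -1) → ∀ X H : ℕ, 3 ≤ X →
  Real.log X ≤ H → H ^ 4 ≤ 16 * X →
  ∑ x ∈ Icc 1 X, |W ε x H - MT ε x H| ≤ C * X * Er X H

/-- FIN: the theorem -/
def S_FIN : Prop :=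
  (∀ D : ℤ, IsFund D → D ≠ 1 →
    Tendsto (fun N : ℕ => ∑ n ∈ Icc 1 N, (kron D n : ℝ) / Real.sqrt n) atTop (𝓝 (LHalf D))) ∧
  ∃ C : ℝ, 0 < C ∧ ∀ ε : ℤ, (ε = 1 ∨ ε = -1) → ∀ X H : ℕ, 3 ≤ X → Real.log X ≤ H → H ≤ X →
    ∑ x ∈ Icc 1 X, |W ε x H - MT ε x H| ≤
      C * X * H * (Real.log X ^ (7 / 6 : ℝ) * Real.log (Real.log X) /
        (min (H : ℝ) ((X : ℝ) ^ (1 / 4 : ℝ))) ^ (1 / 6 : ℝ))

end

end Pool.Agent.Q122.FM
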